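import Pool.Agent.Lib.H68G.Defs
import Pool.Agent.Lib.Helper57.Mertens

/-!
# Chunk BT (M): Brun-Titchmarsh and Mertens
-/

open Finset Polynomial

namespace Pool.Agent.Lib.H68G

open Pool.Agent.Lib.H59

theorem BT_inv_one_le {p : ℕ} (hp : p.Prime) : 1 ≤ (1 - 1 / (p : ℝ))⁻¹ := by
  have h := factor_pos hp
  rw [one_le_inv₀ h]
  have : (0 : ℝ) ≤ 1 / p := by positivity
  linarith

theorem BT_prod_inv_le (r : ℕ) (hr : 3 ≤ r) :
    ∏ p ∈ prN r, (1 - 1 / (p : ℝ))⁻¹ ≤ 500 * Real.log r := by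
  refine le_trans ?_ (Helper57.prod_one_sub_inv_inv_le r (by omega))
  have hsub : prN r ⊆ Sieve.primesUpTo r := by
    intro p hp
    rw [mem_prN] at hp
    exact Sieve.mem_primesUpTo.2 ⟨hp.1, hp.2.1.le⟩
  rw [← prod_sdiff hsub]
  have h1 : 1 ≤ ∏ p ∈ Sieve.primesUpTo r \ prN r, (1 - 1 / (p : ℝ))⁻¹ := by
    refine prod_induction _ (fun x : ℝ => 1 ≤ x) (fun a b ha hb => one_le_mul_of_one_le_of_one_le ha hb)
      le_rfl ?_
    intro p hp
    rw [mem_sdiff] at hp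
    exact BT_inv_one_le (Sieve.mem_primesUpTo.1 hp.1).1
  have h2 : 0 ≤ ∏ p ∈ prN r, (1 - 1 / (p : ℝ))⁻¹ :=
    prod_nonneg fun p hp => (inv_pos.2 (factor_pos (mem_prN.1 hp).1)).le
  exact le_mul_of_one_le_left h2 h1

/-- `W(r) ≥ ∏_{p < r} (1 - 1/p) ≥ 1/(500 log r)` (`Helper57.prod_one_sub_inv_inv_le`). -/
theorem WW_ge (r : ℕ) (hr : 3 ≤ r) : 1 / (500 * Real.log r) ≤ WW r := by
  have h1 := BT_prod_inv_le r hr
  rw [prod_inv_distrib] at h1
  have h2 := WW_pos r
  have h3 : (WW r)⁻¹ ≤ 500 * Real.log r := h1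
  rw [one_div, inv_le_comm₀ _ h2]
  · exact h3
  · exact lt_of_lt_of_le (inv_pos.2 h2) h3

theorem WW_le_one (r : ℕ) : WW r ≤ 1 := by
  refine prod_le_one (fun p hp => (factor_pos (mem_prN.1 hp).1).le) fun p _ => ?_
  have : (0 : ℝ) ≤ 1 / p := by positivity
  linarith

theorem BT_rv {r : ℕ} (χ : DirichletCharacter ℂ r) (n : ℕ) : |rv χ n| ≤ 1 := by
  unfold rv
  exact (Complex.abs_re_le_norm _).trans (χ.norm_le_one _)

theorem BT_factor {r : ℕ} (χ : DirichletCharacter ℂ r) {p : ℕ} (hp : p.Prime) :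
    0 < 1 - rv χ p / p ∧ 1 - rv χ p / p ≤ (1 - 1 / (p : ℝ))⁻¹ := by
  have hp2 : (2 : ℝ) ≤ p := by exact_mod_cast hp.two_le
  have hp0 : (0 : ℝ) < p := by linarith
  have h := abs_le.1 (BT_rv χ p)
  have h1 : rv χ p / p ≤ 1 / p := div_le_div_of_nonneg_right h.2 hp0.le
  have h2 : -(1 / (p : ℝ)) ≤ rv χ p / p := by
    rw [← neg_div]
    exact div_le_div_of_nonneg_right h.1 hp0.le
  have h3 := factor_pos hp
  refine ⟨by linarith, ?_⟩
  have h4 : 1 + 1 / (p : ℝ) ≤ (1 - 1 / (p : ℝ))⁻¹ := by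
    rw [le_inv_comm₀ (by positivity) h3, ← one_div, le_div_iff₀ (by positivity)]
    nlinarith [sq_nonneg (1 / (p : ℝ))]
  linarith

/-- `0 < U ≤ ∏_{p < r} (1 + 1/p) ≤ ∏_{p < r} (1 - 1/p)⁻¹ ≤ 500 log r`. -/
theorem UU_pos {r : ℕ} [NeZero r] (χ : DirichletCharacter ℂ r) : 0 < UU χ :=
  prod_pos fun _ hp => (BT_factor χ (mem_prN.1 hp).1).1

theorem UU_le {r : ℕ} [NeZero r] (χ : DirichletCharacter ℂ r) (hr : 3 ≤ r) :
    UU χ ≤ 500 * Real.log r :=
  (prod_le_prod (fun _ hp => (BT_factor χ (mem_prN.1 hp).1).1.le)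
    fun _ hp => (BT_factor χ (mem_prN.1 hp).1).2).trans (BT_prod_inv_le r hr)

/-- the linear polynomial -/
noncomputable def BT_H (r c : ℕ) : ℤ[X] := C (r : ℤ) * X + C (c : ℤ)

theorem BT_eval (r c : ℕ) (n : ℤ) : (BT_H r c).eval n = r * n + c := by
  simp [BT_H]

theorem BT_root {r c : ℕ} (hc : Nat.Coprime c r) {p : ℕ} (hp : p.Prime) :
    rootCount (BT_H r c) p = if p ∣ r then 0 else 1 := by
  classical
  have hpZ : Prime (p : ℤ) := Nat.prime_iff_prime_int.mp hp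
  split_ifs with h
  · rw [rootCount, card_eq_zero, filter_eq_empty_iff]
    intro a _ hd
    rw [BT_eval] at hd
    have h1 : (p : ℤ) ∣ (r : ℤ) * a := Dvd.dvd.mul_right (Int.natCast_dvd_natCast.2 h) _
    have h2 : (p : ℤ) ∣ (c : ℤ) := (dvd_add_right h1).1 hd
    have h3 : p ∣ c := Int.natCast_dvd_natCast.1 h2
    have h4 := Nat.dvd_gcd h3 h
    rw [hc] at h4
    exact hp.one_lt.ne' (Nat.dvd_one.1 h4)
  · rw [rootCount, card_eq_one]
    have hcop : Nat.Coprime r p := (Nat.Coprime.symm ((hp.coprime_iff_not_dvd).2 h))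
    have := Fact.mk hp
    -- the root
    have hu : ((r : ℕ) : ZMod p) ≠ 0 := by
      rw [Ne, ZMod.natCast_eq_zero_iff]
      exact h
    set z : ZMod p := -(c : ZMod p) / (r : ZMod p) with hz
    refine ⟨z.val, ?_⟩
    ext a
    rw [mem_filter, mem_range, mem_singleton, BT_eval, ← ZMod.intCast_zmod_eq_zero_iff_dvd]
    push_cast
    constructor
    · rintro ⟨ha, h1⟩
      have h2 : (a : ZMod p) = z := by
        rw [hz, eq_div_iff hu]
        linear_combination h1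
      rw [← h2, ZMod.val_cast_of_lt ha]
    · rintro rfl
      refine ⟨ZMod.val_lt z, ?_⟩
      rw [ZMod.natCast_zmod_val, hz]
      field_simp
      ring

theorem BT_prod {r c : ℕ} (hc : Nat.Coprime c r) :
    ∏ p ∈ Nat.primesBelow r, (1 - (rootCount (BT_H r c) p : ℝ) / p) = WW r := by
  classical
  unfold WW prN
  rw [prod_filter]
  refine prod_congr rfl fun p hp => ?_
  rw [BT_root hc (Nat.mem_primesBelow.1 hp).2]
  by_cases h : p ∣ r
  · simp [h]
  · simp [h]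

theorem BT_sieve {r c : ℕ} (hr : 500 ≤ r) (hc : Nat.Coprime c r) {T : ℕ} (hT : r ^ 1000 ≤ T) :
    ((((Icc 1 (T / r)).filter fun n : ℕ => ∀ p ∈ Nat.primesBelow r,
      ¬ (p : ℤ) ∣ (BT_H r c).eval (n : ℤ)).card) : ℝ) ≤ 4 * ((T / r : ℕ) : ℝ) * WW r := by
  have hr0 : 0 < r := by omega
  have hrr : (1 : ℝ) ≤ r := by exact_mod_cast hr0
  have hlog : 0 ≤ Real.log r := Real.log_nonneg hrr
  have h1 : ∀ p : ℕ, p.Prime → p < r → rootCount (BT_H r c) p ≤ 1 := by
    intro p hp _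
    rw [BT_root hc hp]
    split_ifs <;> omega
  have h := (poly_sieve (BT_H r c) (κ := 1) (Y := r) (X := T / r) (R := (r : ℝ) ^ 40) h1
    (fun p hp hpr => lt_of_le_of_lt (h1 p hp hpr) hp.one_lt) (by omega)
    (one_le_pow₀ hrr) (by
      rw [Real.log_pow]
      apply mul_le_mul_of_nonneg_right _ hlog
      have h4 : Real.log 4 = 2 * Real.log 2 := by
        rw [show (4 : ℝ) = 2 ^ 2 by norm_num, Real.log_pow]
        norm_num
      have h5 := Real.log_two_lt_d9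
      rw [h4]
      push_cast
      nlinarith) (by
      rw [← pow_mul]
      have h6 : r ^ (40 * 12) ≤ T / r := by
        rw [Nat.le_div_iff_mul_le hr0, ← pow_succ]
        exact (Nat.pow_le_pow_right hr0 (by norm_num)).trans hT
      exact_mod_cast h6)).1
  rw [BT_prod hc] at h
  exact h

theorem BT_pic {r : ℕ} [NeZero r] (hr : 500 ≤ r) (c : ZMod r) (T : ℕ) :
    pic T r c ≤ 1 + ((Icc 1 (T / r)).filter fun n : ℕ => ∀ p ∈ Nat.primesBelow r,
      ¬ (p : ℤ) ∣ (BT_H r c.val).eval (n : ℤ)).card := by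
  classical
  have hr0 : 0 < r := by omega
  have hmod : ∀ q : ℕ, (q : ZMod r) = c → q % r = c.val := by
    intro q hq
    rw [← hq, ZMod.val_natCast]
  set A := (Icc 1 T).filter fun q : ℕ => q.Prime ∧ (q : ZMod r) = c with hA
  have hcard : pic T r c = A.card := rfl
  have h1 : (A.filter fun q => q < r).card ≤ 1 := by
    rw [card_le_one]
    intro q hq q' hq'
    rw [mem_filter, hA, mem_filter] at hq hq'
    have e1 := hmod q hq.1.2.2
    have e2 := hmod q' hq'.1.2.2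
    rw [Nat.mod_eq_of_lt hq.2] at e1
    rw [Nat.mod_eq_of_lt hq'.2] at e2
    rw [e1, e2]
  have h2 : (A.filter fun q => ¬ q < r).card ≤ ((Icc 1 (T / r)).filter fun n : ℕ =>
      ∀ p ∈ Nat.primesBelow r, ¬ (p : ℤ) ∣ (BT_H r c.val).eval (n : ℤ)).card := by
    apply card_le_card_of_injOn (fun q => q / r)
    · intro q hq
      rw [mem_coe, mem_filter, hA, mem_filter, mem_Icc] at hq
      obtain ⟨⟨⟨hq1, hqT⟩, hqp, hqc⟩, hqr⟩ := hq
      have e1 := hmod q hqc
      have e2 : r * (q / r) + c.val = q := by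
        rw [← e1]
        exact Nat.div_add_mod q r
      rw [mem_coe, mem_filter, mem_Icc]
      refine ⟨⟨?_, Nat.div_le_div_right hqT⟩, ?_⟩
      · exact Nat.div_pos (not_lt.1 hqr) hr0
      · intro p hp hd
        rw [BT_eval] at hd
        have e3 : (r : ℤ) * ((q / r : ℕ) : ℤ) + (c.val : ℤ) = (q : ℤ) := by exact_mod_cast e2
        rw [e3] at hd
        have e4 : p ∣ q := Int.natCast_dvd_natCast.1 hd
        obtain ⟨hpr, hpp⟩ := Nat.mem_primesBelow.1 hp
        have e5 := (Nat.prime_dvd_prime_iff_eq hpp hqp).1 e4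
        omega
    · intro q hq q' hq' hqq
      rw [mem_coe, mem_filter, hA, mem_filter] at hq hq'
      have e1 := hmod q hq.1.2.2
      have e2 := hmod q' hq'.1.2.2
      have e3 : q / r = q' / r := hqq
      rw [← Nat.div_add_mod q r, ← Nat.div_add_mod q' r, e1, e2, e3]
  rw [hcard, ← card_filter_add_card_filter_not (s := A) (fun q => q < r)]
  omega

/-- `H59.poly_sieve` with `H = r x + c` (`c` the representative in `[0, r)`), `κ = 1`, `Y = r`,
`R = r ^ 40`, `X = T/r` (so `r ^ 480 ≤ X`): `rootCount H p = 1` for `p ∤ r` and `0` for `p ∣ r` (`c` is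
a unit). A prime `q ≤ T`, `q ≡ c`, is either below `r` (at most one) or `q = r n + c` with
`1 ≤ n ≤ T/r`, and not divisible by a prime `p < r`. So `pic ≤ 1 + 4 (T/r) W`, and `1 ≤ (T/r) W`
by `WW_ge`. -/
theorem pic_le : ∃ r₀ : ℕ, ∀ (r : ℕ) [NeZero r], r₀ ≤ r → ∀ c : ZMod r, IsUnit c → ∀ T : ℕ,
    r ^ 1000 ≤ T → (pic T r c : ℝ) ≤ 10 * (T / r) * WW r := by
  refine ⟨500, fun r _ hr c hc T hT => ?_⟩
  have hr0 : 0 < r := by omega
  have hrr : (500 : ℝ) ≤ r := by exact_mod_cast hr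
  have hcop : Nat.Coprime c.val r := by
    have h1 : IsUnit ((c.val : ℕ) : ZMod r) := by rwa [ZMod.natCast_zmod_val]
    exact (ZMod.isUnit_iff_coprime _ _).1 h1
  have h1 : (pic T r c : ℝ) ≤ 1 + 4 * ((T / r : ℕ) : ℝ) * WW r := by
    have h2 := BT_pic hr c T
    have h3 := BT_sieve hr hcop hT
    have h4 : (pic T r c : ℝ) ≤ 1 + (((Icc 1 (T / r)).filter fun n : ℕ => ∀ p ∈ Nat.primesBelow r,
      ¬ (p : ℤ) ∣ (BT_H r c.val).eval (n : ℤ)).card : ℝ) := by exact_mod_cast h2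
    linarith
  have hW := WW_pos r
  have h5 : ((T / r : ℕ) : ℝ) ≤ (T : ℝ) / r := Nat.cast_div_le
  -- the main term is at least one
  have h6 : 1 ≤ (T : ℝ) / r * WW r := by
    have h7 := WW_ge r (by omega)
    have hlog : 0 < Real.log r := Real.log_pos (by linarith)
    have hlog' : Real.log r ≤ r := (Real.log_le_sub_one_of_pos (by linarith)).trans (by linarith)
    have h8 : (r : ℝ) ^ 3 ≤ T := by
      have h9 : r ^ 3 ≤ T := (Nat.pow_le_pow_right hr0 (by norm_num)).trans hT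
      exact_mod_cast h9
    have h10 : (r : ℝ) ^ 2 ≤ (T : ℝ) / r := by
      rw [le_div_iff₀ (by linarith)]
      have e : (r : ℝ) ^ 2 * r = (r : ℝ) ^ 3 := by ring
      rw [e]
      exact h8
    calc (1 : ℝ) ≤ (r : ℝ) ^ 2 * (1 / (500 * r)) := by
          rw [mul_one_div, le_div_iff₀ (by positivity)]
          nlinarith
      _ ≤ (T : ℝ) / r * (1 / (500 * Real.log r)) := by
          apply mul_le_mul h10 _ (by positivity) (by positivity)
          exact one_div_le_one_div_of_le (by positivity) (by linarith)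
      _ ≤ (T : ℝ) / r * WW r := mul_le_mul_of_nonneg_left h7 (by positivity)
  have h11 := mul_le_mul_of_nonneg_right h5 hW.le
  nlinarith

end Pool.Agent.Lib.H68G
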