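import Pool.Agent.Lib.H68G.Defs
import Pool.Agent.Lib.H68G.BT

/-!
# Chunk AV (M/L): the average of the truncated singular series over a class
-/

open Finset Polynomial

namespace Pool.Agent.Lib.H68G

open Pool.Agent.Lib.H59

/-- Pointwise: `∏_{p < r} (1 - ω_N(p)/p) ≥ c · V'_F · exp (-∑_{p ∈ prN r, p > 2κ} ρ_N(p)/p)`,
`ρ_N(p) = rootCount (N - G) p`, `κ = kap F h`, `c = ∏_{p ≤ 2κ} (1/p) · exp (-4 κ²)`.
Factors: `p ≤ 2κ`: `1 - ω/p ≥ 1/p` (`omegaN_lt`), and the factor of `V'_F` is `≤ 1`.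
`p > 2κ`, `p ∣ r`: equal factors, because `p ∣ N`, `p ∤ a`. `p > 2κ`, `p ∤ r`:
`1 - ω/p ≥ exp (-ω/p - 2 (ω/p)²)` (`exp_le_one_sub`), `ω ≤ ω_F + ρ_N`, `ω ≤ κ`,
`exp (-ω_F/p) ≥ 1 - ω_F/p`, `∑ 1/p² ≤ 2`. -/
theorem pointwise {g : ℕ} (F : Fin g → ℤ[X]) (hF : Sys F) (a h : ℕ) (ha : 1 ≤ a) (hh : 1 ≤ h) :
    ∃ c : ℝ, 0 < c ∧ ∀ r : ℕ, Nat.Coprime a r → ∀ N : ℕ, r ∣ N → Admissible F (GG a h) N →
      c * VF F r * Real.exp (-∑ p ∈ (prN r).filter (fun p => 2 * kap F h < p),
        (rootCount (C (N : ℤ) - GG a h) p : ℝ) / p) ≤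
        ∏ p ∈ Nat.primesBelow r, (1 - (omegaN F (GG a h) N p : ℝ) / p) := by
  classical
  set κ : ℕ := kap F h with hκ
  refine ⟨(∏ p ∈ Nat.primesBelow (2 * κ + 1), (1 : ℝ) / p) * Real.exp (-(4 * (κ : ℝ) ^ 2)), ?_, ?_⟩
  · refine mul_pos (prod_pos fun p hp => ?_) (Real.exp_pos _)
    have : (0 : ℝ) < p := by exact_mod_cast (Nat.prime_of_mem_primesBelow hp).pos
    positivity
  intro r hr N hrN hadm
  have hGd : (GG a h).natDegree = h := natDegree_GG ha
  have hκle : ∀ p : ℕ, p.Prime → omegaN F (GG a h) N p ≤ κ := by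
    intro p hp
    refine (omegaN_le_sum F (GG a h) N hp).trans ?_
    rw [hκ, kap]
    refine Nat.add_le_add (sum_le_sum fun i _ => ?_) ?_
    · exact rootCount_le_natDegree ((hF.irr i).isPrimitive (by have := hF.deg i; omega)) hp
    · have h1 := natDegree_C_sub' (GG a h) N
      rw [hGd] at h1
      have h2 := rootCount_le_natDegree (hadm.1.isPrimitive (by omega)) hp
      omega
  have hvle : ∀ p : ℕ, p.Prime → 0 ≤ 1 - (rootCount (mixPoly F r p) p : ℝ) / p ∧
      1 - (rootCount (mixPoly F r p) p : ℝ) / p ≤ 1 := by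
    intro p hp
    have hp0 : (0 : ℝ) < p := by exact_mod_cast hp.pos
    have h1 : (rootCount (mixPoly F r p) p : ℝ) ≤ p := by
      exact_mod_cast rootCount_le_self (mixPoly F r p) p
    have h2 : (rootCount (mixPoly F r p) p : ℝ) / p ≤ 1 := by
      rw [div_le_one hp0]
      exact h1
    have h3 : 0 ≤ (rootCount (mixPoly F r p) p : ℝ) / p := by positivity
    constructor <;> linarith
  have hkey : ∀ p ∈ Nat.primesBelow r,
      (if p ≤ 2 * κ then (1 : ℝ) / p else 1) * (1 - (rootCount (mixPoly F r p) p : ℝ) / p) *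
        Real.exp (-(if 2 * κ < p ∧ ¬ p ∣ r then (rootCount (C (N : ℤ) - GG a h) p : ℝ) / p else 0) -
          2 * (κ : ℝ) ^ 2 * ((p : ℝ) ^ 2)⁻¹) ≤ 1 - (omegaN F (GG a h) N p : ℝ) / p := by
    intro p hp
    have hpp := Nat.prime_of_mem_primesBelow hp
    have hp0 : (0 : ℝ) < p := by exact_mod_cast hpp.pos
    obtain ⟨hv0, hv1⟩ := hvle p hpp
    have hsq : 0 ≤ 2 * (κ : ℝ) ^ 2 * ((p : ℝ) ^ 2)⁻¹ := by positivity
    by_cases hsmall : p ≤ 2 * κ
    · rw [if_pos hsmall, if_neg (by omega)]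
      have h1 : (omegaN F (GG a h) N p : ℝ) ≤ p - 1 := by
        have := omegaN_lt hadm hpp
        have h2 : omegaN F (GG a h) N p + 1 ≤ p := this
        have h3 : ((omegaN F (GG a h) N p : ℝ)) + 1 ≤ p := by exact_mod_cast h2
        linarith
      have h2 : (1 : ℝ) / p ≤ 1 - (omegaN F (GG a h) N p : ℝ) / p := by
        rw [div_le_iff₀ hp0, sub_mul, div_mul_cancel₀ _ hp0.ne']
        linarith
      refine le_trans ?_ h2
      have h3 : Real.exp (-0 - 2 * (κ : ℝ) ^ 2 * ((p : ℝ) ^ 2)⁻¹) ≤ 1 := by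
        rw [Real.exp_le_one_iff]
        linarith
      calc (1 : ℝ) / p * (1 - (rootCount (mixPoly F r p) p : ℝ) / p) *
            Real.exp (-0 - 2 * (κ : ℝ) ^ 2 * ((p : ℝ) ^ 2)⁻¹)
          ≤ (1 : ℝ) / p * 1 * 1 := by
            refine mul_le_mul (mul_le_mul_of_nonneg_left hv1 (by positivity)) h3
              (Real.exp_pos _).le (by positivity)
        _ = 1 / p := by ring
    · rw [if_neg hsmall, one_mul]
      push Not at hsmall
      by_cases hpr : p ∣ r
      · rw [if_neg (by tauto)]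
        have h1 : omegaN F (GG a h) N p = rootCount (mixPoly F r p) p := by
          rw [omegaN_eq, mixPoly, if_pos hpr]
          unfold rootCount
          congr 1
          refine filter_congr fun n _ => ?_
          have hpi := Nat.prime_iff_prime_int.mp hpp
          have hpN : (p : ℤ) ∣ N := by exact_mod_cast hpr.trans hrN
          have hpa : ¬ (p : ℤ) ∣ a := by
            intro h1
            have h2 : p ∣ a := by exact_mod_cast h1
            exact hpp.not_dvd_one (hr ▸ Nat.dvd_gcd h2 hpr)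
          rw [eval_mul, eval_mul, eval_sub, eval_C, eval_GG, eval_X, hpi.dvd_mul, hpi.dvd_mul,
            or_comm]
          refine or_congr ?_ Iff.rfl
          rw [dvd_sub_right hpN, hpi.dvd_mul, or_iff_right hpa, hpi.dvd_pow_iff_dvd (by omega)]
        rw [h1]
        have h3 : Real.exp (-0 - 2 * (κ : ℝ) ^ 2 * ((p : ℝ) ^ 2)⁻¹) ≤ 1 := by
          rw [Real.exp_le_one_iff]
          linarith
        calc (1 - (rootCount (mixPoly F r p) p : ℝ) / p) *
              Real.exp (-0 - 2 * (κ : ℝ) ^ 2 * ((p : ℝ) ^ 2)⁻¹)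
            ≤ (1 - (rootCount (mixPoly F r p) p : ℝ) / p) * 1 :=
              mul_le_mul_of_nonneg_left h3 hv0
          _ = _ := mul_one _
      · rw [if_pos ⟨hsmall, hpr⟩, mixPoly, if_neg hpr]
        have hω : (omegaN F (GG a h) N p : ℝ) ≤ κ := by exact_mod_cast hκle p hpp
        have hlarge : (2 * κ : ℝ) ≤ p := by exact_mod_cast hsmall.le
        have h1 := exp_le_one_sub (x := (omegaN F (GG a h) N p : ℝ) / p) (by positivity) (by
          rw [div_le_iff₀ hp0]
          linarith)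
        refine le_trans ?_ h1
        have h2 : (omegaN F (GG a h) N p : ℝ) ≤ rootCount (∏ i, F i) p +
            rootCount (C (N : ℤ) - GG a h) p := by
          exact_mod_cast rootCount_mul_le (∏ i, F i) (C (N : ℤ) - GG a h) hpp
        have h3 : (omegaN F (GG a h) N p : ℝ) / p ≤ (rootCount (∏ i, F i) p : ℝ) / p +
            (rootCount (C (N : ℤ) - GG a h) p : ℝ) / p := by
          rw [← add_div]
          gcongr
        have h4 : ((omegaN F (GG a h) N p : ℝ) / p) ^ 2 ≤ (κ : ℝ) ^ 2 * ((p : ℝ) ^ 2)⁻¹ := by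
          rw [div_pow, div_eq_mul_inv]
          gcongr
        have h5 : 1 - (rootCount (∏ i, F i) p : ℝ) / p ≤
            Real.exp (-((rootCount (∏ i, F i) p : ℝ) / p)) := Real.one_sub_le_exp_neg _
        calc (1 - (rootCount (∏ i, F i) p : ℝ) / p) *
              Real.exp (-((rootCount (C (N : ℤ) - GG a h) p : ℝ) / p) -
                2 * (κ : ℝ) ^ 2 * ((p : ℝ) ^ 2)⁻¹)
            ≤ Real.exp (-((rootCount (∏ i, F i) p : ℝ) / p)) *
              Real.exp (-((rootCount (C (N : ℤ) - GG a h) p : ℝ) / p) -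
                2 * (κ : ℝ) ^ 2 * ((p : ℝ) ^ 2)⁻¹) :=
              mul_le_mul_of_nonneg_right h5 (Real.exp_pos _).le
          _ ≤ _ := by
              rw [← Real.exp_add]
              apply Real.exp_le_exp.mpr
              linarith
  refine le_trans ?_ (prod_le_prod (fun p hp => ?_) hkey)
  · rw [prod_mul_distrib, prod_mul_distrib, ← Real.exp_sum, sum_sub_distrib, sum_neg_distrib,
      ← mul_sum]
    have hA : ∏ p ∈ Nat.primesBelow (2 * κ + 1), (1 : ℝ) / p ≤
        ∏ p ∈ Nat.primesBelow r, (if p ≤ 2 * κ then (1 : ℝ) / p else 1) := by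
      rw [← prod_filter]
      have hsub : (Nat.primesBelow r).filter (· ≤ 2 * κ) ⊆ Nat.primesBelow (2 * κ + 1) := by
        intro p hp
        rw [mem_filter] at hp
        rw [Nat.mem_primesBelow]
        exact ⟨by omega, Nat.prime_of_mem_primesBelow hp.1⟩
      rw [← prod_sdiff hsub]
      have h1 : ∏ p ∈ Nat.primesBelow (2 * κ + 1) \ (Nat.primesBelow r).filter (· ≤ 2 * κ),
          (1 : ℝ) / p ≤ 1 := by
        refine prod_le_one (fun p _ => by positivity) fun p hp => ?_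
        have hp' := Nat.prime_of_mem_primesBelow (mem_sdiff.1 hp).1
        have : (1 : ℝ) ≤ p := by exact_mod_cast hp'.one_le
        rw [div_le_one (by linarith)]
        exact this
      have h2 : 0 ≤ ∏ p ∈ (Nat.primesBelow r).filter (· ≤ 2 * κ), (1 : ℝ) / p :=
        prod_nonneg fun p _ => by positivity
      calc _ ≤ 1 * ∏ p ∈ (Nat.primesBelow r).filter (· ≤ 2 * κ), (1 : ℝ) / p :=
            mul_le_mul_of_nonneg_right h1 h2
        _ = _ := one_mul _
    have hB : ∑ p ∈ Nat.primesBelow r,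
        (if 2 * κ < p ∧ ¬ p ∣ r then (rootCount (C (N : ℤ) - GG a h) p : ℝ) / p else 0) =
        ∑ p ∈ (prN r).filter (fun p => 2 * κ < p), (rootCount (C (N : ℤ) - GG a h) p : ℝ) / p := by
      rw [prN, filter_filter, ← sum_filter]
      refine sum_congr (filter_congr fun p _ => ?_) fun _ _ => rfl
      tauto
    have hC := sum_inv_sq_le_two (Nat.primesBelow r)
    have hVF : ∏ p ∈ Nat.primesBelow r, (1 - (rootCount (mixPoly F r p) p : ℝ) / p) = VF F r := rfl
    have hVF0 : 0 ≤ VF F r := prod_nonneg fun p hp =>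
      (hvle p (Nat.prime_of_mem_primesBelow hp)).1
    rw [hB, hVF]
    have hκ0 : 0 ≤ 2 * (κ : ℝ) ^ 2 := by positivity
    have hexp : Real.exp (-(4 * (κ : ℝ) ^ 2)) * Real.exp (-∑ p ∈ (prN r).filter (fun p => 2 * κ < p),
        (rootCount (C (N : ℤ) - GG a h) p : ℝ) / p) ≤
        Real.exp (-∑ p ∈ (prN r).filter (fun p => 2 * κ < p),
          (rootCount (C (N : ℤ) - GG a h) p : ℝ) / p -
          2 * (κ : ℝ) ^ 2 * ∑ p ∈ Nat.primesBelow r, ((p : ℝ) ^ 2)⁻¹) := by
      rw [← Real.exp_add]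
      apply Real.exp_le_exp.mpr
      have := mul_le_mul_of_nonneg_left hC hκ0
      linarith
    have hA0 : 0 ≤ ∏ p ∈ Nat.primesBelow (2 * κ + 1), (1 : ℝ) / p :=
      prod_nonneg fun p _ => by positivity
    calc (∏ p ∈ Nat.primesBelow (2 * κ + 1), (1 : ℝ) / p) * Real.exp (-(4 * (κ : ℝ) ^ 2)) * VF F r *
          Real.exp (-∑ p ∈ (prN r).filter (fun p => 2 * κ < p),
            (rootCount (C (N : ℤ) - GG a h) p : ℝ) / p)
        = (∏ p ∈ Nat.primesBelow (2 * κ + 1), (1 : ℝ) / p) * VF F r *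
          (Real.exp (-(4 * (κ : ℝ) ^ 2)) *
          Real.exp (-∑ p ∈ (prN r).filter (fun p => 2 * κ < p),
            (rootCount (C (N : ℤ) - GG a h) p : ℝ) / p)) := by ring
      _ ≤ _ := by
          refine mul_le_mul (mul_le_mul_of_nonneg_right hA hVF0) hexp (by positivity) ?_
          exact mul_nonneg (hA0.trans hA) hVF0
  · refine mul_nonneg (mul_nonneg ?_ (hvle p (Nat.prime_of_mem_primesBelow hp)).1)
      (Real.exp_pos _).le
    split_ifs <;> positivity

theorem AVR_count {A B m v : ℕ} (hm : 0 < m) (hAB : A ≤ B) :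
    ((B : ℝ) - A) / m - 1 ≤ (((Ioc A B).filter (fun N => N ≡ v [MOD m])).card : ℝ) ∧
      (((Ioc A B).filter (fun N => N ≡ v [MOD m])).card : ℝ) ≤ ((B : ℝ) - A) / m + 1 := by
  have h := Nat.Ioc_filter_modEq_card A B hm v
  have hm' : (0 : ℚ) < m := by exact_mod_cast hm
  have hAB' : (A : ℚ) ≤ B := by exact_mod_cast hAB
  have hq : ((((Ioc A B).filter (fun N => N ≡ v [MOD m])).card : ℤ) : ℚ) =
      ((max (⌊((B : ℚ) - v) / m⌋ - ⌊((A : ℚ) - v) / m⌋) 0 : ℤ) : ℚ) := by
    rw [h]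
  rw [Int.cast_natCast, Int.cast_max, Int.cast_sub, Int.cast_zero] at hq
  have h1 := Int.floor_le (((B : ℚ) - v) / m)
  have h2 := Int.lt_floor_add_one (((B : ℚ) - v) / m)
  have h3 := Int.floor_le (((A : ℚ) - v) / m)
  have h4 := Int.lt_floor_add_one (((A : ℚ) - v) / m)
  have h5 : ((B : ℚ) - v) / m - ((A : ℚ) - v) / m = ((B : ℚ) - A) / m := by
    rw [← sub_div]
    congr 1
    ring
  have h6 : 0 ≤ ((B : ℚ) - A) / m := div_nonneg (by linarith) hm'.le
  have hlow : ((B : ℚ) - A) / m - 1 ≤ (((Ioc A B).filter (fun N => N ≡ v [MOD m])).card : ℚ) := by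
    rw [hq]
    refine le_trans ?_ (le_max_left _ _)
    linarith
  have hup : (((Ioc A B).filter (fun N => N ≡ v [MOD m])).card : ℚ) ≤ ((B : ℚ) - A) / m + 1 := by
    rw [hq]
    apply max_le
    · linarith
    · linarith
  constructor
  · have hl := (Rat.cast_le (K := ℝ)).mpr hlow
    push_cast at hl
    exact hl
  · have hl := (Rat.cast_le (K := ℝ)).mpr hup
    push_cast at hl
    exact hl

theorem AVR_half (T : ℕ) : ((T : ℝ) / 2) ≤ (T : ℝ) - ((T / 2 : ℕ) : ℝ) := by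
  have h : (((T / 2 : ℕ) : ℝ)) ≤ (T : ℝ) / 2 := by
    have := @Nat.cast_div_le ℝ _ _ _ T 2
    simpa using this
  linarith

/-- `∑_{N ∈ NN} ρ_N(p) = ∑_{n < p} #{N ∈ NN : N ≡ a n^h mod p} ≤ p ((T - T/2)/(p q) + 1)` for `p ∤ q`
(one class modulo `p q`), and `#NN ≥ (T - T/2)/q - 1`, so it is `≤ #NN + 1 + p`. -/
theorem rho_avg {a h q b T p : ℕ} (hp : p.Prime) (hpq : ¬ p ∣ q) (hq : 1 ≤ q) :
    ∑ N ∈ NN T q b, (rootCount (C (N : ℤ) - GG a h) p : ℝ) ≤ (NN T q b).card + 1 + p := by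
  have hp0 : (0 : ℝ) < p := by exact_mod_cast hp.pos
  have hq0 : (0 : ℝ) < q := by exact_mod_cast hq
  have hcop : Nat.Coprime p q := (Nat.Prime.coprime_iff_not_dvd hp).mpr hpq
  have hT : T / 2 ≤ T := Nat.div_le_self _ _
  have h1 : ∀ N : ℕ, (rootCount (C (N : ℤ) - GG a h) p : ℝ) =
      ∑ n ∈ range p, if (p : ℤ) ∣ (N : ℤ) - a * (n : ℤ) ^ h then (1 : ℝ) else 0 := by
    intro N
    unfold rootCount
    rw [card_filter]
    push_cast
    apply sum_congr rfl
    intro n _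
    rw [eval_sub, eval_C, eval_GG]
  simp_rw [h1]
  rw [sum_comm]
  have h2 : ∀ n ∈ range p, ∑ N ∈ NN T q b,
      (if (p : ℤ) ∣ (N : ℤ) - a * (n : ℤ) ^ h then (1 : ℝ) else 0) ≤
        ((T : ℝ) - ((T / 2 : ℕ) : ℝ)) / ((p * q : ℕ) : ℝ) + 1 := by
    intro n _
    rw [← sum_filter, sum_const, nsmul_eq_mul, mul_one]
    set v : ℕ := (Nat.chineseRemainder hcop (a * n ^ h) b : ℕ) with hv
    have hv1 : v ≡ a * n ^ h [MOD p] := (Nat.chineseRemainder hcop (a * n ^ h) b).2.1
    have hv2 : v ≡ b [MOD q] := (Nat.chineseRemainder hcop (a * n ^ h) b).2.2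
    refine le_trans ?_ (AVR_count (A := T / 2) (B := T) (m := p * q) (v := v)
      (Nat.mul_pos hp.pos hq) hT).2
    have h3 : ((NN T q b).filter (fun N : ℕ => (p : ℤ) ∣ (N : ℤ) - a * (n : ℤ) ^ h)) ⊆
        (Ioc (T / 2) T).filter (fun N => N ≡ v [MOD p * q]) := by
      intro N hN
      rw [mem_filter] at hN
      unfold NN at hN
      rw [mem_filter] at hN
      rw [mem_filter]
      refine ⟨hN.1.1, ?_⟩
      rw [← Nat.modEq_and_modEq_iff_modEq_mul hcop]
      refine ⟨?_, hN.1.2.trans hv2.symm⟩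
      refine Nat.ModEq.trans ?_ hv1.symm
      have h4 : (a * n ^ h : ℕ) ≡ N [MOD p] := by
        rw [Nat.modEq_iff_dvd]
        push_cast
        exact hN.2
      exact h4.symm
    exact_mod_cast card_le_card h3
  refine (sum_le_sum h2).trans ?_
  rw [sum_const, card_range, nsmul_eq_mul]
  have h5 : (p : ℝ) * (((T : ℝ) - ((T / 2 : ℕ) : ℝ)) / ((p * q : ℕ) : ℝ) + 1) =
      ((T : ℝ) - ((T / 2 : ℕ) : ℝ)) / q + p := by
    push_cast
    field_simp
  rw [h5]
  have h6 := (AVR_count (A := T / 2) (B := T) (m := q) (v := b) hq hT).1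
  have h7 : ((NN T q b).card : ℝ) =
      (((Ioc (T / 2) T).filter (fun N => N ≡ b [MOD q])).card : ℝ) := rfl
  rw [h7]
  linarith

theorem card_NN_ge {T q b : ℕ} (hq : 1 ≤ q) (hT : 4 * q ≤ T) :
    (T : ℝ) / (4 * q) ≤ (NN T q b).card := by
  have hT2 : T / 2 ≤ T := Nat.div_le_self _ _
  have hq0 : (0 : ℝ) < q := by exact_mod_cast hq
  have hTR : (4 : ℝ) * q ≤ T := by exact_mod_cast hT
  have h6 := (AVR_count (A := T / 2) (B := T) (m := q) (v := b) hq hT2).1
  have h7 : ((NN T q b).card : ℝ) =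
      (((Ioc (T / 2) T).filter (fun N => N ≡ b [MOD q])).card : ℝ) := rfl
  rw [h7]
  refine le_trans ?_ h6
  have h8 : (T : ℝ) / 2 / q ≤ ((T : ℝ) - ((T / 2 : ℕ) : ℝ)) / q :=
    div_le_div_of_nonneg_right (AVR_half T) hq0.le
  have h9 : (1 : ℝ) ≤ T / (4 * q) := by
    rw [le_div_iff₀ (by positivity)]
    linarith
  have h10 : (T : ℝ) / 2 / q = 2 * (T / (4 * q)) := by
    field_simp
    ring
  linarith

theorem AVA_rootCount_le (f : ℤ[X]) (p : ℕ) : rootCount f p ≤ p := by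
  unfold rootCount
  refine (card_filter_le _ _).trans ?_
  rw [card_range]

theorem AVA_VF_nonneg {g : ℕ} (F : Fin g → ℤ[X]) (r : ℕ) : 0 ≤ VF F r := by
  unfold VF
  apply prod_nonneg
  intro p hp
  have hpp := (Nat.mem_primesBelow.mp hp).2
  have hp0 : (0 : ℝ) < p := by exact_mod_cast hpp.pos
  have h1 : (rootCount (mixPoly F r p) p : ℝ) ≤ p := by exact_mod_cast AVA_rootCount_le _ p
  have h2 : (rootCount (mixPoly F r p) p : ℝ) / p ≤ 1 := by
    rw [div_le_one hp0]
    exact h1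
  linarith

theorem AVA_card_prN (r : ℕ) : (prN r).card ≤ r := by
  have h1 : prN r ⊆ range r := by
    intro p hp
    rw [mem_range]
    exact (mem_prN.mp hp).2.1
  have h2 := card_le_card h1
  rwa [card_range] at h2

/-- the average of the exponents -/
theorem AVA_sum {a h M κ : ℕ} (hM : 1 ≤ M) {r q b T : ℕ} (hr : 1 ≤ r) (hrM : 8 * M ≤ r)
    (hqM : q ∣ r * M) (hT : r ^ 5 ≤ T) :
    ∑ N ∈ NN T q b, ∑ p ∈ (prN r).filter (fun p => κ < p),
        (rootCount (C (N : ℤ) - GG a h) p : ℝ) / p ≤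
      (NN T q b).card * (∑ p ∈ prN r, 1 / (p : ℝ) + 1 + M) ∧
      (T : ℝ) / (4 * (r * M)) ≤ (NN T q b).card := by
  have hq1 : 1 ≤ q := by
    rcases Nat.eq_zero_or_pos q with h0 | h0
    · rw [h0] at hqM
      have := Nat.eq_zero_of_zero_dvd hqM
      have h2 : 0 < r * M := Nat.mul_pos hr hM
      omega
    · exact h0
  have hqle : q ≤ r * M := Nat.le_of_dvd (Nat.mul_pos hr hM) hqM
  have hr1 : 1 ≤ r ^ 3 := Nat.one_le_pow _ _ hr
  have hT4 : 4 * q ≤ T := by
    calc 4 * q ≤ 4 * (r * M) := Nat.mul_le_mul_left _ hqle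
      _ ≤ r * (8 * M) := by nlinarith
      _ ≤ r * r := Nat.mul_le_mul_left _ hrM
      _ ≤ r * r * r ^ 3 := Nat.le_mul_of_pos_right _ hr1
      _ = r ^ 5 := by ring
      _ ≤ T := hT
  have hq0 : (0 : ℝ) < q := by exact_mod_cast hq1
  have hrM0 : (0 : ℝ) < r * M := by
    have h1 : 0 < r * M := Nat.mul_pos hr hM
    exact_mod_cast h1
  have hn := card_NN_ge (b := b) hq1 hT4
  have hn2 : (T : ℝ) / (4 * (r * M)) ≤ (NN T q b).card := by
    refine le_trans ?_ hn
    have h3 : (4 : ℝ) * q ≤ 4 * (r * M) := by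
      have : (q : ℝ) ≤ r * M := by exact_mod_cast hqle
      linarith
    exact div_le_div_of_nonneg_left (Nat.cast_nonneg _) (by positivity) h3
  refine ⟨?_, hn2⟩
  set n : ℝ := ((NN T q b).card : ℝ) with hndef
  have hn0 : 0 ≤ n := Nat.cast_nonneg _
  have h2r : 2 * (r : ℝ) ≤ n := by
    refine le_trans ?_ hn2
    rw [le_div_iff₀ (by positivity)]
    have h4 : 2 * r * (4 * (r * M)) ≤ T := by
      calc 2 * r * (4 * (r * M)) = r * r * (8 * M) := by ring
        _ ≤ r * r * r := Nat.mul_le_mul_left _ hrM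
        _ ≤ r * r * r * (r * r) := Nat.le_mul_of_pos_right _ (Nat.mul_pos hr hr)
        _ = r ^ 5 := by ring
        _ ≤ T := hT
    exact_mod_cast h4
  rw [sum_comm]
  have hterm : ∀ p ∈ (prN r).filter (fun p => κ < p),
      ∑ N ∈ NN T q b, (rootCount (C (N : ℤ) - GG a h) p : ℝ) / p ≤
        n * (1 / (p : ℝ)) + 2 + (if p ∣ M then n else 0) := by
    intro p hp
    have hp' := mem_prN.mp (mem_filter.mp hp).1
    have hpp := hp'.1
    have hp0 : (0 : ℝ) < p := by exact_mod_cast hpp.pos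
    rw [← sum_div]
    by_cases hpq : p ∣ q
    · have hpM : p ∣ M := by
        have h5 : p ∣ r * M := hpq.trans hqM
        rcases (Nat.Prime.dvd_mul hpp).mp h5 with h6 | h6
        · exact absurd h6 hp'.2.2
        · exact h6
      rw [if_pos hpM, div_le_iff₀ hp0]
      have h7 : ∑ N ∈ NN T q b, (rootCount (C (N : ℤ) - GG a h) p : ℝ) ≤
          ∑ _N ∈ NN T q b, (p : ℝ) := by
        apply sum_le_sum
        intro N _
        exact_mod_cast AVA_rootCount_le _ p
      rw [sum_const, nsmul_eq_mul, ← hndef] at h7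
      have h8 : (n * (1 / (p : ℝ)) + 2 + n) * p = n + 2 * p + n * p := by
        field_simp
      rw [h8]
      linarith
    · have h9 := rho_avg (a := a) (h := h) (q := q) (b := b) (T := T) hpp hpq hq1
      rw [← hndef] at h9
      have h10 : (0 : ℝ) ≤ if p ∣ M then n else 0 := by
        split_ifs
        · exact hn0
        · exact le_refl _
      have h11 : (∑ N ∈ NN T q b, (rootCount (C (N : ℤ) - GG a h) p : ℝ)) / p ≤
          n * (1 / (p : ℝ)) + 2 := by
        rw [div_le_iff₀ hp0]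
        have h12 : (n * (1 / (p : ℝ)) + 2) * p = n + 2 * p := by
          field_simp
        rw [h12]
        have h13 : (1 : ℝ) ≤ p := by exact_mod_cast hpp.one_le
        linarith
      linarith
  refine (sum_le_sum hterm).trans ?_
  have hsub : ∑ p ∈ (prN r).filter (fun p => κ < p),
      (n * (1 / (p : ℝ)) + 2 + (if p ∣ M then n else 0)) ≤
      ∑ p ∈ prN r, (n * (1 / (p : ℝ)) + 2 + (if p ∣ M then n else 0)) := by
    apply sum_le_sum_of_subset_of_nonneg (filter_subset _ _)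
    intro p _ _
    have h10 : (0 : ℝ) ≤ if p ∣ M then n else 0 := by
      split_ifs
      · exact hn0
      · exact le_refl _
    positivity
  refine hsub.trans ?_
  rw [sum_add_distrib, sum_add_distrib, ← mul_sum, sum_const, nsmul_eq_mul, ← sum_filter,
    sum_const, nsmul_eq_mul]
  have h14 : ((prN r).card : ℝ) ≤ r := by exact_mod_cast AVA_card_prN r
  have h15 : (((prN r).filter (fun p => p ∣ M)).card : ℝ) ≤ M := by
    have h16 : (prN r).filter (fun p => p ∣ M) ⊆ Icc 1 M := by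
      intro p hp
      rw [mem_filter] at hp
      rw [mem_Icc]
      exact ⟨(mem_prN.mp hp.1).1.one_le, Nat.le_of_dvd hM hp.2⟩
    have h17 := card_le_card h16
    rw [Nat.card_Icc] at h17
    have h18 : ((prN r).filter (fun p => p ∣ M)).card ≤ M := by omega
    exact_mod_cast h18
  have h19 := mul_le_mul_of_nonneg_right h15 hn0
  linarith

/-- Jensen for `exp` (convexity): the average over `N ∈ NN` of `exp (-x_N)` is at least
`exp (-(average of x_N))`, `x_N = ∑_{p ∈ prN r, p > 2κ} ρ_N(p)/p`. By `rho_avg` the average of `x_N` is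
`≤ ∑_{p ∈ prN r} (1/p) (1 + (1 + p)/#NN) + ∑_{p ∣ M} 1 ≤ ∑_{p ∈ prN r} 1/p + 2 r/#NN + M` (the primes
`p ∣ q`, `p ∤ r` divide `M`, and `ρ_N(p) ≤ p`), `#NN ≥ T/(4 r M) ≥ 2 r`, and
`exp (-∑ 1/p) ≥ ∏ (1 - 1/p) = W`. -/
theorem avg {g : ℕ} (F : Fin g → ℤ[X]) (hF : Sys F) (a h M : ℕ) (ha : 1 ≤ a) (hh : 1 ≤ h)
    (hM : 1 ≤ M) : ∃ c : ℝ, 0 < c ∧ ∃ r₀ : ℕ, ∀ r : ℕ, r₀ ≤ r → Nat.Coprime a r →
      ∀ q b : ℕ, r ∣ q → q ∣ r * M → ∀ T : ℕ, r ^ 5 ≤ T →
      (∀ N ∈ NN T q b, r ∣ N ∧ Admissible F (GG a h) N) →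
      c * (T / r) * VF F r * WW r ≤
        ∑ N ∈ NN T q b, ∏ p ∈ Nat.primesBelow r, (1 - (omegaN F (GG a h) N p : ℝ) / p) := by
  obtain ⟨c, hc, hpt⟩ := pointwise F hF a h ha hh
  have hM0 : (0 : ℝ) < M := by exact_mod_cast hM
  refine ⟨c * Real.exp (-(1 + M)) / (4 * M), by positivity, 8 * M, ?_⟩
  intro r hr hcop q b hrq hqM T hT hN
  have hr1 : 1 ≤ r := by omega
  have hr0 : (0 : ℝ) < r := by exact_mod_cast hr1
  obtain ⟨hsum, hcard⟩ := AVA_sum (a := a) (h := h) (κ := 2 * kap F h) (b := b) hM hr1 hr hqM hT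
  set S := NN T q b with hS
  set x : ℕ → ℝ := fun N => ∑ p ∈ (prN r).filter (fun p => 2 * kap F h < p),
    (rootCount (C (N : ℤ) - GG a h) p : ℝ) / p with hx
  set m : ℝ := ∑ p ∈ prN r, 1 / (p : ℝ) + 1 + M with hm
  have hVF := AVA_VF_nonneg F r
  have h1 : ∀ N ∈ S, c * VF F r * (Real.exp (-m) * (1 + m - x N)) ≤
      ∏ p ∈ Nat.primesBelow r, (1 - (omegaN F (GG a h) N p : ℝ) / p) := by
    intro N hNS
    refine le_trans ?_ (hpt r hcop N (hN N hNS).1 (hN N hNS).2)
    apply mul_le_mul_of_nonneg_left _ (by positivity)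
    have h2 := Real.add_one_le_exp (m - x N)
    have h3 : Real.exp (-x N) = Real.exp (-m) * Real.exp (m - x N) := by
      rw [← Real.exp_add]
      congr 1
      ring
    have h4 : Real.exp (-m) * (1 + m - x N) ≤ Real.exp (-m) * Real.exp (m - x N) :=
      mul_le_mul_of_nonneg_left (by linarith) (Real.exp_pos _).le
    rw [← h3] at h4
    exact h4
  refine le_trans ?_ (sum_le_sum h1)
  rw [← mul_sum, ← mul_sum]
  have h5 : (S.card : ℝ) ≤ ∑ N ∈ S, (1 + m - x N) := by
    rw [sum_sub_distrib, sum_const, nsmul_eq_mul]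
    have h6 : ∑ N ∈ S, x N ≤ S.card * m := hsum
    linarith
  have h7 : WW r ≤ Real.exp (-∑ p ∈ prN r, 1 / (p : ℝ)) := by
    unfold WW
    rw [← sum_neg_distrib, Real.exp_sum]
    apply prod_le_prod
    · intro p hp
      exact (factor_pos (mem_prN.mp hp).1).le
    · intro p _
      have := Real.add_one_le_exp (-(1 / (p : ℝ)))
      linarith
  have h8 : Real.exp (-m) = Real.exp (-∑ p ∈ prN r, 1 / (p : ℝ)) * Real.exp (-(1 + M)) := by
    rw [← Real.exp_add]
    congr 1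
    rw [hm]
    ring
  have hWW := (WW_pos r).le
  calc c * Real.exp (-(1 + M)) / (4 * M) * (T / r) * VF F r * WW r
      = c * VF F r * (WW r * Real.exp (-(1 + M)) * ((T : ℝ) / (4 * (r * M)))) := by
        field_simp
    _ ≤ c * VF F r * (Real.exp (-m) * ∑ N ∈ S, (1 + m - x N)) := by
        apply mul_le_mul_of_nonneg_left _ (by positivity)
        rw [h8]
        apply mul_le_mul _ (hcard.trans h5) (by positivity) (by positivity)
        exact mul_le_mul_of_nonneg_right h7 (Real.exp_pos _).le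

end Pool.Agent.Lib.H68G
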