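import Pool.Agent.Lib.H68G.Defs

/-!
# Chunk CH (S): the conductor of a real primitive character is squarefree away from `2`
-/

namespace Pool.Agent.Lib.H68G

theorem CH_pow {d p : ℕ} (hpd : p ∣ d) {x : ℤ} (hx : (d : ℤ) ∣ x - 1) :
    ((p * d : ℕ) : ℤ) ∣ x ^ p - 1 := by
  have h1 : x ^ p - 1 = (∑ i ∈ Finset.range p, x ^ i) * (x - 1) := (geom_sum_mul x p).symm
  have hpx : (p : ℤ) ∣ x - 1 := (Int.natCast_dvd_natCast.2 hpd).trans hx
  have h2 : (p : ℤ) ∣ ∑ i ∈ Finset.range p, x ^ i := by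
    have h3 : ∑ i ∈ Finset.range p, x ^ i = ∑ i ∈ Finset.range p, (x ^ i - 1) + p := by
      rw [Finset.sum_sub_distrib]
      simp
    rw [h3]
    apply dvd_add _ (dvd_refl _)
    apply Finset.dvd_sum
    intro i _
    exact hpx.trans (sub_one_dvd_pow_sub_one x i)
  rw [h1, Nat.cast_mul]
  exact mul_dvd_mul h2 hx

/-- If `p² ∣ r`, `p` odd: `χ` is trivial on the units `u ≡ 1` mod `r/p`, since `u^p = 1` in `ZMod r`
(`(1 + (r/p) t)^p ≡ 1` mod `r`, because `p ∣ r/p`) and `χ² = 1`, so `χ(u) = χ(u)^p = 1`. Then `χ`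
factors through `r/p` (`DirichletCharacter.factorsThrough_iff_ker_unitsMap`) and its conductor is at
most `r/p < r`. -/
theorem not_sq_dvd {r : ℕ} [NeZero r] {χ : DirichletCharacter ℂ r} (h : RP χ) {p : ℕ}
    (hp : p.Prime) (hp2 : p ≠ 2) : ¬ p ^ 2 ∣ r := by
  rintro ⟨k, hk⟩
  obtain ⟨hprim, hne, hsq⟩ := h
  have hr0 : r ≠ 0 := NeZero.ne r
  have hk0 : k ≠ 0 := by
    rintro rfl
    exact hr0 (by rw [hk, mul_zero])
  set d := p * k with hd
  have hrd : r = p * d := by
    rw [hk, hd, pow_two, mul_assoc]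
  have hdr : d ∣ r := ⟨p, by rw [hrd, mul_comm]⟩
  have hd0 : 0 < d := Nat.mul_pos hp.pos (Nat.pos_of_ne_zero hk0)
  have hfac : χ.FactorsThrough d := by
    rw [DirichletCharacter.factorsThrough_iff_ker_unitsMap hdr]
    intro u hu
    rw [MonoidHom.mem_ker] at hu ⊢
    have hu1 : (((u : (ZMod r)ˣ) : ZMod r).val : ZMod d) = 1 := by
      have := congrArg (fun z : (ZMod d)ˣ => (z : ZMod d)) hu
      rw [ZMod.unitsMap_val] at this
      rw [ZMod.natCast_val]
      exact this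
    have hx : (d : ℤ) ∣ (((u : (ZMod r)ˣ) : ZMod r).val : ℤ) - 1 := by
      rw [← ZMod.intCast_zmod_eq_zero_iff_dvd]
      push_cast
      rw [hu1, sub_self]
    have hxp := CH_pow (p := p) (Dvd.intro k rfl) hx
    rw [← hrd, ← ZMod.intCast_zmod_eq_zero_iff_dvd] at hxp
    push_cast at hxp
    rw [ZMod.natCast_zmod_val, sub_eq_zero] at hxp
    have hup : u ^ p = 1 := by
      apply Units.ext
      rw [Units.val_pow_eq_pow_val, hxp, Units.val_one]
    have h1 : (χ.toUnitHom u) ^ p = 1 := by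
      rw [← map_pow, hup, map_one]
    have h2 : (χ.toUnitHom u) ^ 2 = 1 := by
      apply Units.ext
      rw [Units.val_pow_eq_pow_val, Units.val_one, MulChar.coe_toUnitHom, ← MulChar.pow_apply' χ (two_ne_zero), hsq, MulChar.one_apply_coe]
    have hcop : Nat.Coprime p 2 := by
      rw [Nat.coprime_primes hp Nat.prime_two]
      exact hp2
    have := orderOf_dvd_of_pow_eq_one h1
    have h3 := orderOf_dvd_of_pow_eq_one h2
    have h4 := Nat.dvd_gcd this h3
    rw [hcop, Nat.dvd_one, orderOf_eq_one_iff] at h4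
    exact h4
  have hle : χ.conductor ≤ d := Nat.sInf_le hfac
  rw [hprim] at hle
  have h2p := hp.two_le
  rw [hrd] at hle
  nlinarith

end Pool.Agent.Lib.H68G
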