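import Pool.Agent.Lib.H68G.Defs

/-!
# Chunk CL (M): a residue class of admissible `N ≡ 0` mod `r`
-/

open Finset Polynomial

namespace Pool.Agent.Lib.H68G

open Pool.Agent.Lib.H59

theorem CL_coeff (a h N n : ℕ) : (C (N : ℤ) - GG a h).coeff n =
    (if n = 0 then (N : ℤ) else 0) - (if n = h then (a : ℤ) else 0) := by
  rw [GG, coeff_sub, coeff_C, coeff_C_mul, coeff_X_pow]
  split_ifs <;> simp

/-- Eisenstein at `ℓ` (Mathlib `Polynomial.irreducible_of_eisenstein_criterion`); primitive because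
`N` and `a` are coprime. -/
theorem irreducible_sub {a h N ℓ : ℕ} (ha : 1 ≤ a) (hh : 1 ≤ h) (hℓ : ℓ.Prime) (hℓa : ¬ ℓ ∣ a)
    (hN : ℓ ∣ N) (hN2 : ¬ ℓ ^ 2 ∣ N) (hco : Nat.Coprime N a) :
    Irreducible (C (N : ℤ) - GG a h) := by
  have hnd : (C (N : ℤ) - GG a h).natDegree = h := by rw [natDegree_C_sub', natDegree_GG ha]
  have hP : (Ideal.span {(ℓ : ℤ)}).IsPrime :=
    (Ideal.span_singleton_prime (by exact_mod_cast hℓ.ne_zero)).2 (Nat.prime_iff_prime_int.1 hℓ)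
  have h00 : (C (N : ℤ) - GG a h).coeff 0 = N := by
    rw [CL_coeff, if_pos rfl, if_neg (by omega), sub_zero]
  have h0h : (C (N : ℤ) - GG a h).coeff h = -a := by
    rw [CL_coeff, if_neg (by omega), if_pos rfl, zero_sub]
  have hdeg : (C (N : ℤ) - GG a h).degree = (h : ℕ) := by
    rw [degree_eq_natDegree (by
      intro h1
      rw [h1, natDegree_zero] at hnd
      omega), hnd]
  apply irreducible_of_eisenstein_criterion hP
  · rw [leadingCoeff, hnd, h0h, neg_mem_iff, Ideal.mem_span_singleton]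
    exact_mod_cast hℓa
  · intro n hn
    rw [hdeg] at hn
    have hn' : n < h := by exact_mod_cast hn
    rw [CL_coeff, if_neg (by omega : n ≠ h), sub_zero]
    split_ifs
    · rw [Ideal.mem_span_singleton]
      exact_mod_cast hN
    · exact zero_mem _
  · rw [hdeg]
    exact_mod_cast (by omega : 0 < h)
  · rw [h00, Ideal.span_singleton_pow, Ideal.mem_span_singleton]
    exact_mod_cast hN2
  · intro r hr
    rw [C_dvd_iff_dvd_coeff] at hr
    have h1 := hr 0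
    have h2 := hr h
    rw [h00] at h1
    rw [h0h, dvd_neg] at h2
    have h3 : IsCoprime (N : ℤ) (a : ℤ) := Nat.isCoprime_iff_coprime.2 hco
    exact h3.isUnit_of_dvd' h1 h2

/-- no fixed prime divisor for large primes -/
theorem CL_large {g : ℕ} (F : Fin g → ℤ[X]) (hF : Sys F) {a h N : ℕ} (ha : 1 ≤ a)
    (hh : 1 ≤ h) (hirr : Irreducible (C (N : ℤ) - GG a h)) {p : ℕ} (hp : p.Prime)
    (hκ : kap F h < p) :
    ¬ ∀ n : ℤ, (p : ℤ) ∣ ((∏ i, F i) * (C (N : ℤ) - GG a h)).eval n := by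
  intro hall
  have h1 : omegaN F (GG a h) N p = p := by
    rw [omegaN, filter_true_of_mem, card_range]
    intro n _
    exact hall n
  have h2 := omegaN_le_sum F (GG a h) N hp
  have h3 : ∑ i, rootCount (F i) p ≤ ∑ i, (F i).natDegree := sum_le_sum fun i _ =>
    rootCount_le_natDegree ((hF.irr i).isPrimitive (by have := hF.deg i; omega)) hp
  have hnd : (C (N : ℤ) - GG a h).natDegree = h := by rw [natDegree_C_sub', natDegree_GG ha]
  have h4 : rootCount (C (N : ℤ) - GG a h) p ≤ h := by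
    have := rootCount_le_natDegree (hirr.isPrimitive (by omega)) hp
    rwa [hnd] at this
  unfold kap at hκ
  omega

/-- the simultaneous congruences -/
theorem CL_crt (K r ℓ : ℕ) (hr : 1 ≤ r) (hℓ : ℓ.Prime) (hℓK : K < ℓ) (hr2 : ¬ ℓ ^ 2 ∣ r)
    (c : ℕ → ℕ) : ∃ N : ℕ, r ∣ N ∧ N ≡ ℓ [MOD ℓ ^ 2] ∧
      ∀ p : ℕ, p.Prime → p ≤ K → ¬ p ∣ r → N ≡ c p [MOD p] := by
  classical
  obtain ⟨r', hr'r, hr'ℓ, hrr'⟩ : ∃ r' : ℕ, r' ∣ r ∧ r'.Coprime ℓ ∧ ∀ N, r' ∣ N → ℓ ∣ N → r ∣ N := by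
    by_cases hd : ℓ ∣ r
    · obtain ⟨r', rfl⟩ := hd
      have hco : r'.Coprime ℓ := by
        rw [Nat.coprime_comm, Nat.Prime.coprime_iff_not_dvd hℓ]
        rintro ⟨t, rfl⟩
        exact hr2 ⟨t, by ring⟩
      refine ⟨r', Dvd.intro_left _ rfl, hco, fun N h1 h2 => ?_⟩
      exact hco.symm.mul_dvd_of_dvd_of_dvd h2 h1
    · refine ⟨r, dvd_rfl, ?_, fun N h1 _ => h1⟩
      rw [Nat.coprime_comm, Nat.Prime.coprime_iff_not_dvd hℓ]
      exact hd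
  have hr'0 : r' ≠ 0 := by
    rintro rfl
    have := Nat.eq_zero_of_zero_dvd hr'r
    omega
  obtain ⟨P, hP⟩ : ∃ P : Finset ℕ, P = (range (K + 1)).filter (fun p => p.Prime ∧ ¬ p ∣ r) :=
    ⟨_, rfl⟩
  have hPm : ∀ p, p ∈ P ↔ p ≤ K ∧ p.Prime ∧ ¬ p ∣ r := by
    intro p
    rw [hP, mem_filter, mem_range, Nat.lt_succ_iff]
  obtain ⟨s, hs⟩ : ∃ s : ℕ → ℕ, ∀ i, s i = if i = 0 then r' else if i = 1 then ℓ ^ 2 else i :=
    ⟨_, fun _ => rfl⟩
  obtain ⟨b, hb⟩ : ∃ b : ℕ → ℕ, ∀ i, b i = if i = 0 then 0 else if i = 1 then ℓ else c i :=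
    ⟨_, fun _ => rfl⟩
  have hs0 : s 0 = r' := by rw [hs, if_pos rfl]
  have hs1 : s 1 = ℓ ^ 2 := by rw [hs, if_neg (by norm_num), if_pos rfl]
  have hsp : ∀ p ∈ P, s p = p := by
    intro p hp
    have h2 := ((hPm p).1 hp).2.1.two_le
    rw [hs, if_neg (by omega), if_neg (by omega)]
  have hb0 : b 0 = 0 := by rw [hb, if_pos rfl]
  have hb1 : b 1 = ℓ := by rw [hb, if_neg (by norm_num), if_pos rfl]
  have hbp : ∀ p ∈ P, b p = c p := by
    intro p hp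
    have h2 := ((hPm p).1 hp).2.1.two_le
    rw [hb, if_neg (by omega), if_neg (by omega)]
  have e01 : Nat.Coprime (s 0) (s 1) := by
    rw [hs0, hs1]
    exact Nat.Coprime.pow_right 2 hr'ℓ
  have e0p : ∀ p ∈ P, Nat.Coprime (s 0) (s p) := by
    intro p hp
    rw [hs0, hsp p hp, Nat.coprime_comm, Nat.Prime.coprime_iff_not_dvd ((hPm p).1 hp).2.1]
    intro h
    exact ((hPm p).1 hp).2.2 (h.trans hr'r)
  have e1p : ∀ p ∈ P, Nat.Coprime (s 1) (s p) := by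
    intro p hp
    rw [hs1, hsp p hp]
    apply Nat.Coprime.pow_left
    rw [Nat.coprime_primes hℓ ((hPm p).1 hp).2.1]
    have := ((hPm p).1 hp).1
    omega
  have epp : ∀ p ∈ P, ∀ p' ∈ P, p ≠ p' → Nat.Coprime (s p) (s p') := by
    intro p hp p' hp' hne
    rw [hsp p hp, hsp p' hp', Nat.coprime_primes ((hPm p).1 hp).2.1 ((hPm p').1 hp').2.1]
    exact hne
  obtain ⟨N, hN⟩ := Nat.chineseRemainderOfFinset b s (insert 0 (insert 1 P)) (by
    intro i hi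
    rw [mem_insert, mem_insert] at hi
    rcases hi with rfl | rfl | hi
    · rw [hs0]; exact hr'0
    · rw [hs1]; exact pow_ne_zero 2 hℓ.ne_zero
    · rw [hsp i hi]; exact ((hPm i).1 hi).2.1.ne_zero) (by
    intro i hi j hj hij
    rw [mem_coe, mem_insert, mem_insert] at hi hj
    show Nat.Coprime (s i) (s j)
    rcases hi with rfl | rfl | hi <;> rcases hj with rfl | rfl | hj
    · exact absurd rfl hij
    · exact e01
    · exact e0p j hj
    · exact e01.symm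
    · exact absurd rfl hij
    · exact e1p j hj
    · exact (e0p i hi).symm
    · exact (e1p i hi).symm
    · exact epp i hi j hj hij)
  have h0 := hN 0 (mem_insert_self _ _)
  have h1 := hN 1 (mem_insert_of_mem (mem_insert_self _ _))
  rw [hs0, hb0] at h0
  rw [hs1, hb1] at h1
  have hℓN : ℓ ∣ N := by
    have h2 := h1.of_dvd (Dvd.intro_left ℓ (by ring) : ℓ ∣ ℓ ^ 2)
    have h3 : ℓ ≡ 0 [MOD ℓ] := by
      rw [Nat.modEq_zero_iff_dvd]
    exact (Nat.modEq_zero_iff_dvd).1 (h2.trans h3)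
  refine ⟨N, hrr' N ((Nat.modEq_zero_iff_dvd).1 h0) hℓN, h1, ?_⟩
  intro p hp hpK hpr
  have hpP : p ∈ P := (hPm p).2 ⟨hpK, hp, hpr⟩
  have h2 := hN p (mem_insert_of_mem (mem_insert_of_mem hpP))
  rwa [hsp p hpP, hbp p hpP] at h2

theorem CL_modEq_int {N c p : ℕ} (h : N ≡ c [MOD p]) : (p : ℤ) ∣ (N : ℤ) - c := by
  have := (Nat.modEq_iff_dvd).1 h.symm
  exact this

/-- Let `κ = kap F h`, `ℓ` an odd prime larger than `κ` and `a`, and
`M = ℓ² ∏_{p ≤ max κ a prime} p`, `q = lcm(r, M)` (so `q ∣ r M`).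
Class `b`: `0` modulo `r`; `≡ ℓ` mod `ℓ²` (compatible, as `ℓ² ∤ r`: use the moduli `r/ℓ`, `ℓ²` if
`ℓ ∣ r`, and `r`, `ℓ²` otherwise; `ℓ ≠ 2`); `≡ 1` mod `p` for the primes `p ∣ a` (they do not divide `r`);
`≡ a n_p^h + 1` mod `p` for the primes `p ≤ max κ a`, `p ∤ a r`, where `p ∤ ∏ F_i(n_p)`.
Then `N - a x^h` is irreducible by `irreducible_sub` (`N` is coprime to `a`; `ℓ ∣ N`, `ℓ² ∤ N`).
No fixed prime divisor `p`: for `p ∣ r` take `n` with `p ∤ n ∏ F_i(n)` (`hF.fix`), then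
`N - a n^h ≡ - a n^h`; for `p ∣ a`: `N - a n^h ≡ 1` and `n` with `p ∤ ∏ F_i(n)`; for the other
`p ≤ max κ a` take `n = n_p`: `N - a n^h ≡ 1`; for `p > κ` the polynomial has at most `κ < p` roots
(`omegaN_le_sum`, `rootCount_le_natDegree`). -/
theorem exists_class {g : ℕ} (F : Fin g → ℤ[X]) (hF : Sys F) (a h : ℕ) (ha : 1 ≤ a)
    (hh : 1 ≤ h) : ∃ M : ℕ, 1 ≤ M ∧ ∀ r : ℕ, 1 ≤ r → Nat.Coprime a r →
      (∀ p : ℕ, p.Prime → p ≠ 2 → ¬ p ^ 2 ∣ r) →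
      ∃ q b : ℕ, r ∣ q ∧ q ∣ r * M ∧ ∀ N : ℕ, N ≡ b [MOD q] → r ∣ N ∧
        Admissible F (GG a h) N := by
  classical
  obtain ⟨K, hK⟩ : ∃ K : ℕ, K = max 2 (max (kap F h) a) := ⟨_, rfl⟩
  have hK2 : 2 ≤ K := by rw [hK]; exact le_max_left _ _
  have hKκ : kap F h ≤ K := by rw [hK]; exact (le_max_left _ _).trans (le_max_right _ _)
  have hKa : a ≤ K := by rw [hK]; exact (le_max_right _ _).trans (le_max_right _ _)
  obtain ⟨ℓ, hℓK, hℓ⟩ := Nat.exists_infinite_primes (K + 1)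
  obtain ⟨P, hP⟩ : ∃ P : Finset ℕ, P = (range (K + 1)).filter Nat.Prime := ⟨_, rfl⟩
  have hPm : ∀ p, p ∈ P ↔ p ≤ K ∧ p.Prime := by
    intro p
    rw [hP, mem_filter, mem_range, Nat.lt_succ_iff]
  have hP1 : 1 ≤ ∏ p ∈ P, p := Finset.one_le_prod' fun p hp => ((hPm p).1 hp).2.one_le
  have hpP : ∀ p ∈ P, p ∣ ∏ p ∈ P, p := fun p hp => dvd_prod_of_mem _ hp
  choose! n hn using hF.fix
  refine ⟨ℓ ^ 2 * ∏ p ∈ P, p, Nat.mul_pos (pow_pos hℓ.pos 2) hP1, ?_⟩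
  intro r hr hco hsq
  obtain ⟨b, hbr, hbℓ, hbp⟩ := CL_crt K r ℓ hr hℓ hℓK (hsq ℓ hℓ (by omega))
    (fun p => (((a : ℤ) * n p ^ h + 1) % p).toNat)
  refine ⟨r.lcm (ℓ ^ 2 * ∏ p ∈ P, p), b, Nat.dvd_lcm_left _ _, Nat.lcm_dvd_mul _ _, ?_⟩
  intro N hN
  have hNr : r ∣ N := by
    have h1 := hN.of_dvd (Nat.dvd_lcm_left r (ℓ ^ 2 * ∏ p ∈ P, p))
    exact (Nat.modEq_zero_iff_dvd).1 (h1.trans ((Nat.modEq_zero_iff_dvd).2 hbr))
  have hNM := hN.of_dvd (Nat.dvd_lcm_right r (ℓ ^ 2 * ∏ p ∈ P, p))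
  have hNℓ : N ≡ ℓ [MOD ℓ ^ 2] := (hNM.of_dvd (Dvd.intro _ rfl)).trans hbℓ
  have hNp : ∀ p : ℕ, p.Prime → p ≤ K → ¬ p ∣ r →
      (p : ℤ) ∣ (N : ℤ) - ((a : ℤ) * n p ^ h + 1) := by
    intro p hp hpK hpr
    have h1 : N ≡ (((a : ℤ) * n p ^ h + 1) % p).toNat [MOD p] :=
      (hNM.of_dvd ((hpP p ((hPm p).2 ⟨hpK, hp⟩)).trans (Dvd.intro_left _ rfl))).trans
        (hbp p hp hpK hpr)
    have h2 := CL_modEq_int h1
    have hp0 : (p : ℤ) ≠ 0 := by exact_mod_cast hp.ne_zero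
    rw [Int.toNat_of_nonneg (Int.emod_nonneg _ hp0)] at h2
    have h3 : (p : ℤ) ∣ ((a : ℤ) * n p ^ h + 1) - ((a : ℤ) * n p ^ h + 1) % p :=
      Int.dvd_self_sub_emod
    have h4 := dvd_sub h2 h3
    have h5 : (N : ℤ) - ((a : ℤ) * n p ^ h + 1) = (N : ℤ) - ((a : ℤ) * n p ^ h + 1) % p -
      (((a : ℤ) * n p ^ h + 1) - ((a : ℤ) * n p ^ h + 1) % p) := by ring
    rw [h5]
    exact h4
  have hℓN : ℓ ∣ N := by
    have h2 := hNℓ.of_dvd (Dvd.intro_left ℓ (by ring) : ℓ ∣ ℓ ^ 2)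
    exact (Nat.modEq_zero_iff_dvd).1 (h2.trans ((Nat.modEq_zero_iff_dvd).2 dvd_rfl))
  have hℓN2 : ¬ ℓ ^ 2 ∣ N := by
    intro h1
    have h2 : ℓ ≡ 0 [MOD ℓ ^ 2] := hNℓ.symm.trans ((Nat.modEq_zero_iff_dvd).2 h1)
    have h3 := Nat.le_of_dvd hℓ.pos ((Nat.modEq_zero_iff_dvd).1 h2)
    have := hℓ.two_le
    nlinarith
  have hℓa : ¬ ℓ ∣ a := by
    intro h1
    have := Nat.le_of_dvd (by omega) h1
    omega
  have hcoN : Nat.Coprime N a := by
    rw [Nat.coprime_iff_gcd_eq_one]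
    by_contra hne
    obtain ⟨p, hp, hpd⟩ := Nat.exists_prime_and_dvd hne
    have hpN := hpd.trans (Nat.gcd_dvd_left _ _)
    have hpa := hpd.trans (Nat.gcd_dvd_right _ _)
    have hpr : ¬ p ∣ r := by
      intro hpr
      have := Nat.dvd_gcd hpa hpr
      rw [hco] at this
      exact hp.one_lt.ne' (Nat.dvd_one.1 this)
    have h1 := hNp p hp ((Nat.le_of_dvd (by omega) hpa).trans hKa) hpr
    have h2 : (p : ℤ) ∣ N := by exact_mod_cast hpN
    have h3 : (p : ℤ) ∣ (a : ℤ) * n p ^ h := Dvd.dvd.mul_right (by exact_mod_cast hpa) _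
    have h4 : (p : ℤ) ∣ 1 := by
      have h5 := dvd_sub (dvd_sub h2 h3) h1
      have h6 : (1 : ℤ) = (N : ℤ) - (a : ℤ) * n p ^ h - ((N : ℤ) - ((a : ℤ) * n p ^ h + 1)) := by
        ring
      rw [h6]
      exact h5
    exact (Nat.prime_iff_prime_int.1 hp).not_dvd_one h4
  have hirr := irreducible_sub (h := h) ha hh hℓ hℓa hℓN hℓN2 hcoN
  refine ⟨hNr, hirr, ?_⟩
  intro p hp
  by_cases hpK : K < p
  · exact CL_large F hF ha hh hirr hp (by omega)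
  push Not at hpK
  intro hall
  have hpi := Nat.prime_iff_prime_int.1 hp
  have h1 := hall (n p)
  have h2 := hn p hp
  rw [eval_mul, eval_X] at h2
  rw [eval_mul, eval_sub, eval_C, eval_GG] at h1
  rcases hpi.dvd_or_dvd h1 with h3 | h3
  · exact h2 (Dvd.dvd.mul_left h3 _)
  · by_cases hpr : p ∣ r
    · have h4 : (p : ℤ) ∣ N := by exact_mod_cast hpr.trans hNr
      have h5 : (p : ℤ) ∣ (a : ℤ) * n p ^ h := by
        have := dvd_sub h4 h3
        rwa [sub_sub_cancel] at this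
      rcases hpi.dvd_or_dvd h5 with h6 | h6
      · have h7 : p ∣ a := by exact_mod_cast h6
        have := Nat.dvd_gcd h7 hpr
        rw [hco] at this
        exact hp.one_lt.ne' (Nat.dvd_one.1 this)
      · exact h2 (Dvd.dvd.mul_right (hpi.dvd_of_dvd_pow h6) _)
    · have h4 := hNp p hp hpK hpr
      have h5 := dvd_sub h3 h4
      have h6 : (N : ℤ) - (a : ℤ) * n p ^ h - ((N : ℤ) - ((a : ℤ) * n p ^ h + 1)) = 1 := by ring
      rw [h6] at h5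
      exact hpi.not_dvd_one h5

end Pool.Agent.Lib.H68G
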