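import Pool.Agent.Lib.H68G.RV
import Pool.Agent.Lib.Helper57.Mertens
import Pool.Agent.Lib.H59.MertensLower

/-!
# Chunk EU2 (M): the Euler product
-/

open Finset

namespace Pool.Agent.Lib.H68G

theorem EU2_rv_pow {r : ℕ} [NeZero r] {χ : DirichletCharacter ℂ r} (h2 : χ ^ 2 = 1) (p k : ℕ) :
    rv χ (p ^ k) = rv χ p ^ k := by
  induction k with
  | zero => rw [pow_zero, pow_zero, rv_one]
  | succ k ih => rw [pow_succ, rv_mul h2, ih, pow_succ]

theorem EU2_lt {r : ℕ} [NeZero r] {χ : DirichletCharacter ℂ r} {p : ℕ} (hp : p.Prime) :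
    ‖rv χ p / p‖ < 1 := by
  have h2 : (2 : ℝ) ≤ p := by exact_mod_cast hp.two_le
  rw [norm_div, Real.norm_natCast, div_lt_one (by linarith), Real.norm_eq_abs]
  have := abs_rv_le (χ := χ) p
  linarith

theorem EU2_lt' {p : ℕ} (hp : p.Prime) : ‖(1 / (p : ℝ))‖ < 1 := by
  have h2 : (2 : ℝ) ≤ p := by exact_mod_cast hp.two_le
  rw [norm_div, Real.norm_natCast, div_lt_one (by linarith), norm_one]
  linarith

theorem EU2_local {r : ℕ} [NeZero r] {χ : DirichletCharacter ℂ r} (h2 : χ ^ 2 = 1) {p : ℕ}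
    (hp : p.Prime) (k : ℕ) : lam χ (p ^ k) / ((p ^ k : ℕ) : ℝ) =
      ∑ i ∈ range (k + 1), (rv χ p / p) ^ i * (1 / (p : ℝ)) ^ (k - i) := by
  have hp0 : (p : ℝ) ≠ 0 := by exact_mod_cast hp.ne_zero
  rw [lam, Nat.sum_divisors_prime_pow hp, sum_div]
  refine sum_congr rfl fun i hi => ?_
  rw [mem_range] at hi
  rw [EU2_rv_pow h2, div_pow, div_pow, one_pow, Nat.cast_pow]
  have h1 : (p : ℝ) ^ k = (p : ℝ) ^ i * (p : ℝ) ^ (k - i) := by
    rw [← pow_add]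
    congr 1
    omega
  rw [h1, mul_one_div, div_div]

theorem EU2_tsum {r : ℕ} [NeZero r] {χ : DirichletCharacter ℂ r} (h2 : χ ^ 2 = 1) {p : ℕ}
    (hp : p.Prime) : ∑' k, lam χ (p ^ k) / ((p ^ k : ℕ) : ℝ) =
      (1 - 1 / (p : ℝ))⁻¹ * (1 - rv χ p / p)⁻¹ := by
  have ha : Summable fun n => ‖(rv χ p / p) ^ n‖ := by
    simp_rw [norm_pow]
    exact summable_geometric_of_lt_one (norm_nonneg _) (EU2_lt hp)
  have hb : Summable fun n => ‖(1 / (p : ℝ)) ^ n‖ := by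
    simp_rw [norm_pow]
    exact summable_geometric_of_lt_one (norm_nonneg _) (EU2_lt' hp)
  have h := tsum_mul_tsum_eq_tsum_sum_range_of_summable_norm ha hb
  rw [tsum_geometric_of_norm_lt_one (EU2_lt hp), tsum_geometric_of_norm_lt_one (EU2_lt' hp)] at h
  rw [mul_comm, h]
  exact tsum_congr fun k => EU2_local h2 hp k

theorem EU2_summable {r : ℕ} [NeZero r] {χ : DirichletCharacter ℂ r} (h2 : χ ^ 2 = 1) {p : ℕ}
    (hp : p.Prime) : Summable fun k => ‖lam χ (p ^ k) / ((p ^ k : ℕ) : ℝ)‖ := by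
  have ha : Summable fun n => ‖(rv χ p / p) ^ n‖ := by
    simp_rw [norm_pow]
    exact summable_geometric_of_lt_one (norm_nonneg _) (EU2_lt hp)
  have hb : Summable fun n => ‖(1 / (p : ℝ)) ^ n‖ := by
    simp_rw [norm_pow]
    exact summable_geometric_of_lt_one (norm_nonneg _) (EU2_lt' hp)
  have h := summable_norm_sum_mul_range_of_summable_norm ha hb
  refine h.congr fun k => ?_
  rw [EU2_local h2 hp k]

/-- `∑_{n ≤ x} λ(n)/n ≤ ∏_{p ≤ x} (1 - 1/p)⁻¹ (1 - χ(p)/p)⁻¹`: all terms are non-negative and `λ/n` is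
multiplicative, `∑_k λ(p^k)/p^k = (1 - 1/p)⁻¹ (1 - χ(p)/p)⁻¹`
(`EulerProduct.summable_and_hasSum_smoothNumbers_prod_primesBelow_tsum`, or the product of the two
completely multiplicative Euler products of `1/n` and `χ(n)/n` over smooth numbers). -/
theorem sum_le_euler {r : ℕ} [NeZero r] {χ : DirichletCharacter ℂ r} (h2 : χ ^ 2 = 1) (x : ℕ) :
    ∑ n ∈ Icc 1 x, lam χ n / n ≤
      ∏ p ∈ Nat.primesBelow (x + 1), ((1 - 1 / (p : ℝ))⁻¹ * (1 - rv χ p / p)⁻¹) := by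
  classical
  obtain ⟨f, hf⟩ : ∃ f : ℕ → ℝ, ∀ n, f n = lam χ n / (n : ℝ) := ⟨_, fun n => rfl⟩
  have hf1 : f 1 = 1 := by
    rw [hf, lam, Nat.divisors_one, sum_singleton, rv_one, Nat.cast_one, div_one]
  have hfm : ∀ {m n : ℕ}, m.Coprime n → f (m * n) = f m * f n := by
    intro m n h
    rw [hf, hf, hf, lam_mul h2 h, Nat.cast_mul, mul_div_mul_comm]
  have hfs : ∀ {p : ℕ}, p.Prime → Summable fun n => ‖f (p ^ n)‖ := by
    intro p hp
    refine (EU2_summable h2 hp).congr fun k => ?_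
    rw [hf]
  obtain ⟨-, hhas⟩ := EulerProduct.summable_and_hasSum_smoothNumbers_prod_primesBelow_tsum
    hf1 hfm hfs (x + 1)
  have hprod : ∏ p ∈ Nat.primesBelow (x + 1), ((1 - 1 / (p : ℝ))⁻¹ * (1 - rv χ p / p)⁻¹) =
      ∏ p ∈ Nat.primesBelow (x + 1), ∑' n, f (p ^ n) := by
    refine prod_congr rfl fun p hp => ?_
    rw [← EU2_tsum h2 (Nat.prime_of_mem_primesBelow hp)]
    exact tsum_congr fun k => (hf _).symm
  rw [hprod]
  have hmem : ∀ i ∈ Icc 1 x, i ∈ Nat.smoothNumbers (x + 1) := by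
    intro i hi
    rw [mem_Icc] at hi
    rw [Nat.mem_smoothNumbers]
    refine ⟨by omega, fun p hp => ?_⟩
    have := Nat.le_of_mem_primeFactorsList hp
    omega
  let e : (Icc 1 x) ↪ Nat.smoothNumbers (x + 1) :=
    ⟨fun i => ⟨i.1, hmem i.1 i.2⟩, fun a b hab => by
      have := congrArg Subtype.val hab
      exact Subtype.ext this⟩
  have h1 := sum_le_hasSum ((Icc 1 x).attach.map e) (fun m _ => by
    rw [hf]
    exact div_nonneg (lam_nonneg h2 _) (Nat.cast_nonneg _)) hhas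
  rw [sum_map] at h1
  have h3 : ∑ i ∈ (Icc 1 x).attach, f (e i) = ∑ n ∈ Icc 1 x, lam χ n / n := by
    rw [← sum_attach (Icc 1 x) (fun n => lam χ n / (n : ℝ))]
    exact sum_congr rfl fun i _ => hf _
  rwa [h3] at h1

theorem EU2_prod {r : ℕ} [NeZero r] {χ : DirichletCharacter ℂ r} (hr : 3 ≤ r) :
    (∏ p ∈ Nat.primesBelow (r ^ 4 + 1), ((1 - 1 / (p : ℝ))⁻¹ * (1 - rv χ p / p)⁻¹)) * UU χ ≤
      (∏ p ∈ Nat.primesBelow (r ^ 4 + 1), (1 - 1 / (p : ℝ))⁻¹) ^ 2 /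
        ∏ p ∈ Nat.primesBelow r, (1 - 1 / (p : ℝ))⁻¹ := by
  classical
  obtain ⟨S, hS⟩ : ∃ S : Finset ℕ, S = Nat.primesBelow (r ^ 4 + 1) \ Nat.primesBelow r := ⟨_, rfl⟩
  have hrr : r ≤ r ^ 4 := Nat.le_self_pow (by norm_num) r
  have hsub : Nat.primesBelow r ⊆ Nat.primesBelow (r ^ 4 + 1) := by
    intro p hp
    rw [Nat.mem_primesBelow] at hp ⊢
    exact ⟨by omega, hp.2⟩
  have hun : Nat.primesBelow (r ^ 4 + 1) = Nat.primesBelow r ∪ S := by
    rw [hS, union_sdiff_of_subset hsub]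
  have hdis : Disjoint (Nat.primesBelow r) S := by
    rw [hS]
    exact disjoint_sdiff
  have hSp : ∀ p ∈ S, p.Prime := by
    intro p hp
    rw [hS, mem_sdiff] at hp
    exact Nat.prime_of_mem_primesBelow hp.1
  have hpos : ∀ p : ℕ, p.Prime → 0 < 1 - 1 / (p : ℝ) := fun p hp => factor_pos hp
  have hle : ∀ p : ℕ, p.Prime → 1 - 1 / (p : ℝ) ≤ 1 - rv χ p / p := by
    intro p hp
    have hp0 : (0 : ℝ) < p := by exact_mod_cast hp.pos
    have h1 := (abs_le.1 (abs_rv_le (χ := χ) p)).2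
    have h2 : rv χ p / p ≤ 1 / p := by gcongr
    linarith
  rw [hun, prod_union hdis, prod_union hdis, prod_mul_distrib]
  obtain ⟨A, hA⟩ : ∃ A, A = ∏ p ∈ Nat.primesBelow r, (1 - 1 / (p : ℝ))⁻¹ := ⟨_, rfl⟩
  obtain ⟨B, hB⟩ : ∃ B, B = ∏ p ∈ S, (1 - 1 / (p : ℝ))⁻¹ := ⟨_, rfl⟩
  have hApos : 0 < A := by
    rw [hA]
    exact prod_pos fun p hp => inv_pos.2 (hpos p (Nat.prime_of_mem_primesBelow hp))
  have hBpos : 0 < B := by
    rw [hB]
    exact prod_pos fun p hp => inv_pos.2 (hpos p (hSp p hp))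
  have hU : (∏ p ∈ Nat.primesBelow r, (1 - rv χ p / p)⁻¹) * UU χ = 1 := by
    have h1 : UU χ = ∏ p ∈ Nat.primesBelow r, (1 - rv χ p / p) := by
      rw [UU, prN, prod_filter]
      refine prod_congr rfl fun p hp => ?_
      split_ifs with h
      · have h2 : rv χ p = 0 := by
          apply rv_eq_zero
          intro h3
          exact (Nat.Prime.coprime_iff_not_dvd (Nat.prime_of_mem_primesBelow hp)).1 h3 h
        rw [h2, zero_div, sub_zero]
      · rfl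
    rw [h1, ← prod_mul_distrib]
    refine prod_eq_one fun p hp => ?_
    have hpp := Nat.prime_of_mem_primesBelow hp
    exact inv_mul_cancel₀ (lt_of_lt_of_le (hpos p hpp) (hle p hpp)).ne'
  have hSle : ∏ p ∈ S, ((1 - 1 / (p : ℝ))⁻¹ * (1 - rv χ p / p)⁻¹) ≤ B ^ 2 := by
    rw [prod_mul_distrib, ← hB, sq]
    refine mul_le_mul_of_nonneg_left ?_ hBpos.le
    rw [hB]
    refine prod_le_prod (fun p hp => ?_) (fun p hp => ?_)
    · exact inv_nonneg.2 ((hpos p (hSp p hp)).le.trans (hle p (hSp p hp)))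
    · exact inv_anti₀ (hpos p (hSp p hp)) (hle p (hSp p hp))
  rw [← hA, ← hB]
  have h5 : (A * ∏ p ∈ Nat.primesBelow r, (1 - rv χ p / p)⁻¹) *
      (∏ p ∈ S, ((1 - 1 / (p : ℝ))⁻¹ * (1 - rv χ p / p)⁻¹)) * UU χ =
      A * (∏ p ∈ S, ((1 - 1 / (p : ℝ))⁻¹ * (1 - rv χ p / p)⁻¹)) := by
    linear_combination (A * (∏ p ∈ S, ((1 - 1 / (p : ℝ))⁻¹ * (1 - rv χ p / p)⁻¹))) * hU
  rw [h5]
  calc _ ≤ A * B ^ 2 := mul_le_mul_of_nonneg_left hSle hApos.le
    _ = (A * B) ^ 2 / A := by field_simp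

/-- `x = r ^ 4`, multiply `sum_le_euler` by `U = ∏_{p < r, p ∤ r} (1 - χ(p)/p)`: the primes below `r`
contribute `∏_{p < r} (1 - 1/p)⁻¹ ≤ 500 log r` (for `p ∣ r` the second factor is `1`), the primes
`r ≤ p ≤ r ^ 4` at most `(∏ (1 - 1/p)⁻¹)² ≤ C` (`Helper57.prod_one_sub_inv_inv_le` at `r ^ 4`,
`Sieve.prod_one_sub_inv_le` at `r`). -/
theorem sum_UU_le : ∃ C : ℝ, 0 < C ∧ ∀ (r : ℕ) [NeZero r] (χ : DirichletCharacter ℂ r),
    3 ≤ r → χ ^ 2 = 1 →
    (∑ n ∈ Icc 1 (r ^ 4), lam χ n / n) * UU χ ≤ C * Real.log r := by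
  refine ⟨4000000, by norm_num, ?_⟩
  intro r _ χ hr h2
  have hr0 : (3 : ℝ) ≤ r := by exact_mod_cast hr
  have hlog : 0 < Real.log r := Real.log_pos (by linarith)
  have hU : 0 ≤ UU χ := by
    rw [UU]
    refine prod_nonneg fun p hp => ?_
    have hpp := (mem_prN.1 hp).1
    have h1 := (abs_lt.1 (EU2_lt (χ := χ) hpp)).2
    linarith
  have h1 := mul_le_mul_of_nonneg_right (sum_le_euler h2 (r ^ 4)) hU
  refine (h1.trans (EU2_prod hr)).trans ?_
  have h3 := Pool.Agent.Lib.Helper57.prod_one_sub_inv_inv_le (r ^ 4) (by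
    have := Nat.le_self_pow (n := 4) (by norm_num) r
    omega)
  have h4 : ∏ p ∈ Nat.primesBelow (r ^ 4 + 1), (1 - 1 / (p : ℝ))⁻¹ ≤ 2000 * Real.log r := by
    refine h3.trans (le_of_eq ?_)
    rw [Nat.cast_pow, Real.log_pow]
    push_cast
    ring
  have h5 : Real.log r ≤ ∏ p ∈ Nat.primesBelow r, (1 - 1 / (p : ℝ))⁻¹ := by
    have := Pool.Agent.Lib.H59.log_le_prod_inv (z := r) (by omega)
    refine this.trans (le_of_eq ?_)
    exact prod_congr rfl fun p _ => by rw [one_div]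
  have h6 : 0 ≤ ∏ p ∈ Nat.primesBelow (r ^ 4 + 1), (1 - 1 / (p : ℝ))⁻¹ :=
    prod_nonneg fun p hp => inv_nonneg.2 (factor_pos (Nat.prime_of_mem_primesBelow hp)).le
  calc _ ≤ (2000 * Real.log r) ^ 2 / Real.log r := by gcongr
    _ = 4000000 * Real.log r := by
      field_simp
      ring

end Pool.Agent.Lib.H68G
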