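import Pool.Agent.Lib.H68G.EU1
import Pool.Agent.Lib.H68G.EU2
import Pool.Agent.Lib.H68G.BT

/-!
# Chunk CO (S): from the key inequality to the conclusion
-/

open Finset

namespace Pool.Agent.Lib.H68G

/-- `L(1,χ) ≥ 1/(C U) ≥ 1/(500 C log r)` by `UU_le`. If `L(β,χ) = 0` with
`1 - c/log r ≤ β < 1`, `c ≤ 1`, then `1 ≤ C L(1,χ) U ≤ C C₁ (1 - β) (∑ λ(n)/n) U ≤ C C₁ C₂ (1 - β) log r`
(`L1_le_sum`, `sum_UU_le`), so `1 - β ≥ 1/(C C₁ C₂ log r)`: take `c < 1/(C C₁ C₂)`. For `β = 1` use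
`L(1,χ) > 0`. -/
theorem star_concl (C : ℝ) (hC : 0 < C) : ∃ c : ℝ, 0 < c ∧ ∃ r₀ : ℕ,
    ∀ (r : ℕ) [NeZero r] (χ : DirichletCharacter ℂ r), r₀ ≤ r → RP χ → Star C χ → Concl c χ := by
  obtain ⟨C₁, hC₁, r₁, h₁⟩ := L1_le_sum
  obtain ⟨C₂, hC₂, h₂⟩ := sum_UU_le
  set c : ℝ := min 1 (min (1 / (500 * C)) (1 / (2 * (C * C₁ * C₂)))) with hc
  have hc0 : 0 < c := lt_min one_pos (lt_min (by positivity) (by positivity))
  have hc1 : c ≤ 1 := min_le_left _ _
  have hc2 : c ≤ 1 / (500 * C) := (min_le_right _ _).trans (min_le_left _ _)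
  have hc3 : c ≤ 1 / (2 * (C * C₁ * C₂)) := (min_le_right _ _).trans (min_le_right _ _)
  refine ⟨c, hc0, max 3 r₁, fun r _ χ hr hRP hS => ?_⟩
  have hr3 : 3 ≤ r := (le_max_left _ _).trans hr
  have hr1 : r₁ ≤ r := (le_max_right _ _).trans hr
  have hlog : 0 < Real.log r := Real.log_pos (by exact_mod_cast (by omega : 1 < r))
  obtain ⟨hp, hne, hsq⟩ := hRP
  have hU0 := UU_pos χ
  have hU1 := UU_le χ hr3
  unfold Star at hS
  have hL0 : 0 ≤ L1 χ := norm_nonneg _
  have hL1 : 1 / (500 * C) / Real.log r ≤ L1 χ := by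
    rw [div_div, div_le_iff₀ (by positivity)]
    have h3 : L1 χ * UU χ ≤ L1 χ * (500 * Real.log r) := mul_le_mul_of_nonneg_left hU1 hL0
    have h4 := mul_le_mul_of_nonneg_left h3 hC.le
    calc (1 : ℝ) ≤ C * (L1 χ * UU χ) := hS
      _ ≤ C * (L1 χ * (500 * Real.log r)) := h4
      _ = _ := by ring
  refine ⟨le_trans (div_le_div_of_nonneg_right hc2 hlog.le) hL1, fun σ hσ hσ1 hz => ?_⟩
  rcases eq_or_lt_of_le hσ1 with rfl | hlt
  · have h5 : 0 < L1 χ := lt_of_lt_of_le (by positivity) hL1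
    rw [L1] at h5
    rw [Complex.ofReal_one] at hz
    rw [hz, norm_zero] at h5
    exact lt_irrefl _ h5
  · have hσ' : 1 - 1 / Real.log r ≤ σ := by
      have : c / Real.log r ≤ 1 / Real.log r := div_le_div_of_nonneg_right hc1 hlog.le
      linarith
    have h6 := h₁ r χ hr1 hne hsq σ hσ' hlt hz
    have h7 := h₂ r χ hr3 hsq
    have h8 : L1 χ * UU χ ≤ C₁ * (1 - σ) * (C₂ * Real.log r) := by
      calc L1 χ * UU χ ≤ C₁ * (1 - σ) * (∑ n ∈ Icc 1 (r ^ 4), lam χ n / n) * UU χ :=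
            mul_le_mul_of_nonneg_right h6 hU0.le
        _ = C₁ * (1 - σ) * ((∑ n ∈ Icc 1 (r ^ 4), lam χ n / n) * UU χ) := by ring
        _ ≤ _ := mul_le_mul_of_nonneg_left h7 (mul_nonneg hC₁.le (by linarith))
    have h9 : (1 - σ) * Real.log r ≤ c := by
      have : 1 - σ ≤ c / Real.log r := by linarith
      calc (1 - σ) * Real.log r ≤ c / Real.log r * Real.log r :=
            mul_le_mul_of_nonneg_right this hlog.le
        _ = c := by field_simp
    have h10 : C * (C₁ * (1 - σ) * (C₂ * Real.log r)) ≤ 1 / 2 := by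
      calc C * (C₁ * (1 - σ) * (C₂ * Real.log r)) = C * C₁ * C₂ * ((1 - σ) * Real.log r) := by ring
        _ ≤ C * C₁ * C₂ * c := mul_le_mul_of_nonneg_left h9 (by positivity)
        _ ≤ C * C₁ * C₂ * (1 / (2 * (C * C₁ * C₂))) := mul_le_mul_of_nonneg_left hc3 (by positivity)
        _ = 1 / 2 := by field_simp
    have h11 := mul_le_mul_of_nonneg_left h8 hC.le
    linarith

theorem Concl.mono {c c' : ℝ} {r : ℕ} [NeZero r] {χ : DirichletCharacter ℂ r} (hr : 1 ≤ r)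
    (h : Concl c χ) (hc : c' ≤ c) : Concl c' χ := by
  have hlog : 0 ≤ Real.log r := Real.log_nonneg (by exact_mod_cast hr)
  have h1 : c' / Real.log r ≤ c / Real.log r := div_le_div_of_nonneg_right hc hlog
  exact ⟨h1.trans h.1, fun σ hσ hσ1 => h.2 σ (by linarith) hσ1⟩

theorem CO_single {r : ℕ} [NeZero r] (hr : 2 ≤ r) (χ : DirichletCharacter ℂ r) (hχ : χ ≠ 1) :
    ∃ c : ℝ, 0 < c ∧ Concl c χ := by
  have hlog : 0 < Real.log r := Real.log_pos (by exact_mod_cast (by omega : 1 < r))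
  have h1 : χ.LFunction 1 ≠ 0 := DirichletCharacter.LFunction_apply_one_ne_zero hχ
  have hcont : ContinuousAt χ.LFunction 1 :=
    (DirichletCharacter.differentiable_LFunction hχ).continuous.continuousAt
  have h2 : ∀ᶠ s in nhds (1 : ℂ), χ.LFunction s ≠ 0 := hcont.eventually_ne h1
  obtain ⟨ε, hε, h3⟩ := Metric.eventually_nhds_iff.1 h2
  have hL : 0 < L1 χ := norm_pos_iff.2 h1
  refine ⟨min (ε / 2 * Real.log r) (L1 χ * Real.log r), lt_min (by positivity) (by positivity),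
    ?_, fun σ hσ hσ1 => ?_⟩
  · rw [div_le_iff₀ hlog]
    exact min_le_right _ _
  · apply h3
    have h4 : min (ε / 2 * Real.log r) (L1 χ * Real.log r) / Real.log r ≤ ε / 2 := by
      rw [div_le_iff₀ hlog]
      exact min_le_left _ _
    have h5 : dist (σ : ℂ) 1 = |σ - 1| := by
      rw [dist_eq_norm]
      have : (σ : ℂ) - 1 = ((σ - 1 : ℝ) : ℂ) := by push_cast; ring
      rw [this, Complex.norm_real, Real.norm_eq_abs]
    rw [h5, abs_lt]
    constructor <;> linarith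

/-- Finitely many characters: `L(1,χ) ≠ 0` (`DirichletCharacter.LFunction_apply_one_ne_zero`) and
`L(s,χ)` is continuous, so it has no zero in `[1 - ε, 1]`. -/
theorem small_concl (r₀ : ℕ) : ∃ c : ℝ, 0 < c ∧ ∀ (r : ℕ) [NeZero r] (χ : DirichletCharacter ℂ r),
    r < r₀ → 2 ≤ r → χ ≠ 1 → Concl c χ := by
  classical
  induction r₀ with
  | zero => exact ⟨1, one_pos, fun r _ χ h => absurd h (Nat.not_lt_zero r)⟩
  | succ n ih =>
    obtain ⟨c, hc, h⟩ := ih
    by_cases hn : 2 ≤ n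
    · haveI : NeZero n := ⟨by omega⟩
      have : Fintype (DirichletCharacter ℂ n) := Fintype.ofFinite _
      have hex : ∀ χ : DirichletCharacter ℂ n, ∃ c : ℝ, 0 < c ∧ (χ ≠ 1 → Concl c χ) := by
        intro χ
        by_cases hχ : χ = 1
        · exact ⟨1, one_pos, fun h => absurd hχ h⟩
        · obtain ⟨c, hc, h⟩ := CO_single hn χ hχ
          exact ⟨c, hc, fun _ => h⟩
      choose f hf0 hf using hex
      have hne : (univ : Finset (DirichletCharacter ℂ n)).Nonempty := ⟨1, mem_univ _⟩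
      set d := (univ : Finset (DirichletCharacter ℂ n)).inf' hne f with hd
      have hd0 : 0 < d := by
        rw [hd, Finset.lt_inf'_iff]
        exact fun χ _ => hf0 χ
      refine ⟨min c d, lt_min hc hd0, fun r _ χ hr hr2 hχ => ?_⟩
      rcases Nat.lt_succ_iff_lt_or_eq.1 hr with h1 | h1
      · exact (h r χ h1 hr2 hχ).mono (by omega) (min_le_left _ _)
      · subst h1
        exact (hf χ hχ).mono (by omega) ((min_le_right _ _).trans
          (Finset.inf'_le _ (mem_univ χ)))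
    · exact ⟨c, hc, fun r _ χ hr hr2 hχ => h r χ (by omega) hr2 hχ⟩

end Pool.Agent.Lib.H68G
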