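import Pool.Agent.Lib.H59.SchinzelDefs
import Pool.Agent.Lib.H59.PolyKey
import Pool.Agent.Lib.H59.PolySieve
import Pool.Agent.Lib.H59.SchinzelUpper
import Pool.Agent.Lib.H68X.XRH

/-!
# Project H68G (MP_0bf1d2_nt): the quantitative hypothesis of Schinzel for one pair `(F, a x^h)`
implies that there are no Landau-Siegel zeros

Definitions. See `README.md` for the proof and the list of chunks.
-/

open Finset Polynomial Filter

namespace Pool.Agent.Lib.H68G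

open Pool.Agent.Lib.H59

noncomputable section

/-- The values of a real character, as real numbers. -/
def rv {r : ℕ} (χ : DirichletCharacter ℂ r) (n : ℕ) : ℝ := (χ (n : ZMod r)).re

/-- `λ = 1 * χ` -/
def lam {r : ℕ} (χ : DirichletCharacter ℂ r) (m : ℕ) : ℝ := ∑ d ∈ m.divisors, rv χ d

/-- `χ` is a real primitive non-trivial character. -/
def RP {r : ℕ} (χ : DirichletCharacter ℂ r) : Prop := χ.IsPrimitive ∧ χ ≠ 1 ∧ χ ^ 2 = 1

/-- `L(1, χ)` (it is real and non-negative, see `L1_eq`) -/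
def L1 {r : ℕ} [NeZero r] (χ : DirichletCharacter ℂ r) : ℝ := ‖χ.LFunction 1‖

/-- The primes below `r` which do not divide `r`. -/
def prN (r : ℕ) : Finset ℕ := (Nat.primesBelow r).filter (fun p => ¬ p ∣ r)

/-- `U = ∏_{p < r, p ∤ r} (1 - χ(p)/p)` -/
def UU {r : ℕ} (χ : DirichletCharacter ℂ r) : ℝ := ∏ p ∈ prN r, (1 - rv χ p / p)

/-- `W = ∏_{p < r, p ∤ r} (1 - 1/p)` -/
def WW (r : ℕ) : ℝ := ∏ p ∈ prN r, (1 - 1 / (p : ℝ))

/-- The polynomial whose roots are sieved out at `p`. -/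
def mixPoly {g : ℕ} (F : Fin g → ℤ[X]) (r p : ℕ) : ℤ[X] :=
  if p ∣ r then X * ∏ i, F i else ∏ i, F i

/-- `V'_F = ∏_{p < r} (1 - ω'(p)/p)`, with `ω'(p)` the number of roots modulo `p` of `F_1 ⋯ F_g`
if `p ∤ r` and of `x F_1 ⋯ F_g` if `p ∣ r` -/
def VF {g : ℕ} (F : Fin g → ℤ[X]) (r : ℕ) : ℝ :=
  ∏ p ∈ Nat.primesBelow r, (1 - (rootCount (mixPoly F r p) p : ℝ) / p)

/-- The number of primes `q ≤ T` in the class `c` modulo `r`. -/
def pic (T r : ℕ) (c : ZMod r) : ℕ :=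
  ((Icc 1 T).filter fun q : ℕ => q.Prime ∧ (q : ZMod r) = c).card

/-- The integers in `(T/2, T]` in the class `b` modulo `q`. -/
def NN (T q b : ℕ) : Finset ℕ := (Ioc (T / 2) T).filter fun N => N ≡ b [MOD q]

/-- The main term of the conjecture with the singular series cut at `z`. -/
def mainTerm {g : ℕ} (F : Fin g → ℤ[X]) (G : ℤ[X]) (N z : ℕ) : ℝ :=
  (argCount G N : ℝ) / (Real.log (argCount G N)) ^ (g + 1) *
    ((G.natDegree : ℝ) * ∏ i, ((F i).natDegree : ℝ))⁻¹ * seriesTrunc F G N z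

/-- The lower half of the asymptotic formula, for one pair `(F, G)`: for some `δ > 0` all large
admissible `N` satisfy `Q_1(N) ≥ δ · main term`. -/
def LowerHalf {g : ℕ} (F : Fin g → ℤ[X]) (G : ℤ[X]) : Prop :=
  ∃ δ : ℝ, 0 < δ ∧ ∃ N₀ : ℕ, ∀ N : ℕ, N₀ ≤ N → Admissible F G N →
    ∀ᶠ z : ℕ in atTop, δ * mainTerm F G N z ≤ (primeCount F G N : ℝ)

/-- Standing assumptions on `F`. -/
structure Sys {g : ℕ} (F : Fin g → ℤ[X]) : Prop where
  irr : ∀ i, Irreducible (F i)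
  deg : ∀ i, 1 ≤ (F i).natDegree
  fix : ∀ p : ℕ, p.Prime → ∃ n : ℤ, ¬ (p : ℤ) ∣ (X * ∏ i, F i : ℤ[X]).eval n

/-- `G = a x^h` -/
def GG (a h : ℕ) : ℤ[X] := C (a : ℤ) * X ^ h

/-- The degree of `F_1 ⋯ F_g · a x^h`. -/
def kap {g : ℕ} (F : Fin g → ℤ[X]) (h : ℕ) : ℕ := ∑ i, (F i).natDegree + h

/-- The exponent: all counts are at `X = r ^ BB`, `T = a X ^ h`. -/
def BB {g : ℕ} (F : Fin g → ℤ[X]) (h : ℕ) : ℕ := 4000 * (kap F h + 2)

/-- The key inequality `L(1,χ) ∏_{p < r} (1 - χ(p)/p) ≥ 1/C`. -/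
def Star (C : ℝ) {r : ℕ} [NeZero r] (χ : DirichletCharacter ℂ r) : Prop :=
  1 ≤ C * (L1 χ * UU χ)

/-- The conclusion: no zeros close to one, and a lower bound for `L(1,χ)`. -/
def Concl (c : ℝ) {r : ℕ} [NeZero r] (χ : DirichletCharacter ℂ r) : Prop :=
  c / Real.log r ≤ L1 χ ∧ ∀ σ : ℝ, 1 - c / Real.log r ≤ σ → σ ≤ 1 → χ.LFunction (σ : ℂ) ≠ 0

end

theorem mem_prN {r p : ℕ} : p ∈ prN r ↔ p.Prime ∧ p < r ∧ ¬ p ∣ r := by
  rw [prN, mem_filter, Nat.mem_primesBelow]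
  tauto

theorem natDegree_GG {a h : ℕ} (ha : 1 ≤ a) : (GG a h).natDegree = h := by
  unfold GG
  exact natDegree_C_mul_X_pow h _ (by exact_mod_cast (by omega : a ≠ 0))

theorem eval_GG (a h : ℕ) (n : ℤ) : (GG a h).eval n = a * n ^ h := by
  simp [GG]

theorem factor_pos {p : ℕ} (hp : p.Prime) : 0 < 1 - 1 / (p : ℝ) := by
  have h2 : (2 : ℝ) ≤ p := by exact_mod_cast hp.two_le
  have : 1 / (p : ℝ) ≤ 1 / 2 := one_div_le_one_div_of_le (by norm_num) h2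
  linarith

theorem WW_pos (r : ℕ) : 0 < WW r := prod_pos fun _ hp => factor_pos (mem_prN.1 hp).1

end Pool.Agent.Lib.H68G
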