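import Pool.Agent.Lib.H68G.RV
import Pool.Agent.Lib.H68X.XRL
import Pool.Agent.Lib.H68X.XSIE

/-!
# Chunk EU1 (M): `L(1,χ) ≤ C (1 - β) ∑_{n ≤ x} λ(n)/n` for a zero `β`
-/

open Finset

namespace Pool.Agent.Lib.H68G

/-- Auxiliary: the mean value theorem for `(t^(1-β) - 1)/(1-β)`. -/
theorem EU1A_mvt {β : ℝ} (h1 : 1 / 2 ≤ β) (h2 : β < 1) {a b : ℝ} (ha : 0 < a) (hab : a ≤ b) :
    (b - a) * b ^ (-β) ≤ (b ^ (1 - β) - 1) / (1 - β) - (a ^ (1 - β) - 1) / (1 - β) ∧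
    (b ^ (1 - β) - 1) / (1 - β) - (a ^ (1 - β) - 1) / (1 - β) ≤ (b - a) * a ^ (-β) := by
  rcases eq_or_lt_of_le hab with rfl | hlt
  · simp
  have hβ : 0 < 1 - β := by linarith
  have hder : ∀ x ∈ Set.Ioo a b, HasDerivAt (fun t : ℝ => (t ^ (1 - β) - 1) / (1 - β))
      (x ^ (-β)) x := by
    intro x hx
    have hx0 : x ≠ 0 := (ha.trans hx.1).ne'
    have h := ((Real.hasDerivAt_rpow_const (x := x) (p := 1 - β) (Or.inl hx0)).sub_const 1).div_const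
      (1 - β)
    have e : (1 - β) * x ^ (1 - β - 1) / (1 - β) = x ^ (-β) := by
      rw [mul_div_cancel_left₀ _ hβ.ne']
      congr 1
      ring
    rw [e] at h
    exact h
  have hcont : ContinuousOn (fun t : ℝ => (t ^ (1 - β) - 1) / (1 - β)) (Set.Icc a b) := by
    apply ContinuousOn.div_const
    apply ContinuousOn.sub _ continuousOn_const
    intro x hx
    exact (Real.continuousAt_rpow_const x (1 - β) (Or.inl (ha.trans_le hx.1).ne')).continuousWithinAt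
  obtain ⟨c, hc, hcs⟩ := exists_hasDerivAt_eq_slope (fun t : ℝ => (t ^ (1 - β) - 1) / (1 - β))
    (fun x => x ^ (-β)) hlt hcont hder
  have hba : 0 < b - a := by linarith
  have hcs' : (b ^ (1 - β) - 1) / (1 - β) - (a ^ (1 - β) - 1) / (1 - β) = (b - a) * c ^ (-β) := by
    have : c ^ (-β) = ((b ^ (1 - β) - 1) / (1 - β) - (a ^ (1 - β) - 1) / (1 - β)) / (b - a) := hcs
    rw [this, mul_div_cancel₀ _ hba.ne']
  have hc0 : 0 < c := ha.trans hc.1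
  have k1 : b ^ (-β) ≤ c ^ (-β) :=
    Real.rpow_le_rpow_of_nonpos hc0 hc.2.le (by linarith)
  have k2 : c ^ (-β) ≤ a ^ (-β) :=
    Real.rpow_le_rpow_of_nonpos ha hc.1.le (by linarith)
  rw [hcs']
  exact ⟨mul_le_mul_of_nonneg_left k1 hba.le, mul_le_mul_of_nonneg_left k2 hba.le⟩

/-- `∑_{e ≤ y} e^(-β) = (y^(1-β) - 1)/(1-β) + κ + O(y^(-β))` for real `y ≥ 1`, `1/2 ≤ β < 1`, with
`0 ≤ κ ≤ 1` depending only on `β` (compare with the integral: the difference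
`∑_{e ≤ n} e^(-β) - ∫_1^n t^(-β) dt` is decreasing in `n` and lies in `[0, 1]`, with limit `κ` and
distance to the limit at most `n^(-β)`). -/
theorem sum_rpow {β : ℝ} (h1 : 1 / 2 ≤ β) (h2 : β < 1) : ∃ κ : ℝ, 0 ≤ κ ∧ κ ≤ 1 ∧
    ∀ y : ℝ, 1 ≤ y → |(∑ e ∈ Icc 1 ⌊y⌋₊, (e : ℝ) ^ (-β)) - ((y ^ (1 - β) - 1) / (1 - β) + κ)| ≤
      3 * y ^ (-β) := by
  set f : ℝ → ℝ := fun t => (t ^ (1 - β) - 1) / (1 - β) with hf
  set a : ℕ → ℝ := fun n => (∑ e ∈ Icc 1 (n + 1), (e : ℝ) ^ (-β)) - f ((n : ℝ) + 1) with hadef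
  have hsum : ∀ n : ℕ, ∑ e ∈ Icc 1 (n + 1 + 1), (e : ℝ) ^ (-β) =
      (∑ e ∈ Icc 1 (n + 1), (e : ℝ) ^ (-β)) + ((n : ℝ) + 2) ^ (-β) := by
    intro n
    rw [Finset.sum_Icc_succ_top (by omega)]
    congr 2
    push_cast
    ring
  have ha0 : a 0 = 1 := by
    simp only [hadef, hf]
    simp
  have hstep : ∀ n : ℕ, a (n + 1) ≤ a n ∧
      a n - ((n : ℝ) + 1) ^ (-β) ≤ a (n + 1) - ((n : ℝ) + 2) ^ (-β) := by
    intro n
    have h := EU1A_mvt h1 h2 (a := (n : ℝ) + 1) (b := (n : ℝ) + 2) (by positivity) (by linarith)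
    have e1 : (n : ℝ) + 2 - ((n : ℝ) + 1) = 1 := by ring
    rw [e1, one_mul, one_mul] at h
    have e2 : a (n + 1) = (∑ e ∈ Icc 1 (n + 1), (e : ℝ) ^ (-β)) + ((n : ℝ) + 2) ^ (-β) -
        f ((n : ℝ) + 2) := by
      simp only [hadef]
      rw [hsum n]
      congr 2
      push_cast
      ring
    have e3 : a n = (∑ e ∈ Icc 1 (n + 1), (e : ℝ) ^ (-β)) - f ((n : ℝ) + 1) := rfl
    rw [e2, e3]
    simp only [hf]
    constructor
    · linarith [h.1]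
    · linarith [h.2]
  have hanti : Antitone a := antitone_nat_of_succ_le fun n => (hstep n).1
  have hmono : Monotone (fun n : ℕ => a n - ((n : ℝ) + 1) ^ (-β)) := by
    apply monotone_nat_of_le_succ
    intro n
    have := (hstep n).2
    have e : ((n + 1 : ℕ) : ℝ) + 1 = (n : ℝ) + 2 := by
      push_cast
      ring
    simp only [e]
    exact this
  have hb0 : ∀ n : ℕ, 0 ≤ a n - ((n : ℝ) + 1) ^ (-β) := by
    intro n
    have h := hmono (Nat.zero_le n)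
    have e : a 0 - (((0 : ℕ) : ℝ) + 1) ^ (-β) = 0 := by
      rw [ha0]
      simp
    simp only [e] at h
    exact h
  have hcross : ∀ n m : ℕ, a n - ((n : ℝ) + 1) ^ (-β) ≤ a m := by
    intro n m
    have hm : 0 ≤ ((max n m : ℕ) : ℝ) + 1 := by positivity
    have k1 := hmono (le_max_left n m)
    have k2 := hanti (le_max_right n m)
    have k3 : 0 ≤ (((max n m : ℕ) : ℝ) + 1) ^ (-β) := Real.rpow_nonneg hm _
    simp only at k1
    linarith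
  have hbdd : BddBelow (Set.range a) := by
    refine ⟨0, ?_⟩
    rintro _ ⟨n, rfl⟩
    have k3 : 0 ≤ ((n : ℝ) + 1) ^ (-β) := Real.rpow_nonneg (by positivity) _
    linarith [hb0 n]
  set κ : ℝ := ⨅ n, a n with hκ
  have hκle : ∀ n, κ ≤ a n := fun n => ciInf_le hbdd n
  have hκge : ∀ n : ℕ, a n - ((n : ℝ) + 1) ^ (-β) ≤ κ := fun n => le_ciInf (hcross n)
  refine ⟨κ, (hb0 0).trans (hκge 0), (hκle 0).trans ha0.le, ?_⟩
  intro y hy
  obtain ⟨n, hn⟩ : ∃ n : ℕ, ⌊y⌋₊ = n + 1 := by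
    have : 1 ≤ ⌊y⌋₊ := by
      rw [Nat.one_le_floor_iff]
      exact hy
    exact ⟨⌊y⌋₊ - 1, by omega⟩
  have hy0 : 0 < y := by linarith
  have hfl := Nat.floor_le hy0.le
  have hfl2 := Nat.lt_floor_add_one y
  rw [hn] at hfl hfl2 ⊢
  push_cast at hfl hfl2
  have hm := EU1A_mvt h1 h2 (a := (n : ℝ) + 1) (b := y) (by positivity) hfl
  have hp : 0 ≤ ((n : ℝ) + 1) ^ (-β) := Real.rpow_nonneg (by positivity) _
  have hpy : 0 ≤ y ^ (-β) := Real.rpow_nonneg hy0.le _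
  have hm1 : 0 ≤ f y - f ((n : ℝ) + 1) := by
    have : 0 ≤ (y - ((n : ℝ) + 1)) * y ^ (-β) := mul_nonneg (by linarith) hpy
    exact this.trans hm.1
  have hm2 : f y - f ((n : ℝ) + 1) ≤ ((n : ℝ) + 1) ^ (-β) := by
    refine hm.2.trans ?_
    refine mul_le_of_le_one_left hp (by linarith)
  have hn2 : ((n : ℝ) + 1) ^ (-β) ≤ 2 * y ^ (-β) := by
    have hy2 : y ≤ 2 * ((n : ℝ) + 1) := by
      have : (0 : ℝ) ≤ n := Nat.cast_nonneg n
      linarith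
    have k1 : (2 * ((n : ℝ) + 1)) ^ (-β) ≤ y ^ (-β) :=
      Real.rpow_le_rpow_of_nonpos hy0 hy2 (by linarith)
    rw [Real.mul_rpow (by norm_num) (by positivity)] at k1
    have k2 : (1 / 2 : ℝ) ≤ 2 ^ (-β) := by
      have : (2 : ℝ) ^ (-1 : ℝ) ≤ 2 ^ (-β) :=
        Real.rpow_le_rpow_of_exponent_le (by norm_num) (by linarith)
      rw [Real.rpow_neg_one] at this
      linarith
    have k3 : 1 / 2 * ((n : ℝ) + 1) ^ (-β) ≤ 2 ^ (-β) * ((n : ℝ) + 1) ^ (-β) :=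
      mul_le_mul_of_nonneg_right k2 hp
    linarith
  have e3 : (∑ e ∈ Icc 1 (n + 1), (e : ℝ) ^ (-β)) = a n + f ((n : ℝ) + 1) := by
    simp only [hadef]
    ring
  have e4 : (y ^ (1 - β) - 1) / (1 - β) = f y := rfl
  rw [e3, e4, abs_le]
  have q1 := hκle n
  have q2 := hκge n
  constructor <;> linarith

/-- The partial sums of `L(β,χ) = 0`: `|∑_{d ≤ x} χ(d) d^(-β)| ≤ 2 r x^(-β)` (`XRL_split` and
`XRL_tele`). -/
theorem zero_partial {r : ℕ} [NeZero r] {χ : DirichletCharacter ℂ r} (h1 : χ ≠ 1)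
    (h2 : χ ^ 2 = 1) {β : ℝ} (hβ : 1 / 2 ≤ β) (hβ1 : β < 1) (hz : χ.LFunction (β : ℂ) = 0)
    (x : ℕ) (hx : 1 ≤ x) : |∑ d ∈ Icc 1 x, rv χ d * (d : ℝ) ^ (-β)| ≤ 4 * r * (x : ℝ) ^ (-β) := by
  have hβ0 : 0 < β := by linarith
  have hs : 0 < (β : ℂ).re := by simpa using hβ0
  have hsplit := Pool.Agent.Lib.H68T.XRL_split r χ h1 (β : ℂ) hs x
  rw [hz] at hsplit
  have hr0 : (0 : ℝ) ≤ r := Nat.cast_nonneg r
  have htail : ‖∑' n, Pool.Agent.Lib.H68T.gl1_A χ (n + x) (β : ℂ)‖ ≤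
      r * ((x : ℝ) + 1) ^ (-β) := by
    apply Pool.Agent.Lib.H68T.XRL_tele β r hr0 x
    intro n
    have h := Pool.Agent.Lib.H68T.gl1_A_norm r χ h1 (n + x) (β : ℂ) hs
    refine h.trans (le_of_eq ?_)
    rw [Complex.ofReal_re, Complex.norm_real, Real.norm_eq_abs, abs_of_pos hβ0,
      mul_div_assoc, div_self hβ0.ne', mul_one]
  have hT := Pool.Agent.Lib.H68T.gl1_T_bound r χ h1 x
  have hx0 : (0 : ℝ) < x := by exact_mod_cast hx
  have hpow : ((x : ℝ) + 1) ^ (-β) ≤ (x : ℝ) ^ (-β) :=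
    Real.rpow_le_rpow_of_nonpos hx0 (by linarith) (by linarith)
  have hpow0 : 0 ≤ ((x : ℝ) + 1) ^ (-β) := Real.rpow_nonneg (by positivity) _
  have hcn : ‖((((x : ℝ) + 1 : ℝ)) : ℂ) ^ (-(β : ℂ))‖ = ((x : ℝ) + 1) ^ (-β) := by
    rw [Complex.norm_cpow_eq_rpow_re_of_pos (by positivity)]
    simp
  have hmain : ‖∑ n ∈ range x, χ ((n + 1 : ℕ) : ZMod r) * ((((n : ℝ) + 1 : ℝ)) : ℂ) ^ (-(β : ℂ))‖ ≤
      2 * r * (x : ℝ) ^ (-β) := by
    have e : ∑ n ∈ range x, χ ((n + 1 : ℕ) : ZMod r) * ((((n : ℝ) + 1 : ℝ)) : ℂ) ^ (-(β : ℂ)) =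
        Pool.Agent.Lib.H68T.gl1_T χ x * ((((x : ℝ) + 1 : ℝ)) : ℂ) ^ (-(β : ℂ)) -
          ∑' n, Pool.Agent.Lib.H68T.gl1_A χ (n + x) (β : ℂ) := by
      linear_combination -hsplit
    rw [e]
    refine (norm_sub_le _ _).trans ?_
    rw [norm_mul, hcn]
    have k1 := mul_le_mul_of_nonneg_right hT hpow0
    have k2 := mul_le_mul_of_nonneg_left hpow hr0
    linarith
  have hre : ∑ d ∈ Icc 1 x, rv χ d * (d : ℝ) ^ (-β) =
      (∑ n ∈ range x, χ ((n + 1 : ℕ) : ZMod r) * ((((n : ℝ) + 1 : ℝ)) : ℂ) ^ (-(β : ℂ))).re := by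
    rw [Complex.re_sum]
    have e1 : Icc 1 x = Ico 1 (x + 1) := by
      ext d
      simp only [mem_Icc, mem_Ico]
      omega
    rw [e1, Finset.sum_Ico_eq_sum_range, Nat.add_sub_cancel]
    apply Finset.sum_congr rfl
    intro n _
    have e2 : ((((n : ℝ) + 1 : ℝ)) : ℂ) ^ (-(β : ℂ)) = ((((n : ℝ) + 1) ^ (-β) : ℝ) : ℂ) := by
      rw [Complex.ofReal_cpow (by positivity)]
      simp
    rw [e2, Complex.re_mul_ofReal, rv, add_comm 1 n]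
    push_cast
    rfl
  rw [hre]
  refine (Complex.abs_re_le_norm _).trans (hmain.trans ?_)
  have : 0 ≤ (r : ℝ) * (x : ℝ) ^ (-β) := mul_nonneg hr0 (Real.rpow_nonneg hx0.le _)
  linarith

theorem EU1B_sum_dvd (n f : ℕ) (hf : 1 ≤ f) (G : ℕ → ℝ) :
    ∑ e ∈ (Icc 1 n).filter (fun e => f ∣ e), G e = ∑ k ∈ Icc 1 (n / f), G (f * k) := by
  refine sum_nbij' (fun e => e / f) (fun k => f * k) ?_ ?_ ?_ ?_ ?_
  · intro e he
    rw [mem_filter, mem_Icc] at he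
    obtain ⟨⟨h1, h2⟩, k, rfl⟩ := he
    rw [Nat.mul_div_cancel_left _ hf, mem_Icc]
    refine ⟨?_, ?_⟩
    · rcases Nat.eq_zero_or_pos k with h | h
      · subst h
        omega
      · exact h
    · rw [Nat.le_div_iff_mul_le hf, mul_comm]
      exact h2
  · intro k hk
    rw [mem_Icc, Nat.le_div_iff_mul_le hf] at hk
    rw [mem_filter, mem_Icc]
    refine ⟨⟨Nat.mul_pos hf hk.1, ?_⟩, dvd_mul_right _ _⟩
    rw [mul_comm]
    exact hk.2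
  · intro e he
    rw [mem_filter] at he
    exact Nat.mul_div_cancel' he.2
  · intro k _
    exact Nat.mul_div_cancel_left _ hf
  · intro e he
    rw [mem_filter] at he
    rw [Nat.mul_div_cancel' he.2]

theorem EU1B_swap (x : ℕ) (G : ℕ → ℕ → ℝ) :
    ∑ n ∈ Icc 1 x, ∑ d ∈ n.divisors, G d n =
      ∑ d ∈ Icc 1 x, ∑ e ∈ Icc 1 (x / d), G d (d * e) := by
  have h1 : ∀ n ∈ Icc 1 x, ∑ d ∈ n.divisors, G d n =
      ∑ d ∈ Icc 1 x, if d ∣ n then G d n else 0 := by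
    intro n hn
    rw [mem_Icc] at hn
    rw [← sum_filter]
    apply sum_congr _ fun _ _ => rfl
    ext d
    rw [Nat.mem_divisors, mem_filter, mem_Icc]
    constructor
    · rintro ⟨h2, h3⟩
      have h4 := Nat.le_of_dvd (by omega) h2
      have h5 := Nat.pos_of_dvd_of_pos h2 (by omega)
      exact ⟨⟨h5, by omega⟩, h2⟩
    · rintro ⟨-, h2⟩
      exact ⟨h2, by omega⟩
  rw [sum_congr rfl h1, sum_comm]
  apply sum_congr rfl
  intro d hd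
  rw [mem_Icc] at hd
  rw [← sum_filter, EU1B_sum_dvd x d hd.1 (fun n => G d n)]

theorem EU1B_inner {r : ℕ} {χ : DirichletCharacter ℂ r} {β κ : ℝ} (h2 : β < 1)
    (hκ : ∀ y : ℝ, 1 ≤ y →
      |(∑ e ∈ Icc 1 ⌊y⌋₊, (e : ℝ) ^ (-β)) - ((y ^ (1 - β) - 1) / (1 - β) + κ)| ≤ 3 * y ^ (-β))
    (habs : ∀ n : ℕ, |rv χ n| ≤ 1) {x d : ℕ} (hd : 1 ≤ d) (hdx : d ≤ x) :
    |(∑ e ∈ Icc 1 (x / d), rv χ d * ((d * e : ℕ) : ℝ) ^ (-β)) -
      ((x : ℝ) ^ (1 - β) / (1 - β) * (rv χ d / d) +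
        (κ - 1 / (1 - β)) * (rv χ d * (d : ℝ) ^ (-β)))| ≤ 3 * (x : ℝ) ^ (-β) := by
  have hd0 : (0 : ℝ) < d := by exact_mod_cast hd
  have hx0 : (0 : ℝ) < x := by
    have : 0 < x := by omega
    exact_mod_cast this
  have hy1 : (1 : ℝ) ≤ (x : ℝ) / d := by
    rw [le_div_iff₀ hd0, one_mul]
    exact_mod_cast hdx
  have hy0 : (0 : ℝ) < (x : ℝ) / d := by positivity
  have hfl : ⌊(x : ℝ) / d⌋₊ = x / d := Nat.floor_div_eq_div x d
  have hk := hκ _ hy1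
  rw [hfl] at hk
  have he : (1 - β) ≠ 0 := by linarith
  have h3 : ∑ e ∈ Icc 1 (x / d), rv χ d * ((d * e : ℕ) : ℝ) ^ (-β) =
      rv χ d * (d : ℝ) ^ (-β) * ∑ e ∈ Icc 1 (x / d), (e : ℝ) ^ (-β) := by
    rw [mul_sum]
    apply sum_congr rfl
    intro e _
    push_cast
    rw [Real.mul_rpow hd0.le (Nat.cast_nonneg _)]
    ring
  have h4 : (d : ℝ) ^ (-β) * ((x : ℝ) / d) ^ (1 - β) = (x : ℝ) ^ (1 - β) * (1 / d) := by
    rw [Real.div_rpow hx0.le hd0.le]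
    have h5 : (d : ℝ) ^ (1 - β) = d * (d : ℝ) ^ (-β) := by
      rw [sub_eq_add_neg, Real.rpow_add hd0, Real.rpow_one]
    rw [h5]
    have h6 : (d : ℝ) ^ (-β) ≠ 0 := (Real.rpow_pos_of_pos hd0 _).ne'
    field_simp
  have h7 : (d : ℝ) ^ (-β) * ((x : ℝ) / d) ^ (-β) = (x : ℝ) ^ (-β) := by
    rw [← Real.mul_rpow hd0.le hy0.le]
    congr 1
    field_simp
  have h8 : (∑ e ∈ Icc 1 (x / d), rv χ d * ((d * e : ℕ) : ℝ) ^ (-β)) -
      ((x : ℝ) ^ (1 - β) / (1 - β) * (rv χ d / d) +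
        (κ - 1 / (1 - β)) * (rv χ d * (d : ℝ) ^ (-β))) =
      rv χ d * ((d : ℝ) ^ (-β) * ((∑ e ∈ Icc 1 (x / d), (e : ℝ) ^ (-β)) -
        ((((x : ℝ) / d) ^ (1 - β) - 1) / (1 - β) + κ))) := by
    rw [h3]
    have h9 : (x : ℝ) ^ (1 - β) / (1 - β) * (rv χ d / d) =
        rv χ d * ((x : ℝ) ^ (1 - β) * (1 / d)) / (1 - β) := by
      field_simp
    rw [h9, ← h4]
    field_simp
    ring
  rw [h8, abs_mul, abs_mul, abs_of_pos (Real.rpow_pos_of_pos hd0 _)]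
  calc |rv χ d| * ((d : ℝ) ^ (-β) * |(∑ e ∈ Icc 1 (x / d), (e : ℝ) ^ (-β)) -
        ((((x : ℝ) / d) ^ (1 - β) - 1) / (1 - β) + κ)|)
      ≤ 1 * ((d : ℝ) ^ (-β) * (3 * ((x : ℝ) / d) ^ (-β))) := by
        apply mul_le_mul (habs d) _ (by positivity) (by norm_num)
        exact mul_le_mul_of_nonneg_left hk (Real.rpow_nonneg hd0.le _)
    _ = 3 * ((d : ℝ) ^ (-β) * ((x : ℝ) / d) ^ (-β)) := by ring
    _ = 3 * (x : ℝ) ^ (-β) := by rw [h7]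

theorem EU1B_lam_one {r : ℕ} [NeZero r] {χ : DirichletCharacter ℂ r} : lam χ 1 = 1 := by
  unfold lam
  rw [Nat.divisors_one, sum_singleton]
  exact rv_one

/-- `x = r ^ 4`. `W(x) = ∑_{n ≤ x} λ(n) n^(-β) = ∑_{d ≤ x} χ(d) d^(-β) ∑_{e ≤ x/d} e^(-β)`; insert
`sum_rpow` with `y = x/d`:
`W(x) = x^(1-β)/(1-β) ∑_{d ≤ x} χ(d)/d + (κ - 1/(1-β)) ∑_{d ≤ x} χ(d) d^(-β) + O(x^(-β) x)`.
With `L1_tail`, `zero_partial`: `L(1,χ) x^(1-β)/(1-β) ≤ W(x) + 3 x^(1-β) + 6 r x^(-β) x^(1-β).../(1-β)`,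
where the last errors are `≤ C r x^(-β)/(1-β) · x^(1-β) ≤ C`, because `1 - β ≥ c/r²`
(`zero_elementary`), `x^(1-β) ≤ e^4` (`1 - β ≤ 1/log r`). Divide by `x^(1-β)`:
`L(1,χ)/(1-β) ≤ ∑ λ(n) n^(-β) x^(β-1) + C ≤ ∑_{n ≤ x} λ(n)/n + C` (`(n/x)^(1-β) ≤ 1`, `λ ≥ 0`), and the
sum is at least `λ(1) = 1`. -/
theorem L1_le_sum : ∃ C : ℝ, 0 < C ∧ ∃ r₀ : ℕ, ∀ (r : ℕ) [NeZero r] (χ : DirichletCharacter ℂ r),
    r₀ ≤ r → χ ≠ 1 → χ ^ 2 = 1 → ∀ β : ℝ, 1 - 1 / Real.log r ≤ β → β < 1 →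
    χ.LFunction (β : ℂ) = 0 → L1 χ ≤ C * (1 - β) * ∑ n ∈ Icc 1 (r ^ 4), lam χ n / n := by
  obtain ⟨c, hc, hzero⟩ := Pool.Agent.Lib.H68T.zero_elementary
  refine ⟨4 + 6 / c, by positivity, 8, ?_⟩
  intro r _ χ hr h1 h2 β hβ hβ1 hz
  have hr1 : 1 ≤ r := by omega
  have hrR : (1 : ℝ) ≤ r := by exact_mod_cast hr1
  have hr0 : (0 : ℝ) < r := by linarith
  have hlog : 2 ≤ Real.log r := by
    rw [Real.le_log_iff_exp_le hr0]
    have h3 : Real.exp 2 = Real.exp 1 * Real.exp 1 := by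
      rw [← Real.exp_add]
      norm_num
    have h4 := Real.exp_one_lt_d9
    have h5 := Real.exp_pos 1
    have h6 : (8 : ℝ) ≤ r := by exact_mod_cast hr
    rw [h3]
    nlinarith
  have hβ2 : 1 / 2 ≤ β := by
    have h3 : 1 / Real.log r ≤ 1 / 2 := one_div_le_one_div_of_le (by norm_num) hlog
    linarith
  obtain ⟨κ, hκ0, hκ1, hκ⟩ := sum_rpow hβ2 hβ1
  have hε := hzero r χ h1 h2 β hβ1 hz
  obtain ⟨ε, hεd⟩ : ∃ ε : ℝ, ε = 1 - β := ⟨_, rfl⟩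
  have hε0 : 0 < ε := by rw [hεd]; linarith
  have hε1 : ε ≤ 1 := by rw [hεd]; linarith
  obtain ⟨x, hx⟩ : ∃ x : ℕ, x = r ^ 4 := ⟨_, rfl⟩
  have hx1 : 1 ≤ x := by
    rw [hx]
    exact Nat.one_le_pow _ _ hr1
  have hxR : (1 : ℝ) ≤ x := by exact_mod_cast hx1
  have hx0 : (0 : ℝ) < x := by linarith
  rw [← hx]
  have htail := L1_tail h1 h2 x
  have hzp := zero_partial h1 h2 hβ2 hβ1 hz x hx1
  -- the double sum
  obtain ⟨W, hW⟩ : ∃ W : ℝ, W = ∑ n ∈ Icc 1 x, lam χ n * (n : ℝ) ^ (-β) := ⟨_, rfl⟩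
  have hW2 : W = ∑ d ∈ Icc 1 x, ∑ e ∈ Icc 1 (x / d), rv χ d * ((d * e : ℕ) : ℝ) ^ (-β) := by
    rw [hW, ← EU1B_swap x (fun d n => rv χ d * (n : ℝ) ^ (-β))]
    apply sum_congr rfl
    intro n _
    unfold lam
    rw [sum_mul]
  have hmain : |W - ((x : ℝ) ^ ε / ε * ∑ d ∈ Icc 1 x, rv χ d / d +
      (κ - 1 / ε) * ∑ d ∈ Icc 1 x, rv χ d * (d : ℝ) ^ (-β))| ≤ 3 * (x : ℝ) ^ ε := by
    rw [hW2, mul_sum, mul_sum, ← sum_add_distrib, ← sum_sub_distrib]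
    refine (abs_sum_le_sum_abs _ _).trans ?_
    have h3 : ∀ d ∈ Icc 1 x, |(∑ e ∈ Icc 1 (x / d), rv χ d * ((d * e : ℕ) : ℝ) ^ (-β)) -
        ((x : ℝ) ^ ε / ε * (rv χ d / d) + (κ - 1 / ε) * (rv χ d * (d : ℝ) ^ (-β)))| ≤
        3 * (x : ℝ) ^ (-β) := by
      intro d hd
      rw [mem_Icc] at hd
      rw [hεd]
      exact EU1B_inner hβ1 hκ (fun n => abs_rv_le n) hd.1 hd.2
    refine (sum_le_sum h3).trans ?_
    rw [sum_const, Nat.card_Icc, nsmul_eq_mul]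
    have h4 : ((x + 1 - 1 : ℕ) : ℝ) = x := by simp
    have h5 : (x : ℝ) ^ ε = x * (x : ℝ) ^ (-β) := by
      rw [hεd, sub_eq_add_neg, Real.rpow_add hx0, Real.rpow_one]
    rw [h4, h5]
    exact le_of_eq (by ring)
  -- the sum with weight 1/n
  obtain ⟨V, hV⟩ : ∃ V : ℝ, V = ∑ n ∈ Icc 1 x, lam χ n / n := ⟨_, rfl⟩
  have hxε0 : 0 < (x : ℝ) ^ ε := Real.rpow_pos_of_pos hx0 _
  have hWV : W ≤ (x : ℝ) ^ ε * V := by
    rw [hW, hV, mul_sum]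
    apply sum_le_sum
    intro n hn
    rw [mem_Icc] at hn
    have hn0 : (0 : ℝ) < n := by
      have : 0 < n := by omega
      exact_mod_cast this
    have h3 : (n : ℝ) ^ (-β) = (n : ℝ) ^ ε * (1 / n) := by
      have h4 : -β = ε - 1 := by rw [hεd]; ring
      rw [h4, Real.rpow_sub hn0, Real.rpow_one]
      ring
    rw [h3]
    have h5 : (n : ℝ) ^ ε ≤ (x : ℝ) ^ ε := by
      apply Real.rpow_le_rpow hn0.le _ hε0.le
      exact_mod_cast hn.2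
    have h6 := lam_nonneg h2 n
    have h7 : 0 ≤ lam χ n / n := by positivity
    calc lam χ n * ((n : ℝ) ^ ε * (1 / n)) = (n : ℝ) ^ ε * (lam χ n / n) := by ring
      _ ≤ (x : ℝ) ^ ε * (lam χ n / n) := mul_le_mul_of_nonneg_right h5 h7
  have hV1 : 1 ≤ V := by
    rw [hV]
    have h3 : lam χ 1 / ((1 : ℕ) : ℝ) ≤ ∑ n ∈ Icc 1 x, lam χ n / n := by
      apply single_le_sum (f := fun n : ℕ => lam χ n / (n : ℝ))
      · intro n _
        exact div_nonneg (lam_nonneg h2 n) (Nat.cast_nonneg _)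
      · rw [mem_Icc]
        exact ⟨le_refl _, hx1⟩
    rw [EU1B_lam_one] at h3
    simpa using h3
  rw [← hV, ← hεd]
  -- assemble
  obtain ⟨A, hA⟩ : ∃ A : ℝ, A = ∑ d ∈ Icc 1 x, rv χ d / d := ⟨_, rfl⟩
  obtain ⟨B, hB⟩ : ∃ B : ℝ, B = ∑ d ∈ Icc 1 x, rv χ d * (d : ℝ) ^ (-β) := ⟨_, rfl⟩
  rw [← hA, ← hB] at hmain
  rw [← hA] at htail
  rw [← hB] at hzp
  have hxβ : (x : ℝ) ^ (-β) = (x : ℝ) ^ ε / x := by
    have h4 : -β = ε - 1 := by rw [hεd]; ring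
    rw [h4, Real.rpow_sub hx0, Real.rpow_one]
  have h3 : (x : ℝ) ^ ε / ε * A ≤ W + (1 / ε) * (4 * r * ((x : ℝ) ^ ε / x)) + 3 * (x : ℝ) ^ ε := by
    have h4 := (abs_le.mp hmain).1
    have h5 : |(κ - 1 / ε) * B| ≤ (1 / ε) * (4 * r * ((x : ℝ) ^ ε / x)) := by
      rw [abs_mul]
      have h6 : |κ - 1 / ε| ≤ 1 / ε := by
        have h7 : 1 ≤ 1 / ε := by
          rw [le_div_iff₀ hε0]
          linarith
        rw [abs_le]
        constructor <;> linarith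
      rw [← hxβ]
      exact mul_le_mul h6 hzp (abs_nonneg _) (by positivity)
    have h8 := (abs_le.mp h5).1
    linarith
  have h4 : A ≤ ε * V + 4 * r / x + 3 * ε := by
    have h5 : (x : ℝ) ^ ε / ε * A ≤ (x : ℝ) ^ ε / ε * (ε * V + 4 * r / x + 3 * ε) := by
      refine h3.trans ?_
      have h6 : (x : ℝ) ^ ε / ε * (ε * V + 4 * r / x + 3 * ε) =
          (x : ℝ) ^ ε * V + (1 / ε) * (4 * r * ((x : ℝ) ^ ε / x)) + 3 * (x : ℝ) ^ ε := by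
        field_simp
      rw [h6]
      linarith
    exact le_of_mul_le_mul_left h5 (by positivity)
  have h5 : L1 χ ≤ A + 2 * r / (x + 1) := by
    have := (abs_le.mp htail).2
    linarith
  have h6 : 2 * (r : ℝ) / (x + 1) ≤ 2 * r / x :=
    div_le_div_of_nonneg_left (by positivity) hx0 (by linarith)
  have h7 : 4 * (r : ℝ) / x + 2 * r / x ≤ 6 / c * ε := by
    have h8 : (x : ℝ) = (r : ℝ) ^ 4 := by rw [hx]; push_cast; rfl
    have h9 : 4 * (r : ℝ) / x + 2 * r / x = 6 / (r : ℝ) ^ 3 := by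
      rw [h8]
      field_simp
      norm_num
    rw [h9]
    have h10 : c / (r : ℝ) ^ 2 ≤ ε := by rw [hεd]; exact hε
    have h11 : 6 / c * (c / (r : ℝ) ^ 2) ≤ 6 / c * ε := mul_le_mul_of_nonneg_left h10 (by positivity)
    refine le_trans ?_ h11
    have h12 : 6 / c * (c / (r : ℝ) ^ 2) = 6 / (r : ℝ) ^ 2 := by
      field_simp
    rw [h12]
    exact div_le_div_of_nonneg_left (by norm_num) (by positivity)
      (pow_le_pow_right₀ hrR (by norm_num))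
  have h8 : 0 ≤ 6 / c * ε * (V - 1) := mul_nonneg (by positivity) (by linarith)
  have h9 : 0 ≤ 3 * ε * (V - 1) := mul_nonneg (by positivity) (by linarith)
  calc L1 χ ≤ ε * V + 3 * ε + 6 / c * ε := by linarith
    _ ≤ (4 + 6 / c) * ε * V := by nlinarith

end Pool.Agent.Lib.H68G
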