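import Pool.Agent.Lib.H68G.RV

/-!
# Chunk LA1 (M): the hyperbola method in a class `c` with `χ(c) = 1`
-/

open Finset

namespace Pool.Agent.Lib.H68G

variable {r : ℕ} [NeZero r] {χ : DirichletCharacter ℂ r}

/-- If `χ(m) = 1` then `χ(m/e) = χ(e)` for `e ∣ m` (`χ(e) χ(m/e) = 1`, values `±1`). Pair the divisors
`e` and `m/e`: those with `e² < m` and those with `e² > m` have the same sum, and there is at most
one `e` with `e² = m`. -/
theorem lam_pair (h2 : χ ^ 2 = 1) {m : ℕ} (hm : 1 ≤ m) (hχ : χ (m : ZMod r) = 1) :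
    |lam χ m - 2 * ∑ e ∈ m.divisors.filter (fun e => e ^ 2 < m), rv χ e| ≤
      if IsSquare m then 1 else 0 := by
  have hm0 : m ≠ 0 := by omega
  have hrm : rv χ m = 1 := by
    unfold rv
    rw [hχ, Complex.one_re]
  have hcop : m.Coprime r := by
    by_contra h
    rw [rv_eq_zero h] at hrm
    norm_num at hrm
  have hsym : ∀ e ∈ m.divisors, rv χ (m / e) = rv χ e := by
    intro e he
    have hed := Nat.dvd_of_mem_divisors he
    have h1 : rv χ e * rv χ (m / e) = 1 := by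
      rw [← rv_mul h2, Nat.mul_div_cancel' hed, hrm]
    have hec : e.Coprime r := Nat.Coprime.coprime_dvd_left hed hcop
    rcases rv_cases h2 hec with h | h
    · rw [h] at h1 ⊢
      linarith
    · rw [h] at h1 ⊢
      linarith
  have hsplit : lam χ m = ∑ e ∈ m.divisors.filter (fun e => e ^ 2 < m), rv χ e +
      (∑ e ∈ m.divisors.filter (fun e => m < e ^ 2), rv χ e +
      ∑ e ∈ m.divisors.filter (fun e => e ^ 2 = m), rv χ e) := by
    unfold lam
    rw [← sum_filter_add_sum_filter_not m.divisors (fun e => e ^ 2 < m)]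
    congr 1
    rw [← sum_filter_add_sum_filter_not (m.divisors.filter (fun e => ¬ e ^ 2 < m))
      (fun e => m < e ^ 2)]
    congr 1
    · rw [filter_filter]
      congr 1
      ext e
      simp only [mem_filter]
      constructor
      · rintro ⟨h1, h2, h3⟩
        exact ⟨h1, h3⟩
      · rintro ⟨h1, h3⟩
        exact ⟨h1, by omega, h3⟩
    · rw [filter_filter]
      congr 1
      ext e
      simp only [mem_filter]
      constructor
      · rintro ⟨h1, h2, h3⟩
        exact ⟨h1, by omega⟩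
      · rintro ⟨h1, h3⟩
        exact ⟨h1, by omega, by omega⟩
  have hpair : ∑ e ∈ m.divisors.filter (fun e => m < e ^ 2), rv χ e =
      ∑ e ∈ m.divisors.filter (fun e => e ^ 2 < m), rv χ e := by
    apply sum_nbij' (fun e => m / e) (fun e => m / e)
    · intro e he
      rw [mem_filter] at he ⊢
      have hed := Nat.dvd_of_mem_divisors he.1
      refine ⟨Nat.mem_divisors.2 ⟨Nat.div_dvd_of_dvd hed, hm0⟩, ?_⟩
      obtain ⟨f, rfl⟩ := hed
      have he0 : 0 < e := by
        rcases Nat.eq_zero_or_pos e with h | h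
        · rw [h] at hm0
          simp at hm0
        · exact h
      rw [Nat.mul_div_cancel_left f he0]
      have h3 := he.2
      rw [pow_two] at h3 ⊢
      have h4 : f < e := Nat.lt_of_mul_lt_mul_left h3
      have hf0 : 0 < f := by
        rcases Nat.eq_zero_or_pos f with h | h
        · rw [h] at hm0
          simp at hm0
        · exact h
      exact Nat.mul_lt_mul_of_pos_right h4 hf0
    · intro e he
      rw [mem_filter] at he ⊢
      have hed := Nat.dvd_of_mem_divisors he.1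
      refine ⟨Nat.mem_divisors.2 ⟨Nat.div_dvd_of_dvd hed, hm0⟩, ?_⟩
      obtain ⟨f, rfl⟩ := hed
      have he0 : 0 < e := by
        rcases Nat.eq_zero_or_pos e with h | h
        · rw [h] at hm0
          simp at hm0
        · exact h
      rw [Nat.mul_div_cancel_left f he0]
      have h3 := he.2
      rw [pow_two] at h3 ⊢
      have h4 : e < f := Nat.lt_of_mul_lt_mul_left h3
      have hf0 : 0 < f := by omega
      exact Nat.mul_lt_mul_of_pos_right h4 hf0
    · intro e he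
      exact Nat.div_div_self (Nat.dvd_of_mem_divisors (mem_filter.1 he).1) hm0
    · intro e he
      exact Nat.div_div_self (Nat.dvd_of_mem_divisors (mem_filter.1 he).1) hm0
    · intro e he
      exact (hsym e (mem_filter.1 he).1).symm
  have hsq : |∑ e ∈ m.divisors.filter (fun e => e ^ 2 = m), rv χ e| ≤
      if IsSquare m then 1 else 0 := by
    by_cases hs : IsSquare m
    · rw [if_pos hs]
      obtain ⟨t, rfl⟩ := hs
      have : (t * t).divisors.filter (fun e => e ^ 2 = t * t) ⊆ {t} := by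
        intro e he
        rw [mem_filter] at he
        rw [mem_singleton]
        have := he.2
        rw [← pow_two] at this
        exact (Nat.pow_left_injective (n := 2) (by norm_num)) this
      refine (abs_sum_le_sum_abs _ _).trans ?_
      refine (sum_le_sum_of_subset_of_nonneg this (fun _ _ _ => abs_nonneg _)).trans ?_
      rw [sum_singleton]
      exact abs_rv_le t
    · rw [if_neg hs]
      have : m.divisors.filter (fun e => e ^ 2 = m) = ∅ := by
        rw [filter_eq_empty_iff]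
        intro e _ he
        exact hs ⟨e, by rw [← he, pow_two]⟩
      rw [this, sum_empty, abs_zero]
  rw [hsplit, hpair]
  have : ∀ a b : ℝ, a + (a + b) - 2 * a = b := fun a b => by ring
  rw [this]
  exact hsq

/-- The number of `m` in `(e², T]` with `m ≡ c` mod `r` and `[e,d] ∣ m`, for `e`, `d` coprime to `r`:
one class modulo `r [e,d]` (Chinese remainder theorem), so `(T - e²)/(r [e,d]) + θ`, `|θ| ≤ 1`. -/
theorem count_class (c : ZMod r) {T e d : ℕ} (he : 1 ≤ e) (hd : 1 ≤ d) (her : e.Coprime r)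
    (hdr : d.Coprime r) (heT : e ^ 2 ≤ T) :
    |((((Ioc (e ^ 2) T).filter fun m : ℕ => (m : ZMod r) = c ∧ e ∣ m ∧ d ∣ m).card : ℕ) : ℝ) -
      ((T : ℝ) - (e : ℝ) ^ 2) / (r * (Nat.lcm e d : ℕ))| ≤ 1 := by
  have hr0 : 0 < r := Nat.pos_of_ne_zero (NeZero.ne r)
  have hL0 : 0 < Nat.lcm e d := Nat.lcm_pos he hd
  have hLr : r.Coprime (Nat.lcm e d) := by
    apply Nat.Coprime.symm
    exact Nat.Coprime.coprime_dvd_left (Nat.lcm_dvd_mul e d) (Nat.Coprime.mul_left her hdr)
  obtain ⟨v, hv1, hv2⟩ := Nat.chineseRemainder hLr c.val 0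
  have hset : (Ioc (e ^ 2) T).filter (fun m : ℕ => (m : ZMod r) = c ∧ e ∣ m ∧ d ∣ m) =
      (Ioc (e ^ 2) T).filter (fun m : ℕ => m ≡ v [MOD r * Nat.lcm e d]) := by
    apply filter_congr
    intro m _
    rw [← Nat.modEq_and_modEq_iff_modEq_mul hLr]
    have h1 : (m : ZMod r) = c ↔ m ≡ v [MOD r] := by
      have hc : ((c.val : ℕ) : ZMod r) = c := ZMod.natCast_zmod_val c
      constructor
      · intro h
        refine Nat.ModEq.trans ?_ hv1.symm
        rw [← ZMod.natCast_eq_natCast_iff, h, hc]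
      · intro h
        rw [← hc, ZMod.natCast_eq_natCast_iff]
        exact h.trans hv1
    have h2 : (e ∣ m ∧ d ∣ m) ↔ m ≡ v [MOD Nat.lcm e d] := by
      rw [← Nat.lcm_dvd_iff]
      constructor
      · intro h
        exact ((Nat.modEq_zero_iff_dvd.2 h)).trans hv2.symm
      · intro h
        exact Nat.modEq_zero_iff_dvd.1 (h.trans hv2)
    rw [h1, h2]
  rw [hset]
  have hn0 : 0 < r * Nat.lcm e d := Nat.mul_pos hr0 hL0
  have hcard := Nat.Ioc_filter_modEq_card (e ^ 2) T hn0 v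
  set n := r * Nat.lcm e d with hn
  set A := ((Ioc (e ^ 2) T).filter (fun m : ℕ => m ≡ v [MOD n])).card with hA
  have hcast : (r : ℝ) * ((Nat.lcm e d : ℕ) : ℝ) = ((n : ℕ) : ℝ) := by
    rw [hn]
    push_cast
    ring
  rw [hcast]
  have hle : ⌊(((e ^ 2 : ℕ) : ℚ) - v) / (n : ℚ)⌋ ≤ ⌊((T : ℚ) - v) / (n : ℚ)⌋ := by
    apply Int.floor_le_floor
    have hnq : (0 : ℚ) < n := by exact_mod_cast hn0
    have : ((e ^ 2 : ℕ) : ℚ) ≤ T := by exact_mod_cast heT
    gcongr
  rw [max_eq_left (by linarith)] at hcard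
  have hnr : (0 : ℝ) < n := by exact_mod_cast hn0
  have hnq : (0 : ℚ) < n := by exact_mod_cast hn0
  have hq : |((A : ℕ) : ℚ) - ((T : ℚ) - (e : ℚ) ^ 2) / n| ≤ 1 := by
    have hA' : ((A : ℕ) : ℚ) = ((⌊((T : ℚ) - v) / (n : ℚ)⌋ : ℤ) : ℚ) -
        ((⌊(((e ^ 2 : ℕ) : ℚ) - v) / (n : ℚ)⌋ : ℤ) : ℚ) := by
      have := congrArg (fun z : ℤ => (z : ℚ)) hcard
      push_cast at this ⊢
      exact this
    have h1 := Int.floor_le (((T : ℚ) - v) / (n : ℚ))
    have h2 := Int.lt_floor_add_one (((T : ℚ) - v) / (n : ℚ))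
    have h3 := Int.floor_le ((((e ^ 2 : ℕ) : ℚ) - v) / (n : ℚ))
    have h4 := Int.lt_floor_add_one ((((e ^ 2 : ℕ) : ℚ) - v) / (n : ℚ))
    have h5 : ((T : ℚ) - (e : ℚ) ^ 2) / n = ((T : ℚ) - v) / (n : ℚ) -
        (((e ^ 2 : ℕ) : ℚ) - v) / (n : ℚ) := by
      push_cast
      ring
    rw [hA', h5, abs_le]
    constructor <;> linarith
  have : |(((A : ℕ) : ℚ) - ((T : ℚ) - (e : ℚ) ^ 2) / n : ℚ)| ≤ (1 : ℚ) := hq
  have h6 : ((|(((A : ℕ) : ℚ) - ((T : ℚ) - (e : ℚ) ^ 2) / n : ℚ)| : ℚ) : ℝ) ≤ ((1 : ℚ) : ℝ) :=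
    Rat.cast_le.2 this
  push_cast at h6
  exact h6

/-- Summation over the class: exchange the sums over `m` and `e` in `lam_pair`, use `count_class`
for every `e ≤ √T` coprime to `r` (`rv χ e = 0` otherwise; `e² < m ≤ T`), and `⌊√T⌋` squares. -/
theorem lam_class_sum (h2 : χ ^ 2 = 1) {c : ZMod r} (hc : χ c = 1) (T d : ℕ) (hd : 1 ≤ d)
    (hdr : d.Coprime r) :
    |(∑ m ∈ (Icc 1 T).filter (fun m : ℕ => (m : ZMod r) = c ∧ d ∣ m), lam χ m) -
      2 / r * ∑ e ∈ Icc 1 (Nat.sqrt T), rv χ e * (((T : ℝ) - (e : ℝ) ^ 2) / (Nat.lcm e d : ℕ))| ≤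
        3 * Real.sqrt T := by
  set S := (Icc 1 T).filter (fun m : ℕ => (m : ZMod r) = c ∧ d ∣ m) with hS
  have hr0 : (0 : ℝ) < r := by exact_mod_cast Nat.pos_of_ne_zero (NeZero.ne r)
  have hsqrt : ((Nat.sqrt T : ℕ) : ℝ) ≤ Real.sqrt T := by
    exact Real.nat_sqrt_le_real_sqrt
  -- step 1
  have hA : |(∑ m ∈ S, lam χ m) - 2 * ∑ m ∈ S, ∑ e ∈ m.divisors.filter (fun e => e ^ 2 < m), rv χ e| ≤
      Real.sqrt T := by
    rw [mul_sum, ← sum_sub_distrib]
    refine (abs_sum_le_sum_abs _ _).trans ?_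
    have h1 : ∑ m ∈ S, |lam χ m - 2 * ∑ e ∈ m.divisors.filter (fun e => e ^ 2 < m), rv χ e| ≤
        ∑ m ∈ S, (if IsSquare m then (1 : ℝ) else 0) := by
      apply sum_le_sum
      intro m hm
      rw [hS, mem_filter, mem_Icc] at hm
      apply lam_pair h2 hm.1.1
      rw [hm.2.1, hc]
    refine h1.trans (le_trans ?_ hsqrt)
    rw [← sum_filter, sum_const, nsmul_eq_mul, mul_one]
    norm_cast
    calc (S.filter (fun m => IsSquare m)).card
        ≤ ((Icc 1 (Nat.sqrt T)).image (fun t => t * t)).card := by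
          apply card_le_card
          intro m hm
          rw [mem_filter, hS, mem_filter, mem_Icc] at hm
          obtain ⟨⟨⟨h1, h2⟩, -⟩, t, rfl⟩ := hm
          rw [mem_image]
          refine ⟨t, ?_, rfl⟩
          rw [mem_Icc]
          constructor
          · by_contra h
            have : t = 0 := by omega
            rw [this] at h1
            omega
          · exact Nat.le_sqrt.2 h2
      _ ≤ (Icc 1 (Nat.sqrt T)).card := card_image_le
      _ = Nat.sqrt T := by simp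
  -- step 2
  have hB : ∑ m ∈ S, ∑ e ∈ m.divisors.filter (fun e => e ^ 2 < m), rv χ e =
      ∑ e ∈ Icc 1 (Nat.sqrt T), rv χ e *
        ((((Ioc (e ^ 2) T).filter fun m : ℕ => (m : ZMod r) = c ∧ e ∣ m ∧ d ∣ m).card : ℕ) : ℝ) := by
    have h1 : ∀ m ∈ S, ∑ e ∈ m.divisors.filter (fun e => e ^ 2 < m), rv χ e =
        ∑ e ∈ Icc 1 (Nat.sqrt T), if (e ∣ m ∧ e ^ 2 < m) then rv χ e else 0 := by
      intro m hm
      rw [hS, mem_filter, mem_Icc] at hm
      rw [← sum_filter]
      apply sum_congr ?_ (fun _ _ => rfl)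
      ext e
      rw [mem_filter, Nat.mem_divisors, mem_filter, mem_Icc]
      constructor
      · rintro ⟨⟨h1, h2⟩, h3⟩
        refine ⟨⟨Nat.pos_of_dvd_of_pos h1 (by omega), ?_⟩, h1, h3⟩
        rw [Nat.le_sqrt, ← pow_two]
        omega
      · rintro ⟨⟨h1, h2⟩, h3, h4⟩
        exact ⟨⟨h3, by omega⟩, h4⟩
    rw [sum_congr rfl h1, sum_comm]
    apply sum_congr rfl
    intro e he
    rw [← sum_filter, sum_const, nsmul_eq_mul, mul_comm]
    congr 2
    congr 1
    ext m
    rw [hS]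
    simp only [mem_filter, mem_Icc, mem_Ioc]
    constructor
    · rintro ⟨⟨⟨h1, h2⟩, h3, h4⟩, h5, h6⟩
      exact ⟨⟨h6, h2⟩, h3, h5, h4⟩
    · rintro ⟨⟨h6, h2⟩, h3, h5, h4⟩
      exact ⟨⟨⟨by omega, h2⟩, h3, h4⟩, h5, h6⟩
  -- step 3
  have hC : |∑ e ∈ Icc 1 (Nat.sqrt T), rv χ e *
        ((((Ioc (e ^ 2) T).filter fun m : ℕ => (m : ZMod r) = c ∧ e ∣ m ∧ d ∣ m).card : ℕ) : ℝ) -
      1 / r * ∑ e ∈ Icc 1 (Nat.sqrt T), rv χ e * (((T : ℝ) - (e : ℝ) ^ 2) / (Nat.lcm e d : ℕ))| ≤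
      Real.sqrt T := by
    rw [mul_sum, ← sum_sub_distrib]
    refine (abs_sum_le_sum_abs _ _).trans ?_
    have h1 : ∀ e ∈ Icc 1 (Nat.sqrt T), |rv χ e *
        ((((Ioc (e ^ 2) T).filter fun m : ℕ => (m : ZMod r) = c ∧ e ∣ m ∧ d ∣ m).card : ℕ) : ℝ) -
      1 / r * (rv χ e * (((T : ℝ) - (e : ℝ) ^ 2) / (Nat.lcm e d : ℕ)))| ≤ 1 := by
      intro e he
      rw [mem_Icc] at he
      by_cases her : e.Coprime r
      · have heT : e ^ 2 ≤ T := by
          rw [pow_two]
          exact Nat.le_sqrt.1 he.2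
        have h3 := count_class c he.1 hd her hdr heT
        have hL0 : (0 : ℝ) < ((Nat.lcm e d : ℕ) : ℝ) := by
          exact_mod_cast Nat.lcm_pos he.1 hd
        have h4 : rv χ e *
            ((((Ioc (e ^ 2) T).filter fun m : ℕ => (m : ZMod r) = c ∧ e ∣ m ∧ d ∣ m).card : ℕ) : ℝ) -
            1 / r * (rv χ e * (((T : ℝ) - (e : ℝ) ^ 2) / (Nat.lcm e d : ℕ))) = rv χ e *
            (((((Ioc (e ^ 2) T).filter fun m : ℕ => (m : ZMod r) = c ∧ e ∣ m ∧ d ∣ m).card : ℕ) : ℝ) -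
            ((T : ℝ) - (e : ℝ) ^ 2) / (r * (Nat.lcm e d : ℕ))) := by
          field_simp
        rw [h4, abs_mul]
        calc |rv χ e| * _ ≤ 1 * 1 := by
              apply mul_le_mul (abs_rv_le e) h3 (abs_nonneg _) zero_le_one
          _ = 1 := one_mul 1
      · rw [rv_eq_zero her, zero_mul, zero_mul, mul_zero, sub_zero, abs_zero]
        exact zero_le_one
    refine (sum_le_sum h1).trans ?_
    rw [sum_const, nsmul_eq_mul, mul_one, Nat.card_Icc, Nat.add_sub_cancel]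
    exact hsqrt
  rw [hB] at hA
  set P := ∑ e ∈ Icc 1 (Nat.sqrt T), rv χ e *
        ((((Ioc (e ^ 2) T).filter fun m : ℕ => (m : ZMod r) = c ∧ e ∣ m ∧ d ∣ m).card : ℕ) : ℝ)
  set Q := ∑ e ∈ Icc 1 (Nat.sqrt T), rv χ e * (((T : ℝ) - (e : ℝ) ^ 2) / (Nat.lcm e d : ℕ))
  set R := ∑ m ∈ S, lam χ m
  have h7 : (2 : ℝ) / r * Q = 2 * (1 / r * Q) := by ring
  rw [h7]
  rw [abs_le] at hA hC ⊢
  constructor <;> linarith [hA.1, hA.2, hC.1, hC.2]

end Pool.Agent.Lib.H68G
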