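import Pool.Agent.Lib.H68G.RV

/-!
# Chunk LA2 (M): the main term of the hyperbola method
-/

open Finset

namespace Pool.Agent.Lib.H68G

variable {r : ℕ} [NeZero r] {χ : DirichletCharacter ℂ r}

/-- The density function, `g(p) = (1 + χ(p)(1 - 1/p))/p`. -/
noncomputable def nuG {r : ℕ} (χ : DirichletCharacter ℂ r) : ArithmeticFunction ℝ :=
  ArithmeticFunction.prodPrimeFactors fun p : ℕ => (1 + rv χ p * (1 - 1 / (p : ℝ))) / p

/-- `φ(m) χ(m)/m` -/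
noncomputable def LA2_F {r : ℕ} (χ : DirichletCharacter ℂ r) : ArithmeticFunction ℝ :=
  ⟨fun m => (Nat.totient m : ℝ) * rv χ m / m, by simp⟩

theorem LA2_F_apply {r : ℕ} (χ : DirichletCharacter ℂ r) (m : ℕ) :
    LA2_F χ m = (Nat.totient m : ℝ) * rv χ m / m := rfl

theorem LA2_F_mult (h2 : χ ^ 2 = 1) : (LA2_F χ).IsMultiplicative := by
  constructor
  · rw [LA2_F_apply]
    have := rv_one (χ := χ)
    simp [this]
  · intro m n hmn
    rw [LA2_F_apply, LA2_F_apply, LA2_F_apply, Nat.totient_mul hmn, rv_mul h2]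
    push_cast
    rw [div_mul_div_comm]
    congr 1
    ring

/-- For squarefree `d`: `(1/d) ∑_{f ∣ d} φ(f) χ(f)/f = ∏_{p ∣ d} (1 + (p-1) χ(p)/p)/p`. -/
theorem nuG_eq (h2 : χ ^ 2 = 1) {d : ℕ} (hd : Squarefree d) :
    nuG χ d = (1 / (d : ℝ)) * ∑ f ∈ d.divisors, (Nat.totient f : ℝ) * rv χ f / f := by
  have h0 : d ≠ 0 := hd.ne_zero
  have h1 := (LA2_F_mult h2).prodPrimeFactors_one_add_of_squarefree hd
  have h3 : ∑ f ∈ d.divisors, (Nat.totient f : ℝ) * rv χ f / f =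
      ∏ p ∈ d.primeFactors, (1 + LA2_F χ p) := by
    rw [h1]
    rfl
  rw [h3]
  unfold nuG
  rw [ArithmeticFunction.prodPrimeFactors_apply h0, prod_div_distrib]
  have h4 : (∏ p ∈ d.primeFactors, (p : ℝ)) = d := by
    rw [← Nat.cast_prod, Nat.prod_primeFactors_of_squarefree hd]
  rw [h4]
  have h5 : ∏ p ∈ d.primeFactors, (1 + rv χ p * (1 - 1 / (p : ℝ))) =
      ∏ p ∈ d.primeFactors, (1 + LA2_F χ p) := by
    apply prod_congr rfl
    intro p hp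
    have hpp := Nat.prime_of_mem_primeFactors hp
    have hp0 : (p : ℝ) ≠ 0 := by exact_mod_cast hpp.ne_zero
    rw [LA2_F_apply, Nat.totient_prime hpp, Nat.cast_sub hpp.one_le]
    push_cast
    field_simp
  rw [h5]
  ring

theorem LA2_sum_dvd (n f : ℕ) (hf : 1 ≤ f) (G : ℕ → ℝ) :
    ∑ e ∈ (Icc 1 n).filter (fun e => f ∣ e), G e = ∑ k ∈ Icc 1 (n / f), G (f * k) := by
  refine sum_nbij' (fun e => e / f) (fun k => f * k) ?_ ?_ ?_ ?_ ?_
  · intro e he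
    rw [mem_filter, mem_Icc] at he
    obtain ⟨⟨h1, h2⟩, k, rfl⟩ := he
    rw [Nat.mul_div_cancel_left _ hf, mem_Icc]
    refine ⟨?_, ?_⟩
    · rcases Nat.eq_zero_or_pos k with h | h
      · subst h
        omega
      · exact h
    · rw [Nat.le_div_iff_mul_le hf, mul_comm]
      exact h2
  · intro k hk
    rw [mem_Icc, Nat.le_div_iff_mul_le hf] at hk
    rw [mem_filter, mem_Icc]
    refine ⟨⟨Nat.mul_pos hf hk.1, ?_⟩, dvd_mul_right _ _⟩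
    rw [mul_comm]
    exact hk.2
  · intro e he
    rw [mem_filter] at he
    exact Nat.mul_div_cancel' he.2
  · intro k _
    exact Nat.mul_div_cancel_left _ hf
  · intro e he
    rw [mem_filter] at he
    rw [Nat.mul_div_cancel' he.2]

theorem LA2_gcd (e d : ℕ) (hd : d ≠ 0) :
    ((Nat.gcd e d : ℕ) : ℝ) = ∑ f ∈ d.divisors.filter (fun f => f ∣ e), (Nat.totient f : ℝ) := by
  have h1 : d.divisors.filter (fun f => f ∣ e) = (Nat.gcd e d).divisors := by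
    ext f
    rw [mem_filter, Nat.mem_divisors, Nat.mem_divisors, Nat.dvd_gcd_iff]
    constructor
    · rintro ⟨⟨h1, -⟩, h2⟩
      exact ⟨⟨h2, h1⟩, Nat.gcd_ne_zero_right hd⟩
    · rintro ⟨⟨h2, h1⟩, -⟩
      exact ⟨⟨h1, hd⟩, h2⟩
  rw [h1]
  have h2 := Nat.sum_totient (Nat.gcd e d)
  exact_mod_cast h2.symm

theorem LA2_lhs (T n d : ℕ) (hd : d ≠ 0) :
    ∑ e ∈ Icc 1 n, rv χ e * (((T : ℝ) - (e : ℝ) ^ 2) / (Nat.lcm e d : ℕ)) =
      (1 / (d : ℝ)) * ∑ f ∈ d.divisors, (Nat.totient f : ℝ) *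
        ∑ e ∈ (Icc 1 n).filter (fun e => f ∣ e), rv χ e * (((T : ℝ) - (e : ℝ) ^ 2) / e) := by
  have hd0 : (d : ℝ) ≠ 0 := by exact_mod_cast hd
  have h1 : ∀ e ∈ Icc 1 n, rv χ e * (((T : ℝ) - (e : ℝ) ^ 2) / (Nat.lcm e d : ℕ)) =
      ∑ f ∈ d.divisors, (1 / (d : ℝ)) * (if f ∣ e then
        (Nat.totient f : ℝ) * (rv χ e * (((T : ℝ) - (e : ℝ) ^ 2) / e)) else 0) := by
    intro e he
    rw [mem_Icc] at he
    have he0 : (e : ℝ) ≠ 0 := by
      have : e ≠ 0 := by omega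
      exact_mod_cast this
    have hl0 : ((Nat.lcm e d : ℕ) : ℝ) ≠ 0 := by
      have : Nat.lcm e d ≠ 0 := Nat.lcm_ne_zero (by omega) hd
      exact_mod_cast this
    rw [← mul_sum, ← sum_filter, ← sum_mul, ← LA2_gcd e d hd]
    have h2 : ((Nat.gcd e d : ℕ) : ℝ) * ((Nat.lcm e d : ℕ) : ℝ) = e * d := by
      have := Nat.gcd_mul_lcm e d
      exact_mod_cast this
    have h3 : ((Nat.gcd e d : ℕ) : ℝ) = e * d / ((Nat.lcm e d : ℕ) : ℝ) := by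
      rw [eq_div_iff hl0]
      exact h2
    rw [h3]
    field_simp
  rw [sum_congr rfl h1, sum_comm, mul_sum]
  apply sum_congr rfl
  intro f _
  rw [← mul_sum, ← sum_filter, ← mul_sum]

theorem LA2_inner (h1 : χ ≠ 1) (h2 : χ ^ 2 = 1) (T f : ℕ) (hf : 1 ≤ f) :
    |(∑ e ∈ (Icc 1 (Nat.sqrt T)).filter (fun e => f ∣ e), rv χ e * (((T : ℝ) - (e : ℝ) ^ 2) / e)) -
      T * L1 χ * (rv χ f / f)| ≤ 4 * r * Real.sqrt T := by
  have hf0 : (0 : ℝ) < f := by exact_mod_cast hf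
  set E : ℕ := Nat.sqrt T / f with hE
  have hr0 : (0 : ℝ) ≤ r := Nat.cast_nonneg _
  rw [LA2_sum_dvd _ _ hf]
  have h3 : ∑ k ∈ Icc 1 E, rv χ (f * k) * (((T : ℝ) - ((f * k : ℕ) : ℝ) ^ 2) / ((f * k : ℕ) : ℝ)) =
      rv χ f / f * (T * ∑ k ∈ Icc 1 E, rv χ k / k - (f : ℝ) ^ 2 * ∑ k ∈ Icc 1 E, rv χ k * k) := by
    rw [mul_sum, mul_sum, ← sum_sub_distrib, mul_sum]
    apply sum_congr rfl
    intro k hk
    rw [mem_Icc] at hk
    have hk0 : (k : ℝ) ≠ 0 := by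
      have : k ≠ 0 := by omega
      exact_mod_cast this
    rw [rv_mul h2]
    push_cast
    field_simp
  rw [h3]
  have h4 : rv χ f / f * (T * ∑ k ∈ Icc 1 E, rv χ k / k - (f : ℝ) ^ 2 * ∑ k ∈ Icc 1 E, rv χ k * k) -
      T * L1 χ * (rv χ f / f) = rv χ f / f * (-(T * (L1 χ - ∑ k ∈ Icc 1 E, rv χ k / k)) -
        (f : ℝ) ^ 2 * ∑ k ∈ Icc 1 E, rv χ k * k) := by ring
  rw [h4, abs_mul, abs_div, abs_of_pos hf0]
  have h5 : |L1 χ - ∑ k ∈ Icc 1 E, rv χ k / k| ≤ 2 * r / (E + 1) := L1_tail h1 h2 E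
  have h6 : |∑ k ∈ Icc 1 E, rv χ k * k| ≤ 2 * r * E := rv_wsum h1 E
  have h7 : |(-(T * (L1 χ - ∑ k ∈ Icc 1 E, rv χ k / k)) -
        (f : ℝ) ^ 2 * ∑ k ∈ Icc 1 E, rv χ k * k)| ≤
      T * (2 * r / (E + 1)) + (f : ℝ) ^ 2 * (2 * r * E) := by
    refine (abs_sub _ _).trans ?_
    rw [abs_neg, abs_mul, abs_mul, abs_of_nonneg (Nat.cast_nonneg T),
      abs_of_nonneg (by positivity : (0 : ℝ) ≤ (f : ℝ) ^ 2)]
    exact add_le_add (mul_le_mul_of_nonneg_left h5 (Nat.cast_nonneg _))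
      (mul_le_mul_of_nonneg_left h6 (by positivity))
  have hsq : Real.sqrt T < (f : ℝ) * ((E : ℝ) + 1) := by
    have h8 : Nat.sqrt T + 1 ≤ f * (E + 1) := by
      have h9 := Nat.div_add_mod (Nat.sqrt T) f
      have h10 := Nat.mod_lt (Nat.sqrt T) (by omega : 0 < f)
      rw [← hE] at h9
      have h11 : f * (E + 1) = f * E + f := by ring
      omega
    have h12 : Real.sqrt T < (Nat.sqrt T : ℝ) + 1 := Real.real_sqrt_lt_nat_sqrt_succ
    have h13 : ((Nat.sqrt T : ℝ) + 1) ≤ (f : ℝ) * ((E : ℝ) + 1) := by exact_mod_cast h8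
    linarith
  have hsT : Real.sqrt T * Real.sqrt T = T := Real.mul_self_sqrt (Nat.cast_nonneg _)
  have hs0 : 0 ≤ Real.sqrt (T : ℝ) := Real.sqrt_nonneg _
  have h14 : T * (2 * r / ((E : ℝ) + 1)) ≤ 2 * r * f * Real.sqrt T := by
    rw [← mul_div_assoc, div_le_iff₀ (by positivity)]
    have h15 : (T : ℝ) ≤ f * (E + 1) * Real.sqrt T := by
      calc (T : ℝ) = Real.sqrt T * Real.sqrt T := hsT.symm
        _ ≤ f * (E + 1) * Real.sqrt T := mul_le_mul_of_nonneg_right hsq.le hs0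
    have h16 := mul_le_mul_of_nonneg_left h15 (by positivity : (0 : ℝ) ≤ 2 * r)
    nlinarith
  have h17 : (f : ℝ) * E ≤ Real.sqrt T := by
    have h18 : f * E ≤ Nat.sqrt T := Nat.mul_div_le _ _
    have h19 : ((f * E : ℕ) : ℝ) ≤ (Nat.sqrt T : ℝ) := by exact_mod_cast h18
    have h20 : (Nat.sqrt T : ℝ) ≤ Real.sqrt T := Real.nat_sqrt_le_real_sqrt
    push_cast at h19
    linarith
  have h21 : (f : ℝ) ^ 2 * (2 * r * E) ≤ 2 * r * f * Real.sqrt T := by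
    have := mul_le_mul_of_nonneg_left h17 (by positivity : (0 : ℝ) ≤ 2 * r * f)
    nlinarith
  have h22 : |rv χ f| ≤ 1 := abs_rv_le f
  calc |rv χ f| / f * |(-(T * (L1 χ - ∑ k ∈ Icc 1 E, rv χ k / k)) -
        (f : ℝ) ^ 2 * ∑ k ∈ Icc 1 E, rv χ k * k)|
      ≤ 1 / f * (2 * r * f * Real.sqrt T + 2 * r * f * Real.sqrt T) := by
        apply mul_le_mul (div_le_div_of_nonneg_right h22 hf0.le) (h7.trans (add_le_add h14 h21))
          (abs_nonneg _) (by positivity)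
    _ = 4 * r * Real.sqrt T := by
        field_simp
        ring

/-- `1/[e,d] = (e,d)/(e d)`, `(e,d) = ∑_{f ∣ (e,d)} φ(f)`; for fixed `f ∣ d` put `e = f e'`,
`e' ≤ E = ⌊√T⌋/f`:
`∑_{e'} χ(f) χ(e') (T - f² e'²)/(f e') = (χ(f)/f) (T ∑_{e' ≤ E} χ(e')/e' - f² ∑_{e' ≤ E} χ(e') e')`,
which is `(χ(f)/f) (T L(1,χ) + θ 4 r f √T)` by `L1_tail` (`E + 1 > √T/f`) and `rv_wsum`
(`E ≤ √T/f`). Sum over `f` with `φ(f)` and divide by `d`: `∑_{f ∣ d} φ(f) = d`, `nuG_eq`. -/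
theorem main_eval (h1 : χ ≠ 1) (h2 : χ ^ 2 = 1) (T : ℕ) {d : ℕ} (hd : Squarefree d) :
    |(∑ e ∈ Icc 1 (Nat.sqrt T), rv χ e * (((T : ℝ) - (e : ℝ) ^ 2) / (Nat.lcm e d : ℕ))) -
      T * L1 χ * nuG χ d| ≤ 4 * r * Real.sqrt T := by
  have hd0 : d ≠ 0 := hd.ne_zero
  have hdR : (0 : ℝ) < d := by
    have := Nat.pos_of_ne_zero hd0
    exact_mod_cast this
  rw [LA2_lhs T _ d hd0, nuG_eq h2 hd]
  have h3 : (1 / (d : ℝ)) * ∑ f ∈ d.divisors, (Nat.totient f : ℝ) *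
        ∑ e ∈ (Icc 1 (Nat.sqrt T)).filter (fun e => f ∣ e),
          rv χ e * (((T : ℝ) - (e : ℝ) ^ 2) / e) -
      T * L1 χ * ((1 / (d : ℝ)) * ∑ f ∈ d.divisors, (Nat.totient f : ℝ) * rv χ f / f) =
      (1 / (d : ℝ)) * ∑ f ∈ d.divisors, (Nat.totient f : ℝ) *
        ((∑ e ∈ (Icc 1 (Nat.sqrt T)).filter (fun e => f ∣ e),
          rv χ e * (((T : ℝ) - (e : ℝ) ^ 2) / e)) - T * L1 χ * (rv χ f / f)) := by
    simp_rw [mul_sub, sum_sub_distrib, mul_sub, mul_sum]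
    congr 1
    apply sum_congr rfl
    intro f _
    ring
  rw [h3, abs_mul, abs_of_pos (by positivity : (0 : ℝ) < 1 / (d : ℝ))]
  have h4 : |∑ f ∈ d.divisors, (Nat.totient f : ℝ) *
        ((∑ e ∈ (Icc 1 (Nat.sqrt T)).filter (fun e => f ∣ e),
          rv χ e * (((T : ℝ) - (e : ℝ) ^ 2) / e)) - T * L1 χ * (rv χ f / f))| ≤
      ∑ f ∈ d.divisors, (Nat.totient f : ℝ) * (4 * r * Real.sqrt T) := by
    refine (abs_sum_le_sum_abs _ _).trans ?_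
    apply sum_le_sum
    intro f hf
    rw [abs_mul, abs_of_nonneg (Nat.cast_nonneg _)]
    exact mul_le_mul_of_nonneg_left (LA2_inner h1 h2 T f (Nat.pos_of_mem_divisors hf))
      (Nat.cast_nonneg _)
  have h5 : ∑ f ∈ d.divisors, (Nat.totient f : ℝ) = d := by
    have := Nat.sum_totient d
    exact_mod_cast this
  rw [← sum_mul, h5] at h4
  calc 1 / (d : ℝ) * |∑ f ∈ d.divisors, (Nat.totient f : ℝ) *
        ((∑ e ∈ (Icc 1 (Nat.sqrt T)).filter (fun e => f ∣ e),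
          rv χ e * (((T : ℝ) - (e : ℝ) ^ 2) / e)) - T * L1 χ * (rv χ f / f))|
      ≤ 1 / (d : ℝ) * (d * (4 * r * Real.sqrt T)) := mul_le_mul_of_nonneg_left h4 (by positivity)
    _ = 4 * r * Real.sqrt T := by
        field_simp

end Pool.Agent.Lib.H68G
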