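import Pool.Agent.Lib.H68G.LA1
import Pool.Agent.Lib.H68G.LA2
import Pool.Agent.Lib.H59.SieveRankin

/-!
# Chunk LB (M/L): few primes in the classes `c` with `χ(c) = 1`

`BoundingSieve` (Mathlib) with support the `m ∈ [1,T]`, `(m : ZMod r) = c`; weights
`λ(m)/(12 √T)` (≥ 0 by `lam_nonneg`); `totalMass = (2 T/r) L(1,χ)/(12 √T)`; `nu = nuG χ`
(multiplicative, `ArithmeticFunction.IsMultiplicative.prodPrimeFactors`); `prodPrimes` the product
of the ODD primes of `prN r` (for `p = 2` the bound `(1 - ν(p))⁻¹ ≤ p` can fail).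
For `d ∣ prodPrimes` (squarefree, coprime to `r`): `multSum d - nu d * totalMass` is at most
`(3 √T + (2/r) 4 r √T)/(12 √T) ≤ 1 ≤ d` by `lam_class_sum` and `main_eval`.
`0 < nu p < 1`: `nu p = 1/p²` or `(2 - 1/p)/p`, `1 - nu p = (1 - 1/p)(1 - χ(p)/p)`, `nu p ≤ 2/p`,
`(1 - nu p)⁻¹ ≤ (1 - 1/p)⁻² ≤ 9/4 ≤ p`.
`H59.selberg_final` with `κ = 2`, `y = r`, `R = r ^ 79`
(`(log 2 + 56 log 4) log r ≤ 79 log r`); `R ^ 12 = r ^ 948 ≤ totalMass` because
`totalMass = (√T/(6 r)) L(1,χ) ≥ r ^ 1000/(6 r · 100 r)` (`L1_ge`), `T ≥ r ^ 2000`, `r` large.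
So `∑ λ(m) ≤ 4 (2T/r) L(1,χ) ∏_{2 < p} (1 - 1/p)(1 - χ(p)/p) ≤ 32 (T/r) L(1,χ) W U` over the
`m ≡ c` coprime to `prodPrimes` (the factor of `2` is at least `1/4` if `2 ∤ r`).
Every prime `q ≥ r`, `q ≡ c` is counted with weight `λ(q) = 2` (`lam_prime`; `χ(q) = χ(c) = 1`); at most
one prime below `r` is `≡ c`.
-/

open Finset

namespace Pool.Agent.Lib.H68G

/-- the odd primes below `r` not dividing `r` -/
def LB_odd (r : ℕ) : Finset ℕ := (prN r).filter (fun p => p ≠ 2)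

theorem LB_mem {r p : ℕ} : p ∈ LB_odd r ↔ (p.Prime ∧ p < r ∧ ¬ p ∣ r) ∧ p ≠ 2 := by
  rw [LB_odd, mem_filter, mem_prN]

theorem LB_prime {r : ℕ} : ∀ p ∈ LB_odd r, p.Prime := fun _ hp => (LB_mem.1 hp).1.1

theorem LB_nu {r : ℕ} (χ : DirichletCharacter ℂ r) {p : ℕ} (hp : p.Prime) :
    nuG χ p = (1 + rv χ p * (1 - 1 / (p : ℝ))) / p := by
  rw [nuG, ArithmeticFunction.prodPrimeFactors_apply hp.ne_zero, hp.primeFactors, prod_singleton]

theorem LB_three {r p : ℕ} (hp : p ∈ LB_odd r) : (3 : ℝ) ≤ p := by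
  have h1 := LB_mem.1 hp
  have h2 := h1.1.1.two_le
  have h3 : 3 ≤ p := by have := h1.2; omega
  exact_mod_cast h3

theorem LB_one_sub {r : ℕ} (χ : DirichletCharacter ℂ r) {p : ℕ} (hp : p.Prime) :
    1 - nuG χ p = (1 - 1 / (p : ℝ)) * (1 - rv χ p / p) := by
  have h0 : (p : ℝ) ≠ 0 := by exact_mod_cast hp.ne_zero
  rw [LB_nu χ hp]
  field_simp
  ring

theorem LB_factor_pos {r : ℕ} [NeZero r] (χ : DirichletCharacter ℂ r) {p : ℕ} (hp : p.Prime) :
    1 / 2 ≤ 1 - rv χ p / p := by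
  have h1 := abs_le.1 (abs_rv_le (χ := χ) p)
  have h2 : (2 : ℝ) ≤ p := by exact_mod_cast hp.two_le
  have h3 : rv χ p / p ≤ 1 / 2 := by
    rw [div_le_iff₀ (by linarith)]
    linarith
  linarith

theorem LB_sqf (r : ℕ) : Squarefree (∏ p ∈ LB_odd r, p) :=
  Pool.Agent.Lib.H59.squarefree_prod_primes LB_prime

theorem LB_dvd {r p : ℕ} (hp : p.Prime) (hd : p ∣ ∏ q ∈ LB_odd r, q) : p ∈ LB_odd r :=
  (Pool.Agent.Lib.H59.prime_dvd_prod_iff LB_prime hp).1 hd

theorem LB_nu_pos {r : ℕ} [NeZero r] (χ : DirichletCharacter ℂ r) {p : ℕ} (hp : p.Prime) :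
    0 < nuG χ p := by
  rw [LB_nu χ hp]
  have h1 := abs_le.1 (abs_rv_le (χ := χ) p)
  have h2 : (2 : ℝ) ≤ p := by exact_mod_cast hp.two_le
  have h3 : 0 < 1 / (p : ℝ) := by positivity
  have h4 : 1 / (p : ℝ) ≤ 1 / 2 := one_div_le_one_div_of_le (by norm_num) h2
  have h5 : 0 < 1 + rv χ p * (1 - 1 / (p : ℝ)) := by nlinarith
  positivity

/-- the sieve problem -/
noncomputable def LB_sieve {r : ℕ} [NeZero r] (χ : DirichletCharacter ℂ r) (h2 : χ ^ 2 = 1)
    (c : ZMod r) (T : ℕ) : BoundingSieve where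
  support := (Icc 1 T).filter fun m : ℕ => (m : ZMod r) = c
  prodPrimes := ∏ p ∈ LB_odd r, p
  prodPrimes_squarefree := LB_sqf r
  weights m := lam χ m / (12 * Real.sqrt T)
  weights_nonneg m := div_nonneg (lam_nonneg h2 m) (by positivity)
  totalMass := (2 * T / r) * L1 χ / (12 * Real.sqrt T)
  nu := nuG χ
  nu_mult := ArithmeticFunction.IsMultiplicative.prodPrimeFactors _
  nu_pos_of_prime := fun _ hp _ => LB_nu_pos χ hp
  nu_lt_one_of_prime := by
    intro p hp _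
    have h1 := LB_one_sub χ hp
    have h3 := LB_factor_pos χ hp
    have h4 := factor_pos hp
    have : 0 < 1 - nuG χ p := by
      rw [h1]
      exact mul_pos h4 (by linarith)
    linarith

theorem LB_rem {r : ℕ} [NeZero r] (χ : DirichletCharacter ℂ r) (h1 : χ ≠ 1) (h2 : χ ^ 2 = 1)
    (c : ZMod r) (hc : χ c = 1) (T : ℕ) (hT : 1 ≤ T) (d : ℕ)
    (hd : d ∣ (LB_sieve χ h2 c T).prodPrimes) : |(LB_sieve χ h2 c T).rem d| ≤ d := by
  have hdsq : Squarefree d := (LB_sqf r).squarefree_of_dvd hd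
  have hd0 : 1 ≤ d := Nat.pos_of_ne_zero hdsq.ne_zero
  have hdr : d.Coprime r := by
    apply Nat.Coprime.coprime_dvd_left hd
    change Nat.Coprime (∏ p ∈ LB_odd r, p) r
    apply Nat.Coprime.prod_left
    intro p hp
    obtain ⟨⟨hp1, -, hp3⟩, -⟩ := LB_mem.1 hp
    exact (Nat.Prime.coprime_iff_not_dvd hp1).2 hp3
  have hT0 : (0 : ℝ) < T := by exact_mod_cast hT
  have hs : 0 < Real.sqrt T := Real.sqrt_pos.2 hT0
  have hr0 : (0 : ℝ) < r := by exact_mod_cast Nat.pos_of_ne_zero (NeZero.ne r)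
  have e1 := lam_class_sum h2 hc T d hd0 hdr
  have e2 := main_eval h1 h2 T hdsq
  have e3 : (LB_sieve χ h2 c T).rem d =
      ((∑ m ∈ (Icc 1 T).filter (fun m : ℕ => (m : ZMod r) = c ∧ d ∣ m), lam χ m) -
        2 / r * (T * L1 χ * nuG χ d)) / (12 * Real.sqrt T) := by
    rw [BoundingSieve.rem, BoundingSieve.multSum]
    change (∑ m ∈ (Icc 1 T).filter (fun m : ℕ => (m : ZMod r) = c),
      if d ∣ m then lam χ m / (12 * Real.sqrt T) else 0) -
        nuG χ d * ((2 * T / r) * L1 χ / (12 * Real.sqrt T)) = _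
    rw [← sum_filter, filter_filter, ← sum_div]
    ring
  rw [e3, abs_div, abs_of_pos (by positivity : 0 < 12 * Real.sqrt T), div_le_iff₀ (by positivity)]
  have e4 : |2 / (r : ℝ) * (∑ e ∈ Icc 1 (Nat.sqrt T), rv χ e *
      (((T : ℝ) - (e : ℝ) ^ 2) / (Nat.lcm e d : ℕ))) - 2 / r * (T * L1 χ * nuG χ d)| ≤
        8 * Real.sqrt T := by
    rw [← mul_sub, abs_mul, abs_of_pos (by positivity : 0 < 2 / (r : ℝ))]
    calc 2 / (r : ℝ) * |(∑ e ∈ Icc 1 (Nat.sqrt T), rv χ e *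
        (((T : ℝ) - (e : ℝ) ^ 2) / (Nat.lcm e d : ℕ))) - T * L1 χ * nuG χ d|
        ≤ 2 / (r : ℝ) * (4 * r * Real.sqrt T) :=
          mul_le_mul_of_nonneg_left e2 (by positivity)
      _ = 8 * Real.sqrt T := by field_simp; norm_num
  have e5 := abs_sub_le (∑ m ∈ (Icc 1 T).filter (fun m : ℕ => (m : ZMod r) = c ∧ d ∣ m), lam χ m)
    (2 / (r : ℝ) * (∑ e ∈ Icc 1 (Nat.sqrt T), rv χ e *
      (((T : ℝ) - (e : ℝ) ^ 2) / (Nat.lcm e d : ℕ)))) (2 / r * (T * L1 χ * nuG χ d))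
  have e6 : (1 : ℝ) ≤ d := by exact_mod_cast hd0
  have e7 : 12 * Real.sqrt T ≤ d * (12 * Real.sqrt T) := by nlinarith
  linarith

/-- the sieve bound -/
theorem LB_bound {r : ℕ} [NeZero r] (χ : DirichletCharacter ℂ r) (hr : 2 ≤ r) (h1 : χ ≠ 1)
    (h2 : χ ^ 2 = 1) (c : ZMod r) (hc : χ c = 1) (T : ℕ) (hT : r ^ 2000 ≤ T) :
    ∑ m ∈ ((Icc 1 T).filter fun m : ℕ => (m : ZMod r) = c).filter
      (fun m => Nat.Coprime (∏ p ∈ LB_odd r, p) m), lam χ m ≤
      8 * (T / r) * L1 χ * ∏ p ∈ LB_odd r, ((1 - 1 / (p : ℝ)) * (1 - rv χ p / p)) := by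
  have hr1 : (2 : ℝ) ≤ r := by exact_mod_cast hr
  have hr0 : (0 : ℝ) < r := by linarith
  have hTr : (r : ℝ) ^ 2000 ≤ T := by exact_mod_cast hT
  have hT0 : (0 : ℝ) < T := lt_of_lt_of_le (by positivity) hTr
  have hT1 : 1 ≤ T := by exact_mod_cast hT0
  have hs : 0 < Real.sqrt T := Real.sqrt_pos.2 hT0
  have hs2 : Real.sqrt T * Real.sqrt T = T := Real.mul_self_sqrt hT0.le
  have hsr : (r : ℝ) ^ 1000 ≤ Real.sqrt T := by
    apply Real.le_sqrt_of_sq_le
    rw [← pow_mul]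
    exact hTr
  have hL := L1_ge h1 h2
  have hfin := Pool.Agent.Lib.H59.selberg_final (s := LB_sieve χ h2 c T) (κ := 2) (y := r)
    (R := (r : ℝ) ^ 79) (by norm_num) hr1 (one_le_pow₀ (by linarith))
    (fun p hp hd => by
      have := (LB_mem.1 (LB_dvd hp hd)).1.2.1
      exact_mod_cast this.le)
    (fun p hp hd => by
      change nuG χ p ≤ 2 / p
      rw [LB_nu χ hp]
      have e1 := abs_le.1 (abs_rv_le (χ := χ) p)
      have e2 : (2 : ℝ) ≤ p := by exact_mod_cast hp.two_le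
      have e3 : 0 < 1 / (p : ℝ) := by positivity
      have e4 : 1 / (p : ℝ) ≤ 1 / 2 := one_div_le_one_div_of_le (by norm_num) e2
      have e5 : 1 + rv χ p * (1 - 1 / (p : ℝ)) ≤ 2 := by nlinarith
      exact div_le_div_of_nonneg_right e5 (by linarith))
    (by
      rw [Real.log_pow]
      apply mul_le_mul_of_nonneg_right _ (Real.log_nonneg (by linarith))
      have e1 := Real.log_two_lt_d9
      have e2 : Real.log 4 = 2 * Real.log 2 := by
        rw [show (4 : ℝ) = 2 ^ 2 by norm_num, Real.log_pow]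
        norm_num
      rw [e2]
      push_cast
      linarith)
    (fun d hd => LB_rem χ h1 h2 c hc T hT1 d hd)
    (fun p hp hd => by
      change (1 - nuG χ p)⁻¹ ≤ p
      rw [LB_one_sub χ hp]
      have e0 := LB_three (LB_dvd hp hd)
      have e1 := abs_le.1 (abs_rv_le (χ := χ) p)
      have e4 : 1 / (p : ℝ) ≤ 1 / 3 := one_div_le_one_div_of_le (by norm_num) e0
      have e5 : rv χ p / p ≤ 1 / 3 := by
        rw [div_le_iff₀ (by linarith)]
        linarith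
      have e6 : 1 / 3 ≤ (1 - 1 / (p : ℝ)) * (1 - rv χ p / p) := by nlinarith
      calc ((1 - 1 / (p : ℝ)) * (1 - rv χ p / p))⁻¹ ≤ (1 / 3 : ℝ)⁻¹ :=
            inv_anti₀ (by norm_num) e6
        _ = 3 := by norm_num
        _ ≤ p := e0)
    (by
      change ((r : ℝ) ^ 79) ^ 12 ≤ (2 * T / r) * L1 χ / (12 * Real.sqrt T)
      have e1 : (2 * T / r) * L1 χ / (12 * Real.sqrt T) = Real.sqrt T * L1 χ / (6 * r) := by
        rw [div_eq_div_iff (by positivity) (by positivity)]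
        have e9 : 2 * (T : ℝ) / r * L1 χ * (6 * r) = 12 * T * L1 χ := by
          field_simp
          ring
        rw [e9]
        linear_combination (-12 * L1 χ) * hs2
      rw [e1, le_div_iff₀ (by positivity)]
      have e2 : (r : ℝ) ^ 1000 * (1 / (100 * (r : ℝ))) ≤ Real.sqrt T * L1 χ :=
        mul_le_mul hsr hL (by positivity) hs.le
      refine le_trans ?_ e2
      have e3 : (r : ℝ) ^ 1000 * (1 / (100 * (r : ℝ))) = (r : ℝ) ^ 999 / 100 := by
        rw [show (1000 : ℕ) = 999 + 1 by norm_num, pow_succ]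
        field_simp
      rw [e3, ← pow_mul]
      have e4 : (600 : ℝ) ≤ (r : ℝ) ^ 50 := by
        calc (600 : ℝ) ≤ 2 ^ 50 := by norm_num
          _ ≤ (r : ℝ) ^ 50 := pow_le_pow_left₀ (by norm_num) hr1 50
      have e5 : (r : ℝ) ^ 999 = (r : ℝ) ^ (79 * 12) * r * (r : ℝ) ^ 50 := by ring
      rw [e5, le_div_iff₀ (by norm_num)]
      have e6 : 0 < (r : ℝ) ^ (79 * 12) * r := by positivity
      nlinarith)
  have hprod : ∏ p ∈ (LB_sieve χ h2 c T).prodPrimes.primeFactors,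
      (1 - (LB_sieve χ h2 c T).nu p) =
      ∏ p ∈ LB_odd r, ((1 - 1 / (p : ℝ)) * (1 - rv χ p / p)) := by
    have e1 : (LB_sieve χ h2 c T).prodPrimes.primeFactors = LB_odd r :=
      Nat.primeFactors_prod LB_prime
    rw [e1]
    exact prod_congr rfl fun p hp => LB_one_sub χ (LB_prime p hp)
  rw [hprod] at hfin
  have h3 := hfin.1
  have h4 : (LB_sieve χ h2 c T).siftedSum =
      (∑ m ∈ ((Icc 1 T).filter fun m : ℕ => (m : ZMod r) = c).filter
      (fun m => Nat.Coprime (∏ p ∈ LB_odd r, p) m), lam χ m) / (12 * Real.sqrt T) := by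
    rw [BoundingSieve.siftedSum]
    change (∑ m ∈ (Icc 1 T).filter (fun m : ℕ => (m : ZMod r) = c),
      if Nat.Coprime (∏ p ∈ LB_odd r, p) m then lam χ m / (12 * Real.sqrt T) else 0) = _
    rw [← sum_filter, ← sum_div]
  rw [h4] at h3
  change _ ≤ 4 * ((2 * T / r) * L1 χ / (12 * Real.sqrt T)) * _ at h3
  rw [div_le_iff₀ (by positivity)] at h3
  refine h3.trans (le_of_eq ?_)
  field_simp
  ring

theorem LB_small {r : ℕ} [NeZero r] (T : ℕ) (c : ZMod r) :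
    (((Icc 1 T).filter fun q : ℕ => q.Prime ∧ (q : ZMod r) = c).filter (fun q => q < r)).card ≤ 1 := by
  rw [card_le_one]
  intro a ha b hb
  simp only [mem_filter, mem_Icc] at ha hb
  have h1 : (a : ZMod r) = (b : ZMod r) := ha.1.2.2.trans hb.1.2.2.symm
  rw [ZMod.natCast_eq_natCast_iff] at h1
  have h2 := Nat.mod_eq_of_lt ha.2
  have h3 := Nat.mod_eq_of_lt hb.2
  unfold Nat.ModEq at h1
  omega

theorem LB_prod {r : ℕ} [NeZero r] (χ : DirichletCharacter ℂ r) :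
    ∏ p ∈ LB_odd r, ((1 - 1 / (p : ℝ)) * (1 - rv χ p / p)) ≤ 4 * (WW r * UU χ) := by
  have h0 : ∀ p ∈ prN r, 0 < (1 - 1 / (p : ℝ)) * (1 - rv χ p / p) := by
    intro p hp
    have h := (mem_prN.1 hp).1
    exact mul_pos (factor_pos h) (by linarith [LB_factor_pos χ h])
  have h1 : WW r * UU χ = ∏ p ∈ prN r, ((1 - 1 / (p : ℝ)) * (1 - rv χ p / p)) := by
    rw [WW, UU, prod_mul_distrib]
  rw [h1]
  have h2 : 0 < ∏ p ∈ LB_odd r, ((1 - 1 / (p : ℝ)) * (1 - rv χ p / p)) :=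
    prod_pos fun p hp => h0 p (mem_of_mem_filter p hp)
  by_cases h : 2 ∈ prN r
  · have h3 : prN r = insert 2 (LB_odd r) := by
      ext p
      rw [mem_insert, LB_odd, mem_filter]
      constructor
      · intro hp
        by_cases h4 : p = 2
        · exact Or.inl h4
        · exact Or.inr ⟨hp, h4⟩
      · rintro (rfl | hp)
        · exact h
        · exact hp.1
    have h4 : 2 ∉ LB_odd r := by
      rw [LB_odd, mem_filter]
      exact fun hh => hh.2 rfl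
    rw [h3, prod_insert h4]
    have h5 := LB_factor_pos χ Nat.prime_two
    have h6 : (1 : ℝ) / 4 ≤ (1 - 1 / ((2 : ℕ) : ℝ)) * (1 - rv χ 2 / ((2 : ℕ) : ℝ)) := by
      push_cast at h5 ⊢
      nlinarith
    nlinarith
  · have h3 : LB_odd r = prN r := by
      rw [LB_odd, filter_eq_self]
      rintro p hp rfl
      exact h hp
    rw [h3] at h2 ⊢
    linarith

theorem pic_small : ∃ r₀ : ℕ, ∀ (r : ℕ) [NeZero r] (χ : DirichletCharacter ℂ r), r₀ ≤ r →
    χ ≠ 1 → χ ^ 2 = 1 → ∀ c : ZMod r, χ c = 1 → ∀ T : ℕ, r ^ 2000 ≤ T →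
    (pic T r c : ℝ) ≤ 1 + 16 * (T / r) * WW r * (L1 χ * UU χ) := by
  refine ⟨2, fun r _ χ hr h1 h2 c hc T hT => ?_⟩
  have hb := LB_bound χ hr h1 h2 c hc T hT
  have hp := LB_prod χ
  have hL : 0 ≤ L1 χ := norm_nonneg _
  have hr0 : (0 : ℝ) < r := by
    have : 0 < r := by omega
    exact_mod_cast this
  -- the primes at least `r`
  set S := (Icc 1 T).filter fun q : ℕ => q.Prime ∧ (q : ZMod r) = c with hS
  have e1 : (pic T r c : ℝ) = ((S.filter fun q => q < r).card : ℝ) +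
      ((S.filter fun q => ¬ q < r).card : ℝ) := by
    rw [pic, ← hS]
    exact_mod_cast (card_filter_add_card_filter_not (s := S) (fun q => q < r)).symm
  have e2 : ((S.filter fun q => q < r).card : ℝ) ≤ 1 := by
    exact_mod_cast LB_small T c
  have e3 : 2 * ((S.filter fun q => ¬ q < r).card : ℝ) ≤
      ∑ m ∈ ((Icc 1 T).filter fun m : ℕ => (m : ZMod r) = c).filter
      (fun m => Nat.Coprime (∏ p ∈ LB_odd r, p) m), lam χ m := by
    have e4 : ∑ q ∈ S.filter (fun q => ¬ q < r), lam χ q =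
        2 * ((S.filter fun q => ¬ q < r).card : ℝ) := by
      rw [sum_congr rfl (g := fun _ => (2 : ℝ)), sum_const, nsmul_eq_mul, mul_comm]
      intro q hq
      rw [mem_filter, hS, mem_filter] at hq
      apply lam_prime hq.1.2.1
      unfold rv
      rw [hq.1.2.2, hc]
      simp
    rw [← e4]
    apply sum_le_sum_of_subset_of_nonneg
    · intro q hq
      rw [mem_filter, hS, mem_filter] at hq
      rw [mem_filter, mem_filter]
      refine ⟨⟨hq.1.1, hq.1.2.2⟩, ?_⟩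
      apply Nat.Coprime.prod_left
      intro p hp
      obtain ⟨⟨g1, g2, -⟩, -⟩ := LB_mem.1 hp
      rw [Nat.coprime_primes g1 hq.1.2.1]
      rintro rfl
      exact hq.2 g2
    · intro m _ _
      exact lam_nonneg h2 m
  have e5 : 8 * ((T : ℝ) / r) * L1 χ * ∏ p ∈ LB_odd r, ((1 - 1 / (p : ℝ)) * (1 - rv χ p / p)) ≤
      8 * ((T : ℝ) / r) * L1 χ * (4 * (WW r * UU χ)) :=
    mul_le_mul_of_nonneg_left hp (by positivity)
  have e6 : 8 * ((T : ℝ) / r) * L1 χ * (4 * (WW r * UU χ)) =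
      2 * (16 * (T / r) * WW r * (L1 χ * UU χ)) := by ring
  linarith

end Pool.Agent.Lib.H68G
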