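import Pool.Agent.Lib.H68G.Defs
import Pool.Agent.Lib.H59.SchinzelMertens

/-!
# Chunk LQ (M): the lower bound for `Q_1(N)`
-/

open Finset Polynomial Filter

namespace Pool.Agent.Lib.H68G

open Pool.Agent.Lib.H59

theorem LQ_argSet_sub {a h X N : ℕ} (h2 : N ≤ a * X ^ h) :
    argSet (GG a h) N ⊆ ((Icc 1 X : Finset ℕ) : Set ℕ) := by
  rintro n ⟨hn0, hn⟩
  rw [eval_GG] at hn
  rw [Finset.mem_coe, mem_Icc]
  refine ⟨hn0, ?_⟩
  by_contra hcon
  push Not at hcon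
  have h4 : X ^ h ≤ n ^ h := Nat.pow_le_pow_left hcon.le h
  have h6 : a * X ^ h ≤ a * n ^ h := Nat.mul_le_mul_left a h4
  have h7 : ((a * n ^ h : ℕ) : ℤ) < N := by
    push_cast
    linarith
  have h8 : a * n ^ h < N := by exact_mod_cast h7
  omega

/-- For `G = a x^h` and `a X^h / 2 < N ≤ a X^h`: `X/2 - 1 ≤ X(N) ≤ X` (the `n ≥ 1` with `a n^h < N`). -/
theorem argCount_bounds {a h X N : ℕ} (ha : 1 ≤ a) (hh : 1 ≤ h) (h1 : a * X ^ h / 2 < N)
    (h2 : N ≤ a * X ^ h) :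
    (X : ℝ) / 2 - 1 ≤ argCount (GG a h) N ∧ (argCount (GG a h) N : ℝ) ≤ X := by
  have hsub := LQ_argSet_sub h2
  have hfin : (argSet (GG a h) N).Finite := (Finset.finite_toSet _).subset hsub
  constructor
  · have h3 : ((Icc 1 (X / 2) : Finset ℕ) : Set ℕ) ⊆ argSet (GG a h) N := by
      intro n hn
      rw [Finset.mem_coe, mem_Icc] at hn
      refine ⟨hn.1, ?_⟩
      rw [eval_GG]
      have h4 : 2 * n ≤ X := by omega
      have h5 : (2 * n) ^ h ≤ X ^ h := Nat.pow_le_pow_left h4 h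
      have h6 : 2 * n ^ h ≤ (2 * n) ^ h := by
        rw [mul_pow]
        apply Nat.mul_le_mul_right
        calc 2 = 2 ^ 1 := by norm_num
          _ ≤ 2 ^ h := Nat.pow_le_pow_right (by norm_num) hh
      have h7 : a * (2 * n ^ h) ≤ a * X ^ h := Nat.mul_le_mul_left a (h6.trans h5)
      have h8 : a * n ^ h ≤ a * X ^ h / 2 := by
        rw [Nat.le_div_iff_mul_le (by norm_num)]
        calc a * n ^ h * 2 = a * (2 * n ^ h) := by ring
          _ ≤ _ := h7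
      have h9 : ((a * n ^ h : ℕ) : ℤ) < N := by exact_mod_cast lt_of_le_of_lt h8 h1
      push_cast at h9
      linarith
    have h4 := Set.ncard_le_ncard h3 hfin
    rw [Set.ncard_coe_finset, Nat.card_Icc, Nat.add_sub_cancel] at h4
    have h5 : ((X / 2 : ℕ) : ℝ) ≤ (argCount (GG a h) N : ℝ) := by exact_mod_cast h4
    have h6 : X ≤ 2 * (X / 2) + 1 := by omega
    have h7 : (X : ℝ) ≤ 2 * ((X / 2 : ℕ) : ℝ) + 1 := by exact_mod_cast h6
    linarith
  · have h4 := Set.ncard_le_ncard hsub (Finset.finite_toSet _)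
    rw [Set.ncard_coe_finset, Nat.card_Icc, Nat.add_sub_cancel] at h4
    exact_mod_cast h4

theorem LQ_factor {g : ℕ} (F : Fin g → ℤ[X]) (G : ℤ[X]) (N p : ℕ) (hp : 0 < p) :
    0 ≤ 1 - (omegaN F G N p : ℝ) / p := by
  have h1 : omegaN F G N p ≤ p := by
    unfold omegaN
    exact (Finset.card_filter_le _ _).trans (by rw [Finset.card_range])
  have h2 : (omegaN F G N p : ℝ) ≤ p := by exact_mod_cast h1
  have h3 : (0 : ℝ) < p := by exact_mod_cast hp
  have h4 : (omegaN F G N p : ℝ) / p ≤ 1 := (div_le_one h3).2 h2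
  linarith

/-- `mertens_step` with `Y = r`, `A = BB·h + 2` (`coeffSum (F i) ≤ r^A` for large `r`;
`coeffSum (N - a x^h) ≤ N + a ≤ 2 a r^(BB h)`) bounds `∏_{p < r} (1 - ω_N(p)/p)` by
`C/(log r)^(g+1)` times the truncated series, for all large `z`; by `LowerHalf` the latter is at most
`(δ X(N)/(log X(N))^(g+1) D⁻¹)⁻¹ Q_1(N)` (choose one large `z`). `log X(N) ≤ BB log r` and
`X(N) ≥ X/4`. (`N ≥ N₀` for large `r` because `N > a X^h/2`.) -/
theorem low_q {g : ℕ} (F : Fin g → ℤ[X]) (hF : Sys F) (a h : ℕ) (ha : 1 ≤ a) (hh : 1 ≤ h)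
    (hL : LowerHalf F (GG a h)) : ∃ c : ℝ, 0 < c ∧ ∃ r₀ : ℕ, ∀ r : ℕ, r₀ ≤ r →
      ∀ N : ℕ, a * (r ^ BB F h) ^ h / 2 < N → N ≤ a * (r ^ BB F h) ^ h →
      Admissible F (GG a h) N →
      c * (r : ℝ) ^ BB F h * ∏ p ∈ Nat.primesBelow r, (1 - (omegaN F (GG a h) N p : ℝ) / p) ≤
        (primeCount F (GG a h) N : ℝ) := by
  obtain ⟨δ, hδ, N₀, hN₀⟩ := hL
  set Bn : ℕ := BB F h with hBn
  have hBn1 : 1 ≤ Bn := by
    rw [hBn, BB]
    omega
  set κ : ℕ := kap F h with hκ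
  set A : ℝ := ((Bn * h + 2 : ℕ) : ℝ) with hA
  set Cst : ℝ := Real.exp (∑ i, polyConst (F i).natDegree A + polyConst (GG a h).natDegree A +
    4 * (κ : ℝ) ^ 2) with hCst
  have hCpos : 0 < Cst := Real.exp_pos _
  set D : ℝ := ((GG a h).natDegree : ℝ) * ∏ i, ((F i).natDegree : ℝ) with hD
  have hDpos : 0 < D := by
    rw [hD, natDegree_GG ha]
    refine mul_pos (by exact_mod_cast hh) (Finset.prod_pos fun i _ => ?_)
    exact_mod_cast hF.deg i
  have hBpos : (0 : ℝ) < Bn := by exact_mod_cast hBn1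
  set s : ℝ := coeffSum (GG a h) with hs
  set M : ℝ := ∑ i, |coeffSum (F i)| with hM
  refine ⟨δ / (4 * D * (Bn : ℝ) ^ (g + 1) * Cst), by positivity,
    3 + 2 * κ + 2 * N₀ + ⌈M⌉₊ + ⌈|(a : ℝ) + s|⌉₊ + 8, ?_⟩
  intro r hr N hN1 hN2 hadm
  have hr3 : 3 ≤ r := by omega
  have hr8 : 8 ≤ r := by omega
  have hrpos : (0 : ℝ) < r := by exact_mod_cast (by omega : 0 < r)
  have hr1 : (1 : ℝ) ≤ r := by exact_mod_cast (by omega : 1 ≤ r)
  have hrM : M ≤ r := by
    have h1 : ⌈M⌉₊ ≤ r := by omega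
    exact (Nat.le_ceil M).trans (by exact_mod_cast h1)
  have hrs : (a : ℝ) + s ≤ r := by
    have h1 : ⌈|(a : ℝ) + s|⌉₊ ≤ r := by omega
    exact (le_abs_self _).trans ((Nat.le_ceil _).trans (by exact_mod_cast h1))
  have hApow : (r : ℝ) ^ A = (r : ℝ) ^ (Bn * h + 2) := by
    rw [hA, Real.rpow_natCast]
  have hFA : ∀ i, coeffSum (F i) ≤ (r : ℝ) ^ A := by
    intro i
    rw [hApow]
    have h1 : coeffSum (F i) ≤ M :=
      (le_abs_self _).trans (Finset.single_le_sum (f := fun i => |coeffSum (F i)|)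
        (fun j _ => abs_nonneg _) (mem_univ i))
    calc coeffSum (F i) ≤ r := h1.trans hrM
      _ = (r : ℝ) ^ 1 := (pow_one _).symm
      _ ≤ (r : ℝ) ^ (Bn * h + 2) := pow_le_pow_right₀ hr1 (by omega)
  have hGA : coeffSum (C (N : ℤ) - GG a h) ≤ (r : ℝ) ^ A := by
    rw [hApow]
    refine (coeffSum_C_sub_le _ _).trans ?_
    have h1 : (N : ℝ) ≤ a * (r : ℝ) ^ (Bn * h) := by
      have h2 : (N : ℝ) ≤ ((a * (r ^ Bn) ^ h : ℕ) : ℝ) := by exact_mod_cast hN2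
      rw [Nat.cast_mul, Nat.cast_pow, Nat.cast_pow, ← pow_mul] at h2
      exact h2
    have h2 : (1 : ℝ) ≤ (r : ℝ) ^ (Bn * h) := one_le_pow₀ hr1
    have hs0 : 0 ≤ s := by
      have h3 : GG a h ≠ 0 := by
        intro h0
        have h4 := natDegree_GG (h := h) ha
        rw [h0, natDegree_zero] at h4
        omega
      exact le_trans zero_le_one (one_le_coeffSum h3)
    calc (N : ℝ) + coeffSum (GG a h) ≤ a * (r : ℝ) ^ (Bn * h) + s * (r : ℝ) ^ (Bn * h) := by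
          have h5 : coeffSum (GG a h) ≤ s * (r : ℝ) ^ (Bn * h) := le_mul_of_one_le_right hs0 h2
          linarith
      _ = (a + s) * (r : ℝ) ^ (Bn * h) := by ring
      _ ≤ r * (r : ℝ) ^ (Bn * h) := mul_le_mul_of_nonneg_right hrs (by positivity)
      _ = (r : ℝ) ^ (Bn * h + 1) := by ring
      _ ≤ (r : ℝ) ^ (Bn * h + 2) := pow_le_pow_right₀ hr1 (by omega)
  have hstep := mertens_step (F := F) (G := GG a h) (N := N) hF.irr hF.deg
    (by rw [natDegree_GG ha]; exact hh) hadm (Y := r) (κ := κ) (A := A) hr3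
    (by rw [natDegree_GG ha, hκ]; rfl) (by omega) hFA hGA
  have hNN₀ : N₀ ≤ N := by
    have h1 : r ≤ r ^ Bn := by
      calc r = r ^ 1 := (pow_one r).symm
        _ ≤ r ^ Bn := Nat.pow_le_pow_right (by omega) hBn1
    have h2 : r ^ Bn ≤ (r ^ Bn) ^ h := by
      calc r ^ Bn = (r ^ Bn) ^ 1 := (pow_one _).symm
        _ ≤ (r ^ Bn) ^ h := Nat.pow_le_pow_right (Nat.pos_of_ne_zero (by positivity)) hh
    have h3 : (r ^ Bn) ^ h ≤ a * (r ^ Bn) ^ h := Nat.le_mul_of_pos_left _ (by omega)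
    omega
  obtain ⟨z, hz1, hz2⟩ := (hstep.and (hN₀ N hNN₀ hadm)).exists
  set P : ℝ := ∏ p ∈ Nat.primesBelow r, (1 - (omegaN F (GG a h) N p : ℝ) / p) with hP
  have hP0 : 0 ≤ P := Finset.prod_nonneg fun p hp =>
    LQ_factor F (GG a h) N p (Nat.prime_of_mem_primesBelow hp).pos
  set X : ℕ := r ^ Bn with hX
  have hXr : (X : ℝ) = (r : ℝ) ^ Bn := by rw [hX]; push_cast; rfl
  have hXge : r ≤ X := by
    calc r = r ^ 1 := (pow_one r).symm
      _ ≤ r ^ Bn := Nat.pow_le_pow_right (by omega) hBn1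
  have hX8 : (8 : ℝ) ≤ X := by exact_mod_cast hr8.trans hXge
  obtain ⟨hac1, hac2⟩ := argCount_bounds ha hh hN1 hN2
  set m : ℝ := (argCount (GG a h) N : ℝ) with hm
  have hm4 : (X : ℝ) / 4 ≤ m := by linarith
  have hm2 : 2 ≤ m := by linarith
  have hlogm : 0 < Real.log m := Real.log_pos (by linarith)
  have hlogr : 0 < Real.log r := Real.log_pos (by
    have : (3 : ℝ) ≤ r := by exact_mod_cast hr3
    linarith)
  have hlogle : Real.log m ≤ Bn * Real.log r := by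
    calc Real.log m ≤ Real.log X := Real.log_le_log (by linarith) hac2
      _ = Bn * Real.log r := by rw [hXr, Real.log_pow]
  set Z : ℝ := seriesTrunc F (GG a h) N z with hZ
  -- the two inequalities
  have e1 : P * (Real.log r) ^ (g + 1) ≤ Cst * Z := by
    have h1 : P ≤ Cst / (Real.log r) ^ (g + 1) * Z := hz1
    have h2 : 0 < (Real.log r) ^ (g + 1) := pow_pos hlogr _
    calc P * (Real.log r) ^ (g + 1) ≤ (Cst / (Real.log r) ^ (g + 1) * Z) * (Real.log r) ^ (g + 1) :=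
          mul_le_mul_of_nonneg_right h1 h2.le
      _ = Cst * Z := by field_simp
  have e2 : δ * (m / (Real.log m) ^ (g + 1) * D⁻¹ * Z) ≤ (primeCount F (GG a h) N : ℝ) := hz2
  have e3 : (Real.log m) ^ (g + 1) ≤ (Bn : ℝ) ^ (g + 1) * (Real.log r) ^ (g + 1) := by
    rw [← mul_pow]
    exact pow_le_pow_left₀ hlogm.le hlogle _
  have hlm : 0 < (Real.log m) ^ (g + 1) := pow_pos hlogm _
  have hlr : 0 < (Real.log r) ^ (g + 1) := pow_pos hlogr _
  have hBg : 0 < (Bn : ℝ) ^ (g + 1) := pow_pos hBpos _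
  have hZ0 : 0 ≤ Z := by
    have h1 : 0 ≤ Cst * Z := le_trans (mul_nonneg hP0 hlr.le) e1
    exact nonneg_of_mul_nonneg_right h1 hCpos
  refine le_trans ?_ e2
  rw [← hXr]
  have e4 : P / ((Bn : ℝ) ^ (g + 1) * Cst) ≤ Z / (Real.log m) ^ (g + 1) := by
    rw [div_le_div_iff₀ (mul_pos hBg hCpos) hlm]
    calc P * (Real.log m) ^ (g + 1) ≤ P * ((Bn : ℝ) ^ (g + 1) * (Real.log r) ^ (g + 1)) :=
          mul_le_mul_of_nonneg_left e3 hP0
      _ = (P * (Real.log r) ^ (g + 1)) * (Bn : ℝ) ^ (g + 1) := by ring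
      _ ≤ (Cst * Z) * (Bn : ℝ) ^ (g + 1) := mul_le_mul_of_nonneg_right e1 hBg.le
      _ = Z * ((Bn : ℝ) ^ (g + 1) * Cst) := by ring
  have hPq : 0 ≤ P / ((Bn : ℝ) ^ (g + 1) * Cst) := by positivity
  calc δ / (4 * D * (Bn : ℝ) ^ (g + 1) * Cst) * X * P
      = δ * (((X : ℝ) / 4) * D⁻¹ * (P / ((Bn : ℝ) ^ (g + 1) * Cst))) := by
        field_simp
    _ ≤ δ * (m * D⁻¹ * (Z / (Real.log m) ^ (g + 1))) := by
        apply mul_le_mul_of_nonneg_left _ hδ.le
        apply mul_le_mul _ e4 hPq (by positivity)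
        exact mul_le_mul_of_nonneg_right hm4 (by positivity)
    _ = δ * (m / (Real.log m) ^ (g + 1) * D⁻¹ * Z) := by
        field_simp

end Pool.Agent.Lib.H68G
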