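import Pool.Agent.Lib.H68G.Defs

/-!
# Chunk MX (M): the sieve for `F`
-/

open Finset Polynomial

namespace Pool.Agent.Lib.H68G

open Pool.Agent.Lib.H59

/-- The `n ≤ X` coprime to `r` for which all `F_i(n)` are primes. -/
noncomputable def primeArgs {g : ℕ} (F : Fin g → ℤ[X]) (r X : ℕ) : Finset ℕ := by
  classical
  exact (Icc 1 X).filter fun n : ℕ => n.Coprime r ∧
    ∀ i, ∃ q : ℕ, q.Prime ∧ (F i).eval (n : ℤ) = q

/-- A polynomial with the same roots as `mixPoly F r p` modulo all primes `p < r`. -/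
theorem MX_poly {g : ℕ} (F : Fin g → ℤ[X]) (r : ℕ) : ∃ H : ℤ[X], ∀ p : ℕ, p.Prime → p < r →
    ∀ n : ℤ, (p : ℤ) ∣ H.eval n ↔ (p : ℤ) ∣ (mixPoly F r p).eval n := by
  classical
  set P₁ : ℕ := ∏ p ∈ (Nat.primesBelow r).filter (fun p => p ∣ r), p with hP₁
  set P₂ : ℕ := ∏ p ∈ (Nat.primesBelow r).filter (fun p => ¬ p ∣ r), p with hP₂
  have hco : Nat.Coprime P₁ P₂ := by
    rw [hP₁, hP₂]
    refine Nat.Coprime.prod_left fun p hp => Nat.Coprime.prod_right fun q hq => ?_
    rw [mem_filter, Nat.mem_primesBelow] at hp hq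
    rw [Nat.coprime_primes hp.1.2 hq.1.2]
    rintro rfl
    exact hq.2 hp.2
  obtain ⟨u, v, huv⟩ := Nat.isCoprime_iff_coprime.2 hco
  refine ⟨(∏ i, F i) * (C (v * P₂) * X + C (u * P₁)), fun p hp hpr n => ?_⟩
  have key : (p : ℤ) ∣ ((∏ i, F i) * (C (v * P₂) * X + C (u * P₁))).eval n -
      (mixPoly F r p).eval n := by
    unfold mixPoly
    split_ifs with h
    · have h1 : (p : ℤ) ∣ (P₁ : ℤ) := by
        rw [Int.natCast_dvd_natCast, hP₁]
        exact Finset.dvd_prod_of_mem _ (mem_filter.2 ⟨Nat.mem_primesBelow.2 ⟨hpr, hp⟩, h⟩)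
      obtain ⟨w, hw⟩ := h1
      refine ⟨(∏ i, F i).eval n * (u * w) * (1 - n), ?_⟩
      simp only [eval_mul, eval_add, eval_C, eval_X]
      have h2 : v * (P₂ : ℤ) = 1 - u * P₁ := by linarith
      rw [h2, hw]
      ring
    · have h1 : (p : ℤ) ∣ (P₂ : ℤ) := by
        rw [Int.natCast_dvd_natCast, hP₂]
        exact Finset.dvd_prod_of_mem _ (mem_filter.2 ⟨Nat.mem_primesBelow.2 ⟨hpr, hp⟩, h⟩)
      obtain ⟨w, hw⟩ := h1
      refine ⟨(∏ i, F i).eval n * (v * w) * (n - 1), ?_⟩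
      simp only [eval_mul, eval_add, eval_C, eval_X]
      have h2 : u * (P₁ : ℤ) = 1 - v * P₂ := by linarith
      rw [h2, hw]
      ring
  constructor
  · intro h
    have := dvd_sub h key
    simpa using this
  · intro h
    have := dvd_add key h
    simpa using this

theorem MX_le {g : ℕ} (F : Fin g → ℤ[X]) (hF : Sys F) (h r : ℕ) {p : ℕ} (hp : p.Prime) :
    rootCount (mixPoly F r p) p ≤ kap F h + 1 := by
  have h1 : rootCount (∏ i, F i) p ≤ ∑ i, (F i).natDegree :=
    (rootCount_prod_le _ _ hp).trans (sum_le_sum fun i _ => rootCount_le_natDegree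
      ((hF.irr i).isPrimitive (by have := hF.deg i; omega)) hp)
  have h2 : rootCount (X : ℤ[X]) p ≤ 1 := by
    have h3 := rootCount_le_natDegree (f := (X : ℤ[X])) (monic_X.isPrimitive) hp
    rwa [natDegree_X] at h3
  unfold mixPoly kap
  split_ifs
  · have := rootCount_mul_le (X : ℤ[X]) (∏ i, F i) hp
    omega
  · omega

theorem MX_lt {g : ℕ} (F : Fin g → ℤ[X]) (hF : Sys F) (r : ℕ) {p : ℕ} (hp : p.Prime) :
    rootCount (mixPoly F r p) p < p := by
  classical
  obtain ⟨n, hn⟩ := hF.fix p hp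
  have hn2 : ¬ (p : ℤ) ∣ (mixPoly F r p).eval n := by
    unfold mixPoly
    split_ifs
    · exact hn
    · intro h
      apply hn
      rw [eval_mul]
      exact h.mul_left _
  have hp0 : (0 : ℤ) < p := by exact_mod_cast hp.pos
  set a : ℕ := (n % p).toNat with ha
  have ha0 : 0 ≤ n % (p : ℤ) := Int.emod_nonneg _ hp0.ne'
  have ha1 : n % (p : ℤ) < p := Int.emod_lt_of_pos _ hp0
  have haa : (a : ℤ) = n % p := Int.toNat_of_nonneg ha0
  have hna : ¬ (p : ℤ) ∣ (mixPoly F r p).eval (a : ℤ) := by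
    intro h
    apply hn2
    have h2 : (p : ℤ) ∣ n - (a : ℤ) := by
      rw [haa]
      exact Int.dvd_self_sub_emod
    have h3 := h2.trans (Polynomial.sub_dvd_eval_sub n (a : ℤ) (mixPoly F r p))
    have := dvd_add h3 h
    simpa using this
  unfold rootCount
  calc _ < (Finset.range p).card := by
        refine card_lt_card (Finset.ssubset_iff_subset_ne.2 ⟨filter_subset _ _, fun h => ?_⟩)
        have h4 : a ∈ Finset.range p := by
          rw [Finset.mem_range]
          omega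
        rw [← h, mem_filter] at h4
        exact hna h4.2
    _ = p := card_range p

theorem MX_card {g : ℕ} (F : Fin g → ℤ[X]) (hF : Sys F) {H : ℤ[X]} {r : ℕ}
    (hH : ∀ p : ℕ, p.Prime → p < r →
      ∀ n : ℤ, (p : ℤ) ∣ H.eval n ↔ (p : ℤ) ∣ (mixPoly F r p).eval n) (Y : ℕ) :
    (primeArgs F r Y).card ≤
      ((Icc 1 Y).filter fun n : ℕ => ∀ p ∈ Nat.primesBelow r, ¬ (p : ℤ) ∣ H.eval (n : ℤ)).card +
        (∑ i, (F i).natDegree) * r := by
  classical
  set T₁ := (Icc 1 Y).filter fun n : ℕ => ∀ p ∈ Nat.primesBelow r, ¬ (p : ℤ) ∣ H.eval (n : ℤ)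
    with hT₁
  set T₂ := (Finset.range r).biUnion fun q => Finset.univ.biUnion fun i =>
    (Icc 1 Y).filter fun n : ℕ => (F i).eval (n : ℤ) = (q : ℤ) with hT₂
  have hT₂card : T₂.card ≤ (∑ i, (F i).natDegree) * r := by
    have h1 : ∀ q ∈ Finset.range r, (Finset.univ.biUnion fun i =>
        (Icc 1 Y).filter fun n : ℕ => (F i).eval (n : ℤ) = (q : ℤ)).card ≤
          ∑ i, (F i).natDegree := fun q _ =>
      card_biUnion_le.trans (sum_le_sum fun i _ => card_value_le (hF.deg i) _ _)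
    refine card_biUnion_le.trans ((sum_le_sum h1).trans ?_)
    rw [sum_const, card_range, smul_eq_mul, mul_comm]
  have hsub : primeArgs F r Y ⊆ T₁ ∪ T₂ := by
    intro n hn
    rw [primeArgs, mem_filter] at hn
    obtain ⟨hn1, hn2, hn3⟩ := hn
    rw [mem_union]
    by_cases hbig : ∀ i, ∀ q : ℕ, (F i).eval (n : ℤ) = q → r ≤ q
    · left
      rw [hT₁, mem_filter]
      refine ⟨hn1, fun p hp hpd => ?_⟩
      have hpp := Nat.prime_of_mem_primesBelow hp
      have hpr := Nat.lt_of_mem_primesBelow hp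
      have hpZ := Nat.prime_iff_prime_int.mp hpp
      rw [hH p hpp hpr] at hpd
      have hFd : ¬ (p : ℤ) ∣ (∏ i, F i).eval (n : ℤ) := by
        intro h
        rw [eval_prod] at h
        obtain ⟨i, _, hi⟩ := (hpZ.dvd_finsetProd_iff _).mp h
        obtain ⟨q, hq, hqe⟩ := hn3 i
        rw [hqe, Int.natCast_dvd_natCast, Nat.prime_dvd_prime_iff_eq hpp hq] at hi
        have := hbig i q hqe
        omega
      unfold mixPoly at hpd
      split_ifs at hpd with hdr
      · rw [eval_mul, eval_X] at hpd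
        rcases hpZ.dvd_or_dvd hpd with h | h
        · rw [Int.natCast_dvd_natCast] at h
          exact Nat.not_coprime_of_dvd_of_dvd hpp.one_lt h hdr hn2
        · exact hFd h
      · exact hFd hpd
    · right
      push Not at hbig
      obtain ⟨i, q, hq, hqr⟩ := hbig
      rw [hT₂, mem_biUnion]
      refine ⟨q, Finset.mem_range.mpr hqr, ?_⟩
      rw [mem_biUnion]
      exact ⟨i, Finset.mem_univ _, mem_filter.2 ⟨hn1, hq⟩⟩
  exact (card_le_card hsub).trans ((card_union_le _ _).trans (Nat.add_le_add_left hT₂card _))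

/-- `H59.poly_sieve` for the polynomial `H = (∏ F_i) (A x + B)`, where (Chinese remainder theorem for
the primes below `r`) `A ≡ 1, B ≡ 0` mod `p` for `p ∣ r` and `A ≡ 0, B ≡ 1` mod `p` for `p ∤ r`:
`rootCount H p = rootCount (mixPoly F r p) p` for all primes `p < r` (the values of `H` and of
`mixPoly F r p` are congruent modulo `p`). It is `≤ κ = kap F h + 1`
(`omegaN_le_sum`-like: `rootCount_prod_le`, `rootCount_mul_le`, `rootCount_le_natDegree`) and `< p`
by `hF.fix` (a non-root of `x ∏ F_i` is a non-root of `∏ F_i`). `Y = r`, `X = r ^ BB`,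
`R = X ^ (1/12)`: `(log 2 + 28 κ log 4) log r ≤ (BB/12) log r`.
The `n ≤ X` counted by `primeArgs`: either all `F_i(n)` are primes `≥ r`, then no prime `p < r`
divides `H(n)` (if `p ∣ r` then `p ∤ n`), or some `F_i(n) < r`: at most `∑ deg F_i · r` such `n`
(`card_value_le`), and `r ≤ R ^ 10 ≤ 2 X V'` by the second part of `poly_sieve`. The same second
part, `X ^ (10/12) ≤ 2 X V'`, is the last claim. -/
theorem mix_sieve {g : ℕ} (F : Fin g → ℤ[X]) (hF : Sys F) (h : ℕ) :
    ∃ C : ℝ, 0 < C ∧ ∃ r₀ : ℕ, ∀ r : ℕ, r₀ ≤ r →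
      ((primeArgs F r (r ^ BB F h)).card : ℝ) ≤ C * (r : ℝ) ^ BB F h * VF F r ∧
      1 ≤ 2 * ((r : ℝ) ^ BB F h) ^ (1 / 6 : ℝ) * VF F r := by
  classical
  set κ : ℕ := kap F h + 1 with hκ
  set κ' : ℕ := ∑ i, (F i).natDegree with hκ'
  refine ⟨4 + 2 * κ', by positivity, 2, fun r hr => ?_⟩
  have hr1 : (1 : ℝ) ≤ r := by exact_mod_cast (by omega : 1 ≤ r)
  have hr0 : (0 : ℝ) < r := by linarith
  have hlogr : 0 ≤ Real.log r := Real.log_nonneg hr1
  obtain ⟨H, hH⟩ := MX_poly F r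
  have hroot : ∀ p : ℕ, p.Prime → p < r → rootCount H p = rootCount (mixPoly F r p) p := by
    intro p hp hpr
    unfold rootCount
    congr 1
    exact filter_congr fun n _ => hH p hp hpr n
  set B : ℕ := BB F h with hB
  have hB12 : 12 ≤ B := by rw [hB]; unfold BB; omega
  set Z : ℝ := (r : ℝ) ^ B with hZ
  have hZ1 : 1 ≤ Z := one_le_pow₀ hr1
  have hZ0 : 0 < Z := by linarith
  set R : ℝ := Z ^ (1 / 12 : ℝ) with hR
  have hR1 : 1 ≤ R := Real.one_le_rpow hZ1 (by norm_num)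
  have hR12 : R ^ 12 = Z := by
    rw [hR, ← Real.rpow_natCast, ← Real.rpow_mul hZ0.le]
    norm_num
  have hlogR : Real.log R = B / 12 * Real.log r := by
    rw [hR, Real.log_rpow hZ0, hZ, Real.log_pow]
    ring
  have hlog2 : Real.log 2 ≤ 1 := by linarith [Real.log_two_lt_d9]
  have hlog4 : Real.log 4 ≤ 2 := by
    have : (4 : ℝ) = 2 ^ 2 := by norm_num
    rw [this, Real.log_pow]
    push_cast
    linarith
  have hcast : ((r ^ B : ℕ) : ℝ) = Z := by rw [hZ]; push_cast; rfl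
  have hRY : (Real.log 2 + 28 * (κ : ℝ) * Real.log 4) * Real.log r ≤ Real.log R := by
    rw [hlogR]
    refine mul_le_mul_of_nonneg_right ?_ hlogr
    have h1 : (B : ℝ) = 4000 * ((κ : ℝ) + 1) := by
      rw [hB, hκ]
      unfold BB
      push_cast
      ring
    have h2 : 28 * (κ : ℝ) * Real.log 4 ≤ 28 * (κ : ℝ) * 2 := by gcongr
    have h3 : (0 : ℝ) ≤ κ := Nat.cast_nonneg κ
    rw [h1]
    linarith
  have hrR : (r : ℝ) ≤ R ^ 10 := by
    have h1 : (r : ℝ) ^ 12 ≤ R ^ 12 := by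
      rw [hR12, hZ]
      exact pow_le_pow_right₀ hr1 hB12
    have h2 : (r : ℝ) ≤ R := le_of_pow_le_pow_left₀ (by norm_num) (by linarith) h1
    exact h2.trans (le_self_pow₀ hR1 (by norm_num))
  obtain ⟨s1, s2⟩ := poly_sieve H (κ := κ) (Y := r) (X := r ^ B) (R := R)
    (fun p hp hpr => by rw [hroot p hp hpr]; exact MX_le F hF h r hp)
    (fun p hp hpr => by rw [hroot p hp hpr]; exact MX_lt F hF r hp) hr hR1 hRY
    (by rw [hcast]; exact hR12.le)
  have hVF : ∏ p ∈ Nat.primesBelow r, (1 - (rootCount H p : ℝ) / p) = VF F r := by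
    unfold VF
    refine prod_congr rfl fun p hp => ?_
    rw [hroot p (Nat.prime_of_mem_primesBelow hp) (Nat.lt_of_mem_primesBelow hp)]
  rw [hVF, hcast] at s1 s2
  constructor
  · have h1 : ((primeArgs F r (r ^ B)).card : ℝ) ≤ 4 * Z * VF F r + κ' * r := by
      refine le_trans ?_ (add_le_add_left s1 _)
      exact_mod_cast MX_card F hF hH (r ^ B)
    have h2 : (κ' : ℝ) * r ≤ κ' * (2 * Z * VF F r) := by
      refine mul_le_mul_of_nonneg_left (hrR.trans s2) (Nat.cast_nonneg _)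
    calc _ ≤ 4 * Z * VF F r + κ' * r := h1
      _ ≤ 4 * Z * VF F r + κ' * (2 * Z * VF F r) := by linarith
      _ = _ := by ring
  · have h1 : Z ^ (1 / 6 : ℝ) = R ^ 2 := by
      rw [hR, ← Real.rpow_natCast, ← Real.rpow_mul hZ0.le]
      norm_num
    rw [h1]
    rw [← hR12] at s2
    have h2 : R ^ 10 * 1 ≤ R ^ 10 * (2 * R ^ 2 * VF F r) := by
      calc R ^ 10 * 1 = R ^ 10 := mul_one _
        _ ≤ 2 * R ^ 12 * VF F r := s2
        _ = _ := by ring
    exact le_of_mul_le_mul_left h2 (by positivity)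

end Pool.Agent.Lib.H68G
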