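import Pool.Agent.Lib.H68G.Defs
import Pool.Agent.Lib.H68X.XL1

/-!
# Chunk RV (S): elementary facts about `rv`, `lam`, `L1`

Use freely the lemmas of `H68X/XL1.lean` (`XL1_zm_*`: real characters), `H68X/XRH.lean`
(`XRH_tail`, `XRH_Ioc`, `hyperbola`) and `L1_lower`.
-/

open Finset

namespace Pool.Agent.Lib.H68G

variable {r : ℕ} [NeZero r] {χ : DirichletCharacter ℂ r}

omit [NeZero r] in
theorem RV_tri (h2 : χ ^ 2 = 1) (n : ℕ) :
    χ (n : ZMod r) = 0 ∨ χ (n : ZMod r) = 1 ∨ χ (n : ZMod r) = -1 := by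
  by_cases hu : IsUnit (n : ZMod r)
  · right
    have h : (χ ^ 2) (n : ZMod r) = (1 : DirichletCharacter ℂ r) (n : ZMod r) := by rw [h2]
    rw [MulChar.pow_apply' χ (by norm_num : (2 : ℕ) ≠ 0), MulChar.one_apply hu] at h
    rw [sq] at h
    exact mul_self_eq_one_iff.1 h
  · left
    exact MulChar.map_nonunit χ hu

/-- `χ(n)² ∈ {0, 1}`, so `χ(n)` is real. -/
theorem rv_cast (h2 : χ ^ 2 = 1) (n : ℕ) : χ (n : ZMod r) = ((rv χ n : ℝ) : ℂ) := by
  unfold rv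
  rcases RV_tri h2 n with h | h | h <;> rw [h] <;> simp

theorem rv_mul (h2 : χ ^ 2 = 1) (m n : ℕ) : rv χ (m * n) = rv χ m * rv χ n := by
  have h : ((rv χ (m * n) : ℝ) : ℂ) = ((rv χ m * rv χ n : ℝ) : ℂ) := by
    rw [← rv_cast h2]
    push_cast
    rw [← rv_cast h2, ← rv_cast h2, map_mul]
  exact_mod_cast h

theorem rv_one : rv χ 1 = 1 := by
  unfold rv
  rw [Nat.cast_one, map_one, Complex.one_re]

theorem rv_eq_zero {n : ℕ} (hn : ¬ n.Coprime r) : rv χ n = 0 := by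
  unfold rv
  rw [MulChar.map_nonunit χ (by rw [ZMod.isUnit_iff_coprime]; exact hn), Complex.zero_re]

theorem rv_cases (h2 : χ ^ 2 = 1) {n : ℕ} (hn : n.Coprime r) : rv χ n = 1 ∨ rv χ n = -1 := by
  unfold rv
  rcases RV_tri h2 n with h | h | h
  · exfalso
    have hu : IsUnit (n : ZMod r) := (ZMod.isUnit_iff_coprime n r).2 hn
    exact ((hu.map χ).ne_zero) h
  · left; rw [h, Complex.one_re]
  · right; rw [h, Complex.neg_re, Complex.one_re]

theorem abs_rv_le (n : ℕ) : |rv χ n| ≤ 1 :=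
  (Complex.abs_re_le_norm _).trans (DirichletCharacter.norm_le_one χ _)

open ArithmeticFunction DirichletCharacter in
omit [NeZero r] in
theorem RV_lam_re (m : ℕ) : lam χ m = (zetaMul χ m).re := by
  rw [Pool.Agent.Lib.H68T.XL1_zm_eq, Complex.re_sum]
  rfl

open ArithmeticFunction DirichletCharacter in
theorem RV_lam_cast (h2 : χ ^ 2 = 1) (m : ℕ) : ((lam χ m : ℝ) : ℂ) = zetaMul χ m := by
  rw [Pool.Agent.Lib.H68T.XL1_zm_eq, lam, Complex.ofReal_sum]
  exact sum_congr rfl fun d _ => (rv_cast h2 d).symm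

/-- `λ(m) ≥ 0`: multiplicative, `λ(p^k) = 1 + χ(p) + ⋯ + χ(p)^k ≥ 0`. (Mathlib has
`DirichletCharacter.BadChar`/`zetaMul_nonneg`; `XL1.lean` uses it.) -/
theorem lam_nonneg (h2 : χ ^ 2 = 1) (m : ℕ) : 0 ≤ lam χ m := by
  rw [RV_lam_re]
  exact Pool.Agent.Lib.H68T.XL1_zm_re h2 m

theorem lam_mul (h2 : χ ^ 2 = 1) {m n : ℕ} (h : m.Coprime n) :
    lam χ (m * n) = lam χ m * lam χ n := by
  have h' : ((lam χ (m * n) : ℝ) : ℂ) = ((lam χ m * lam χ n : ℝ) : ℂ) := by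
    push_cast
    rw [RV_lam_cast h2, RV_lam_cast h2, RV_lam_cast h2]
    exact χ.isMultiplicative_zetaMul.map_mul_of_coprime h
  exact_mod_cast h'

theorem lam_prime {q : ℕ} (hq : q.Prime) (h1 : rv χ q = 1) : lam χ q = 2 := by
  unfold lam
  rw [Nat.Prime.sum_divisors hq, h1, rv_one]
  norm_num

theorem RV_arch {x c : ℝ} (h : ∀ n : ℕ, x * ((n : ℝ) + 1) ≤ c) : x ≤ 0 := by
  by_contra hx
  push Not at hx
  obtain ⟨n, hn⟩ := exists_nat_gt (c / x)
  have h1 := h n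
  rw [div_lt_iff₀ hx] at hn
  nlinarith

/-- From `XRH_tail`: the partial sums of `L(1,χ)` are real, their limit is real; it is non-negative
by `hyperbola` and `lam_nonneg`. -/
theorem L1_eq (h1 : χ ≠ 1) (h2 : χ ^ 2 = 1) : χ.LFunction 1 = ((L1 χ : ℝ) : ℂ) := by
  have key : ∀ n : ℕ, ‖(((∑ m ∈ Icc 1 ((n + 1) ^ 2), lam χ m : ℝ) : ℂ) -
      (((n + 1) ^ 2 : ℕ) : ℂ) * χ.LFunction 1)‖ ≤ 4 * r * ((n : ℝ) + 1) := by
    intro n
    have h := Pool.Agent.Lib.H68T.hyperbola r χ h1 ((n + 1) ^ 2)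
    have e1 : Real.sqrt (((n + 1) ^ 2 : ℕ) : ℝ) = (n : ℝ) + 1 := by
      push_cast
      exact Real.sqrt_sq (by positivity)
    rw [e1] at h
    refine le_trans (le_of_eq ?_) h
    congr 2
    rw [Complex.ofReal_sum]
    refine sum_congr rfl fun m _ => ?_
    rw [lam, Complex.ofReal_sum]
    exact sum_congr rfl fun d _ => (rv_cast h2 d).symm
  have him : (χ.LFunction 1).im = 0 := by
    have h3 : |(χ.LFunction 1).im| ≤ 0 := by
      apply RV_arch (c := 4 * r)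
      intro n
      have h4 := (Complex.abs_im_le_norm _).trans (key n)
      rw [Complex.sub_im, Complex.ofReal_im, zero_sub, abs_neg, Complex.mul_im,
        Complex.natCast_re, Complex.natCast_im, zero_mul, add_zero, abs_mul, Nat.abs_cast] at h4
      push_cast at h4
      have h5 : (0 : ℝ) < (n : ℝ) + 1 := by positivity
      have h6 : ((n : ℝ) + 1) * (|(χ.LFunction 1).im| * ((n : ℝ) + 1)) ≤ ((n : ℝ) + 1) * (4 * r) := by
        nlinarith
      exact le_of_mul_le_mul_left h6 h5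
    exact abs_eq_zero.1 (le_antisymm h3 (abs_nonneg _))
  have hre : 0 ≤ (χ.LFunction 1).re := by
    have h3 : -(χ.LFunction 1).re ≤ 0 := by
      apply RV_arch (c := 4 * r)
      intro n
      have h4 := (le_abs_self _).trans ((Complex.abs_re_le_norm _).trans (key n))
      rw [Complex.sub_re, Complex.ofReal_re, Complex.mul_re,
        Complex.natCast_re, Complex.natCast_im, zero_mul, sub_zero] at h4
      push_cast at h4
      have h5 : (0 : ℝ) < (n : ℝ) + 1 := by positivity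
      have h7 : 0 ≤ ∑ m ∈ Icc 1 ((n + 1) ^ 2), lam χ m := sum_nonneg fun m _ => lam_nonneg h2 m
      have h6 : ((n : ℝ) + 1) * (-(χ.LFunction 1).re * ((n : ℝ) + 1)) ≤ ((n : ℝ) + 1) * (4 * r) := by
        nlinarith
      exact le_of_mul_le_mul_left h6 h5
    linarith
  have h5 : χ.LFunction 1 = (((χ.LFunction 1).re : ℝ) : ℂ) := by
    apply Complex.ext
    · rw [Complex.ofReal_re]
    · rw [Complex.ofReal_im, him]
  unfold L1
  rw [h5, Complex.norm_real, Real.norm_of_nonneg hre]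

theorem RV_Icc (D : ℕ) : Icc 1 D = Ioc 0 D := by
  ext x
  simp only [mem_Ioc, mem_Icc]
  omega

/-- Real part of `XRH_tail`. -/
theorem L1_tail (h1 : χ ≠ 1) (h2 : χ ^ 2 = 1) (D : ℕ) :
    |L1 χ - ∑ d ∈ Icc 1 D, rv χ d / d| ≤ 2 * r / (D + 1) := by
  have h := Pool.Agent.Lib.H68T.XRH_tail r χ h1 D
  rw [L1_eq h1 h2] at h
  refine le_trans (le_of_eq ?_) h
  rw [← Real.norm_eq_abs, ← Complex.norm_real, RV_Icc]
  congr 1
  push_cast
  congr 1
  refine sum_congr rfl fun d _ => ?_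
  rw [rv_cast h2]

theorem rv_sum (h1 : χ ≠ 1) (D : ℕ) : |∑ d ∈ Icc 1 D, rv χ d| ≤ r := by
  have h := (Complex.abs_re_le_norm _).trans (Pool.Agent.Lib.H68T.XRH_Ioc r χ h1 0 D)
  rw [Complex.re_sum] at h
  rw [RV_Icc]
  exact h

omit [NeZero r] in
theorem RV_abel (D : ℕ) : ∑ d ∈ Icc 1 D, rv χ d * d =
    D * (∑ d ∈ Icc 1 D, rv χ d) - ∑ k ∈ range D, ∑ d ∈ Icc 1 k, rv χ d := by
  induction D with
  | zero => simp
  | succ D ih =>
    rw [sum_Icc_succ_top (by omega), sum_Icc_succ_top (by omega), sum_range_succ, ih]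
    push_cast
    ring

/-- Abel summation, `XRH_Ioc`. -/
theorem rv_wsum (h1 : χ ≠ 1) (D : ℕ) : |∑ d ∈ Icc 1 D, rv χ d * d| ≤ 2 * r * D := by
  rw [RV_abel]
  have h3 : |(D : ℝ) * (∑ d ∈ Icc 1 D, rv χ d)| ≤ D * r := by
    rw [abs_mul, Nat.abs_cast]
    exact mul_le_mul_of_nonneg_left (rv_sum h1 D) (Nat.cast_nonneg _)
  have h4 : |∑ k ∈ range D, ∑ d ∈ Icc 1 k, rv χ d| ≤ D * r := by
    refine (abs_sum_le_sum_abs _ _).trans ?_
    refine (sum_le_sum fun k _ => rv_sum h1 k).trans ?_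
    rw [sum_const, card_range, nsmul_eq_mul]
  have h5 := abs_sub (D * (∑ d ∈ Icc 1 D, rv χ d)) (∑ k ∈ range D, ∑ d ∈ Icc 1 k, rv χ d)
  linarith

/-- `L1_lower` -/
theorem L1_ge (h1 : χ ≠ 1) (h2 : χ ^ 2 = 1) : 1 / (100 * (r : ℝ)) ≤ L1 χ :=
  Pool.Agent.Lib.H68T.L1_lower r χ h1 h2

end Pool.Agent.Lib.H68G
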