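import Pool.Agent.Lib.H68G.RV
import Pool.Agent.Lib.H68G.MX

/-!
# Chunk UE (M): the upper bound on average, `h` even
-/

open Finset Polynomial

namespace Pool.Agent.Lib.H68G

open Pool.Agent.Lib.H59

open Classical in
/-- The pairs `(N, n)` with `N - a n^h` prime, all `F_i(n)` primes. -/
noncomputable def UE_cnt {g : ℕ} (F : Fin g → ℤ[X]) (a h : ℕ) (S : Finset ℕ) (n : ℕ) : ℕ :=
  (S.filter fun N : ℕ => (∀ i, ∃ q : ℕ, q.Prime ∧ (F i).eval (n : ℤ) = q) ∧
    ∃ q : ℕ, q.Prime ∧ N = q + a * n ^ h).card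

theorem UE_swap {g : ℕ} (F : Fin g → ℤ[X]) (a h : ℕ) (hh : 1 ≤ h)
    (X : ℕ) (S : Finset ℕ) (hS : ∀ N ∈ S, N ≤ a * X ^ h) :
    ∑ N ∈ S, (primeCount F (GG a h) N : ℝ) ≤ ∑ n ∈ Icc 1 X, (UE_cnt F a h S n : ℝ) := by
  classical
  have h1 : ∀ N ∈ S, primeCount F (GG a h) N ≤
      ((Icc 1 X).filter fun n : ℕ => (∀ i, ∃ q : ℕ, q.Prime ∧ (F i).eval (n : ℤ) = q) ∧
        ∃ q : ℕ, q.Prime ∧ N = q + a * n ^ h).card := by
    intro N hN
    unfold primeCount
    rw [← Set.ncard_coe_finset]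
    apply Set.ncard_le_ncard _ (Finset.finite_toSet _)
    rintro n ⟨⟨hn0, hn⟩, hF, q, hq, hqN⟩
    rw [eval_GG] at hqN
    have h2 : N = q + a * n ^ h := by
      have h3 : (N : ℤ) = q + a * (n : ℤ) ^ h := by linarith
      exact_mod_cast h3
    rw [Finset.mem_coe, mem_filter, mem_Icc]
    refine ⟨⟨hn0, ?_⟩, hF, q, hq, h2⟩
    by_contra hcon
    push Not at hcon
    have h4 : X ^ h ≤ n ^ h := Nat.pow_le_pow_left hcon.le h
    have h5 := hS N hN
    have h6 : a * X ^ h ≤ a * n ^ h := Nat.mul_le_mul_left a h4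
    have h7 := hq.pos
    omega
  have h2 : ∑ N ∈ S, primeCount F (GG a h) N ≤ ∑ n ∈ Icc 1 X, UE_cnt F a h S n := by
    refine (Finset.sum_le_sum h1).trans (le_of_eq ?_)
    unfold UE_cnt
    simp only [Finset.card_filter]
    exact Finset.sum_comm
  exact_mod_cast h2

/-- the values `q = N - a n^h` are in one class -/
theorem UE_pic {g : ℕ} (F : Fin g → ℤ[X]) (a h r : ℕ) (T : ℕ) (S : Finset ℕ)
    (hS : ∀ N ∈ S, N ≤ T ∧ r ∣ N) (n : ℕ) :
    UE_cnt F a h S n ≤ pic T r (-(a : ZMod r) * (n : ZMod r) ^ h) := by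
  classical
  unfold UE_cnt pic
  refine Finset.card_le_card_of_injOn (fun N => N - a * n ^ h) ?_ ?_
  · intro N hN
    rw [Finset.mem_coe, mem_filter] at hN
    obtain ⟨hNS, -, q, hq, hqN⟩ := hN
    have h1 : N - a * n ^ h = q := by omega
    rw [Finset.mem_coe, mem_filter, mem_Icc]
    simp only [h1]
    obtain ⟨hNT, hrN⟩ := hS N hNS
    refine ⟨⟨hq.one_le, by omega⟩, hq, ?_⟩
    have h2 : ((N : ℕ) : ZMod r) = 0 := (ZMod.natCast_eq_zero_iff N r).2 hrN
    rw [hqN] at h2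
    push_cast at h2
    linear_combination h2
  · intro N hN N' hN' hNN
    rw [Finset.mem_coe, mem_filter] at hN hN'
    obtain ⟨-, -, q, hq, hqN⟩ := hN
    obtain ⟨-, -, q', hq', hqN'⟩ := hN'
    simp only at hNN
    omega

theorem UE_zero {g : ℕ} (F : Fin g → ℤ[X]) (a h : ℕ) (S : Finset ℕ) (n : ℕ)
    (hn : ¬ ∀ i, ∃ q : ℕ, q.Prime ∧ (F i).eval (n : ℤ) = q) : UE_cnt F a h S n = 0 := by
  classical
  unfold UE_cnt
  rw [Finset.card_eq_zero, Finset.filter_eq_empty_iff]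
  intro N _ hN
  exact hn hN.1

/-- if `n` is not prime to `r` the prime `q = N - a n^h` divides `r` -/
theorem UE_bad {g : ℕ} (F : Fin g → ℤ[X]) (a h r : ℕ) (hr : r ≠ 0) (hh : 1 ≤ h) (S : Finset ℕ)
    (hS : ∀ N ∈ S, r ∣ N) (n : ℕ) (hn : ¬ n.Coprime r) : UE_cnt F a h S n ≤ r := by
  classical
  unfold UE_cnt
  have h0 : (Icc 1 r).card = r := by simp
  conv_rhs => rw [← h0]
  refine Finset.card_le_card_of_injOn (fun N => N - a * n ^ h) ?_ ?_
  · intro N hN
    rw [Finset.mem_coe, mem_filter] at hN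
    obtain ⟨hNS, -, q, hq, hqN⟩ := hN
    have h1 : N - a * n ^ h = q := by omega
    rw [Finset.mem_coe, mem_Icc]
    simp only [h1]
    obtain ⟨p, hp, hpn, hpr⟩ := Nat.Prime.not_coprime_iff_dvd.1 hn
    have h2 : p ∣ N := hpr.trans (hS N hNS)
    have h3 : p ∣ a * n ^ h := Dvd.dvd.mul_left (dvd_pow hpn (by omega)) a
    rw [hqN] at h2
    have h4 : p ∣ q := (Nat.dvd_add_left h3).1 h2
    have h5 : p = q := (Nat.prime_dvd_prime_iff_eq hp hq).1 h4
    exact ⟨hq.one_le, Nat.le_of_dvd (Nat.pos_of_ne_zero hr) (h5 ▸ hpr)⟩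
  · intro N hN N' hN' hNN
    rw [Finset.mem_coe, mem_filter] at hN hN'
    obtain ⟨-, -, q, hq, hqN⟩ := hN
    obtain ⟨-, -, q', hq', hqN'⟩ := hN'
    simp only at hNN
    omega

theorem UE_sq {r : ℕ} (χ : DirichletCharacter ℂ r) (h2 : χ ^ 2 = 1) {n : ℕ}
    (hn : n.Coprime r) : χ (n : ZMod r) ^ 2 = 1 := by
  have hu : IsUnit (n : ZMod r) := (ZMod.isUnit_iff_coprime n r).2 hn
  rw [← MulChar.pow_apply' χ two_ne_zero, h2, MulChar.one_apply hu]

/-- `∑_{N ∈ S} Q_1(N)` counts pairs `(n, q)`, `N = q + a n^h ∈ S`; so `1 ≤ n ≤ X` (`a n^h < N ≤ a X^h`),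
all `F_i(n)` are primes, `q ≤ T = a X^h` is a prime and `r ∣ q + a n^h`. For given `n` and `q` there
is at most one `N`. `(n, r) = 1`: `(q : ZMod r) = - a n^h`, and `χ(- a n^h) = χ(-a) χ(n)^h = 1` (`h` even,
`χ(n) = ±1`), so at most `K` primes `q` for each of the `n ∈ primeArgs F r X`. `(n, r) > 1`: a prime
`p ∣ (n, r)` divides `q`, so `q = p ∣ r`: at most `r` values of `q`. -/
theorem up_even {g : ℕ} (F : Fin g → ℤ[X]) (a h r : ℕ) [NeZero r] (χ : DirichletCharacter ℂ r)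
    (h2 : χ ^ 2 = 1) (hh : 1 ≤ h) (hev : Even h) (hχa : χ (-(a : ZMod r)) = 1) (ha : 1 ≤ a)
    (X : ℕ) (S : Finset ℕ) (hS : ∀ N ∈ S, N ≤ a * X ^ h ∧ r ∣ N) (K : ℝ) (hK0 : 0 ≤ K)
    (hK : ∀ c : ZMod r, χ c = 1 → (pic (a * X ^ h) r c : ℝ) ≤ K) :
    ∑ N ∈ S, (primeCount F (GG a h) N : ℝ) ≤ ((primeArgs F r X).card : ℝ) * K + X * r := by
  classical
  refine (UE_swap F a h hh X S fun N hN => (hS N hN).1).trans ?_
  have h1 : ∀ n ∈ Icc 1 X, (UE_cnt F a h S n : ℝ) ≤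
      (if n ∈ primeArgs F r X then K else 0) + r := by
    intro n hn
    by_cases hF : ∀ i, ∃ q : ℕ, q.Prime ∧ (F i).eval (n : ℤ) = q
    · by_cases hc : n.Coprime r
      · have hmem : n ∈ primeArgs F r X := by
          unfold primeArgs
          rw [mem_filter]
          exact ⟨hn, hc, hF⟩
        rw [if_pos hmem]
        have hchi : χ (-(a : ZMod r) * (n : ZMod r) ^ h) = 1 := by
          obtain ⟨k, rfl⟩ := hev
          rw [map_mul, hχa, one_mul, map_pow, ← two_mul, pow_mul, UE_sq χ h2 hc, one_pow]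
        have h3 := hK _ hchi
        have h4 : (UE_cnt F a h S n : ℝ) ≤ pic (a * X ^ h) r (-(a : ZMod r) * (n : ZMod r) ^ h) := by
          exact_mod_cast UE_pic F a h r (a * X ^ h) S hS n
        have h5 : (0 : ℝ) ≤ r := Nat.cast_nonneg r
        linarith
      · have h3 : (UE_cnt F a h S n : ℝ) ≤ r := by
          exact_mod_cast UE_bad F a h r (NeZero.ne r) hh S (fun N hN => (hS N hN).2) n hc
        have h4 : (0 : ℝ) ≤ if n ∈ primeArgs F r X then K else 0 := by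
          split_ifs
          · exact hK0
          · exact le_rfl
        linarith
    · rw [UE_zero F a h S n hF]
      have h4 : (0 : ℝ) ≤ if n ∈ primeArgs F r X then K else 0 := by
        split_ifs
        · exact hK0
        · exact le_rfl
      have h5 : (0 : ℝ) ≤ r := Nat.cast_nonneg r
      push_cast
      linarith
  refine (Finset.sum_le_sum h1).trans ?_
  rw [Finset.sum_add_distrib, Finset.sum_const, Nat.card_Icc, ← Finset.sum_filter,
    Finset.sum_const, nsmul_eq_mul, nsmul_eq_mul]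
  have h3 : ((Icc 1 X).filter fun n => n ∈ primeArgs F r X) ⊆ primeArgs F r X := by
    intro n hn
    exact (mem_filter.1 hn).2
  have h4 : ((((Icc 1 X).filter fun n => n ∈ primeArgs F r X).card : ℕ) : ℝ) ≤
      ((primeArgs F r X).card : ℝ) := by
    exact_mod_cast Finset.card_le_card h3
  have h5 := mul_le_mul_of_nonneg_right h4 hK0
  have h6 : ((X + 1 - 1 : ℕ) : ℝ) = X := by simp
  rw [h6]
  linarith

end Pool.Agent.Lib.H68G
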