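import Pool.Agent.Lib.H68G.LB
import Pool.Agent.Lib.H68G.BT
import Pool.Agent.Lib.H68G.MX
import Pool.Agent.Lib.H68G.CH
import Pool.Agent.Lib.H68G.CL
import Pool.Agent.Lib.H68G.AV
import Pool.Agent.Lib.H68G.LQ
import Pool.Agent.Lib.H68G.UE

/-!
# Chunk ST (M): the key inequality for even `h`
-/

open Finset Polynomial

namespace Pool.Agent.Lib.H68G

open Pool.Agent.Lib.H59

/-- A real character with `χ(-a) ≠ 0` has modulus coprime to `a`. -/
theorem ST_coprime {r : ℕ} {χ : DirichletCharacter ℂ r} {a : ℕ} (h : χ (-(a : ZMod r)) ≠ 0) :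
    Nat.Coprime a r := by
  have h1 : IsUnit (-(a : ZMod r)) := by
    by_contra hn
    exact h (χ.map_nonunit hn)
  rw [IsUnit.neg_iff] at h1
  exact (ZMod.isUnit_iff_coprime a r).1 h1

/-- Comparison of sizes: `X = r ^ B`, `y = X ^ (1/6)`. -/
theorem ST_sizes {r B T : ℕ} {V W c Cm : ℝ} (hr : 3 ≤ r) (hB : 6 ≤ B) (hc : 0 < c)
    (hT : (r : ℝ) ^ B ≤ T) (hV : 1 ≤ 2 * ((r : ℝ) ^ B) ^ (1 / 6 : ℝ) * V)
    (hW : 1 / (500 * Real.log r) ≤ W) (h1 : 2000 * Cm / c ≤ r) (h2 : 4000 / c ≤ r)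
    (_hCm : 0 < Cm) :
    0 < V ∧ 0 < W ∧ 0 < (T : ℝ) / r ∧ Cm ≤ c / 4 * ((T / r) * W) ∧
      r ≤ c / 4 * ((T / r) * V * W) := by
  have hr0 : (0 : ℝ) < r := by exact_mod_cast (by omega : 0 < r)
  have hr3 : (3 : ℝ) ≤ r := by exact_mod_cast hr
  have hlog0 : 0 < Real.log r := Real.log_pos (by linarith)
  have hlogr : Real.log r ≤ r := (Real.log_le_sub_one_of_pos hr0).trans (by linarith)
  have hW' : 1 / (500 * (r : ℝ)) ≤ W := by
    refine le_trans ?_ hW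
    exact one_div_le_one_div_of_le (by positivity) (by linarith)
  have hW0 : 0 < W := lt_of_lt_of_le (by positivity) hW'
  set Z : ℝ := (r : ℝ) ^ B with hZ
  have hZ0 : 0 < Z := by positivity
  set y : ℝ := Z ^ (1 / 6 : ℝ) with hy
  have hy0 : 0 < y := Real.rpow_pos_of_pos hZ0 _
  have hy6 : y ^ 6 = Z := by
    rw [hy, ← Real.rpow_natCast, ← Real.rpow_mul hZ0.le]
    norm_num
  have hyr : (r : ℝ) ≤ y := by
    have h3 : (r : ℝ) ^ 6 ≤ y ^ 6 := by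
      rw [hy6, hZ]
      exact pow_le_pow_right₀ (by linarith) hB
    exact le_of_pow_le_pow_left₀ (by norm_num) hy0.le h3
  have hV0 : 0 < V := by
    by_contra hn
    have h3 : 2 * y * V ≤ 0 := mul_nonpos_of_nonneg_of_nonpos (by positivity) (not_lt.1 hn)
    linarith
  have hZV : (r : ℝ) ^ 5 / 2 ≤ Z * V := by
    have h3 : y ^ 5 ≤ 2 * (Z * V) := by
      have h4 := mul_le_mul_of_nonneg_left hV (by positivity : 0 ≤ y ^ 5)
      calc y ^ 5 = y ^ 5 * 1 := by ring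
        _ ≤ y ^ 5 * (2 * y * V) := h4
        _ = 2 * (y ^ 6 * V) := by ring
        _ = 2 * (Z * V) := by rw [hy6]
    have h5 : (r : ℝ) ^ 5 ≤ y ^ 5 := pow_le_pow_left₀ hr0.le hyr 5
    linarith
  have hT0 : (0 : ℝ) < T := lt_of_lt_of_le hZ0 hT
  have hTr0 : 0 < (T : ℝ) / r := by positivity
  refine ⟨hV0, hW0, hTr0, ?_, ?_⟩
  · have h3 : (r : ℝ) ^ 3 ≤ Z := by
      rw [hZ]
      exact pow_le_pow_right₀ (by linarith) (by omega)
    have h4 : (r : ℝ) ^ 2 ≤ T / r := by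
      rw [le_div_iff₀ hr0]
      calc (r : ℝ) ^ 2 * r = (r : ℝ) ^ 3 := by ring
        _ ≤ (T : ℝ) := h3.trans hT
    have h5 : (r : ℝ) / 500 ≤ T / r * W := by
      calc (r : ℝ) / 500 = (r : ℝ) ^ 2 * (1 / (500 * r)) := by field_simp
        _ ≤ T / r * W := mul_le_mul h4 hW' (by positivity) hTr0.le
    have h6 : c / 4 * ((r : ℝ) / 500) ≤ c / 4 * (T / r * W) :=
      mul_le_mul_of_nonneg_left h5 (by positivity)
    rw [div_le_iff₀ hc] at h1
    linarith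
  · have h3 : (r : ℝ) ^ 4 / 2 ≤ T / r * V := by
      have h4 : Z * V ≤ T * V := mul_le_mul_of_nonneg_right hT hV0.le
      rw [div_mul_eq_mul_div, le_div_iff₀ hr0]
      calc (r : ℝ) ^ 4 / 2 * r = (r : ℝ) ^ 5 / 2 := by ring
        _ ≤ T * V := hZV.trans h4
    have h5 : (r : ℝ) ^ 3 / 1000 ≤ T / r * V * W := by
      calc (r : ℝ) ^ 3 / 1000 = (r : ℝ) ^ 4 / 2 * (1 / (500 * r)) := by field_simp; norm_num
        _ ≤ T / r * V * W := mul_le_mul h3 hW' (by positivity) (by positivity)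
    have h6 : c / 4 * ((r : ℝ) ^ 3 / 1000) ≤ c / 4 * (T / r * V * W) :=
      mul_le_mul_of_nonneg_left h5 (by positivity)
    rw [div_le_iff₀ hc] at h2
    have h7 : (r : ℝ) ^ 2 * 4000 ≤ (r : ℝ) ^ 2 * (r * c) :=
      mul_le_mul_of_nonneg_left h2 (by positivity)
    have h8 : (r : ℝ) ≤ (r : ℝ) ^ 2 := by nlinarith
    nlinarith

theorem ST_arith {c Cm t V W E K r : ℝ} (hK : K = 1 + 16 * t * W * E)
    (h1 : c * t * V * W ≤ Cm * V * K + r) (h2 : Cm ≤ c / 4 * (t * W)) (hV : 0 ≤ V)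
    (h3 : r ≤ c / 4 * (t * V * W)) :
    c / 2 * (t * W * V) ≤ 16 * Cm * E * (t * W * V) := by
  have h4 : Cm * V ≤ c / 4 * (t * W) * V := mul_le_mul_of_nonneg_right h2 hV
  have e1 : Cm * V * K = Cm * V + 16 * Cm * E * (t * W * V) := by rw [hK]; ring
  have e2 : c * t * V * W = c * (t * W * V) := by ring
  have e3 : c / 4 * (t * W) * V = c / 4 * (t * W * V) := by ring
  have e4 : c / 4 * (t * V * W) = c / 4 * (t * W * V) := by ring
  rw [e1, e2] at h1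
  rw [e3] at h4
  rw [e4] at h3
  linarith

/-- `X = r ^ BB`, `T = a X ^ h`, `M, q, b` from `exists_class` (`not_sq_dvd`; `a` is coprime to `r`
because `χ(-a) ≠ 0`), `S = NN T q b`. Lower bound: `low_q`, `avg`:
`∑_S Q_1 ≥ c₁ X c₂ (T/r) V'_F W`. Upper bound: `up_even` with
`K = 1 + 16 (T/r) W E`, `E = L(1,χ) U` (`pic_small`, `T ≥ r ^ 2000`), `mix_sieve`:
`∑_S Q_1 ≤ C X V'_F (1 + 16 (T/r) W E) + X r`. Divide by `X (T/r) V'_F W`:
`c₁ c₂ ≤ C r/(T W) + 16 C E + r²/(T V'_F W)`; `T ≥ X = r ^ BB ≥ r ^ 4000`, `W ≥ 1/(500 r)` (`WW_ge`),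
`V'_F ≥ X ^ (-1/6)/2` (`mix_sieve`), so the first and the third term are at most `c₁ c₂/4` for
large `r`. -/
theorem star_even {g : ℕ} (F : Fin g → ℤ[X]) (hF : Sys F) (a h : ℕ) (ha : 1 ≤ a) (hh : 1 ≤ h)
    (hev : Even h) (hL : LowerHalf F (GG a h)) : ∃ C : ℝ, 0 < C ∧ ∃ r₀ : ℕ,
      ∀ (r : ℕ) [NeZero r] (χ : DirichletCharacter ℂ r), r₀ ≤ r → RP χ →
        χ (-(a : ZMod r)) = 1 → Star C χ := by
  obtain ⟨M, hM1, hM⟩ := exists_class F hF a h ha hh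
  obtain ⟨c₂, hc₂, r₂, h₂⟩ := avg F hF a h M ha hh hM1
  obtain ⟨c₁, hc₁, r₁, h₁⟩ := low_q F hF a h ha hh hL
  obtain ⟨Cm, hCm, r₃, h₃⟩ := mix_sieve F hF h
  obtain ⟨r₄, h₄⟩ := pic_small
  set c : ℝ := c₁ * c₂ with hc
  have hc0 : 0 < c := mul_pos hc₁ hc₂
  set r₅ : ℕ := ⌈2000 * Cm / c⌉₊ + ⌈4000 / c⌉₊ + 3 with hr₅
  refine ⟨32 * Cm / c, by positivity, max (max r₁ r₂) (max (max r₃ r₄) r₅),
    fun r _ χ hr hRP hχa => ?_⟩
  have g1 : r₁ ≤ r := ((le_max_left _ _).trans (le_max_left _ _)).trans hr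
  have g2 : r₂ ≤ r := ((le_max_right _ _).trans (le_max_left _ _)).trans hr
  have g3 : r₃ ≤ r :=
    (((le_max_left _ _).trans (le_max_left _ _)).trans (le_max_right _ _)).trans hr
  have g4 : r₄ ≤ r :=
    (((le_max_right _ _).trans (le_max_left _ _)).trans (le_max_right _ _)).trans hr
  have g5 : r₅ ≤ r := ((le_max_right _ _).trans (le_max_right _ _)).trans hr
  have hr3 : 3 ≤ r := by omega
  have hr0 : (0 : ℝ) < r := by exact_mod_cast (by omega : 0 < r)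
  have hco : Nat.Coprime a r := ST_coprime (χ := χ) (by rw [hχa]; exact one_ne_zero)
  obtain ⟨q, b, hrq, hqM, hN⟩ := hM r (by omega) hco (fun p hp hp2 => not_sq_dvd hRP hp hp2)
  set B := BB F h with hB
  have hB4 : 4000 ≤ B := by rw [hB]; unfold BB; omega
  set X : ℕ := r ^ B with hX
  set T : ℕ := a * X ^ h with hT
  have hX1 : 1 ≤ X := Nat.one_le_pow _ _ (by omega)
  have hXT : X ≤ T := by
    calc X = 1 * X ^ 1 := by ring
      _ ≤ a * X ^ h := Nat.mul_le_mul ha (Nat.pow_le_pow_right hX1 hh)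
  have hrX : ∀ m : ℕ, m ≤ 4000 → r ^ m ≤ T := fun m hm =>
    (Nat.pow_le_pow_right (by omega) (hm.trans hB4)).trans hXT
  set S := NN T q b with hS
  have hSmem : ∀ N ∈ S, T / 2 < N ∧ N ≤ T ∧ r ∣ N ∧ Admissible F (GG a h) N := by
    intro N hNS
    rw [hS, NN, mem_filter, mem_Ioc] at hNS
    obtain ⟨h5, h6⟩ := hN N hNS.2
    exact ⟨hNS.1.1, hNS.1.2, h5, h6⟩
  have k2 := h₂ r g2 hco q b hrq hqM T (hrX 5 (by omega)) (fun N hNS => (hSmem N hNS).2.2)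
  set E : ℝ := L1 χ * UU χ with hE
  have hE0 : 0 ≤ E := mul_nonneg (norm_nonneg _) (UU_pos χ).le
  obtain ⟨k3, k3'⟩ := h₃ r g3
  have hWW := WW_ge r hr3
  have hXr : ((X : ℕ) : ℝ) = (r : ℝ) ^ B := by rw [hX]; push_cast; rfl
  have hsz := ST_sizes (r := r) (B := B) (T := T) (V := VF F r) (W := WW r) (c := c) (Cm := Cm)
    hr3 (by omega) hc0 (by rw [← hXr]; exact_mod_cast hXT) k3' hWW
    ((Nat.le_ceil _).trans (by exact_mod_cast (by omega : ⌈2000 * Cm / c⌉₊ ≤ r)))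
    ((Nat.le_ceil _).trans (by exact_mod_cast (by omega : ⌈4000 / c⌉₊ ≤ r))) hCm
  obtain ⟨hV0, hW0, hTr0, s1, s2⟩ := hsz
  set K : ℝ := 1 + 16 * (T / r) * WW r * E with hK
  have hK0 : 0 ≤ K := by positivity
  have hT2 : r ^ 2000 ≤ T := hrX 2000 (by norm_num)
  have hpic : ∀ cc : ZMod r, χ cc = 1 → (pic T r cc : ℝ) ≤ K := fun cc hcc =>
    h₄ r χ g4 hRP.2.1 hRP.2.2 cc hcc T hT2
  have hup := up_even F a h r χ hRP.2.2 hh hev hχa ha X S
    (fun N hNS => ⟨(hSmem N hNS).2.1, (hSmem N hNS).2.2.1⟩) K hK0 hpic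
  have hlow : c₁ * (r : ℝ) ^ B * (c₂ * (T / r) * VF F r * WW r) ≤
      ∑ N ∈ S, (primeCount F (GG a h) N : ℝ) := by
    refine le_trans (mul_le_mul_of_nonneg_left k2 (by positivity)) ?_
    rw [mul_sum]
    refine sum_le_sum fun N hNS => ?_
    obtain ⟨t1, t2, t3, t4⟩ := hSmem N hNS
    exact h₁ r g1 N t1 t2 t4
  have hall : c₁ * (r : ℝ) ^ B * (c₂ * (T / r) * VF F r * WW r) ≤
      Cm * (r : ℝ) ^ B * VF F r * K + (r : ℝ) ^ B * r := by
    refine hlow.trans (hup.trans ?_)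
    rw [hXr]
    have := mul_le_mul_of_nonneg_right k3 hK0
    linarith
  have hrB : 0 < (r : ℝ) ^ B := by positivity
  have hdiv : c * (T / r) * VF F r * WW r ≤ Cm * VF F r * K + r := by
    have h5 : (r : ℝ) ^ B * (c * (T / r) * VF F r * WW r) ≤
        (r : ℝ) ^ B * (Cm * VF F r * K + r) := by
      calc (r : ℝ) ^ B * (c * (T / r) * VF F r * WW r) =
          c₁ * (r : ℝ) ^ B * (c₂ * (T / r) * VF F r * WW r) := by rw [hc]; ring
        _ ≤ _ := hall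
        _ = _ := by ring
    exact le_of_mul_le_mul_left h5 hrB
  have hfin : c / 2 * ((T / r) * WW r * VF F r) ≤ 16 * Cm * E * ((T / r) * WW r * VF F r) :=
    ST_arith hK hdiv s1 hV0.le s2
  have hpos : 0 < (T : ℝ) / r * WW r * VF F r := by positivity
  have hcE : c / 2 ≤ 16 * Cm * E := le_of_mul_le_mul_right hfin hpos
  unfold Star
  rw [← hE, div_mul_eq_mul_div, le_div_iff₀ hc0]
  linarith

end Pool.Agent.Lib.H68G
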