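import Pool.Agent.Lib.H68G.RV
import Pool.Agent.Lib.H68G.MX
import Pool.Agent.Lib.H68G.UE

/-!
# Chunk UO (M): the upper bound on average, `F = (x)`, `h` odd
-/

open Finset Polynomial

namespace Pool.Agent.Lib.H68G

open Pool.Agent.Lib.H59

theorem UO_X {n : ℕ} (h : ∀ i : Fin 1, ∃ q : ℕ, q.Prime ∧
    ((fun _ : Fin 1 => (Polynomial.X : ℤ[X])) i).eval (n : ℤ) = q) : n.Prime := by
  obtain ⟨q, hq, hqn⟩ := h 0
  simp only [Polynomial.eval_X] at hqn
  have h1 : n = q := by exact_mod_cast hqn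
  rw [h1]
  exact hq

theorem UO_mult {g : ℕ} (F : Fin g → ℤ[X]) (a h r : ℕ) (hr : r ≠ 0) (T : ℕ) (S : Finset ℕ)
    (hS : ∀ N ∈ S, N ≤ T ∧ r ∣ N) (n : ℕ) : (UE_cnt F a h S n : ℝ) ≤ (T : ℝ) / r := by
  classical
  have h1 : UE_cnt F a h S n ≤ T / r := by
    have h0 : (Icc 1 (T / r)).card = T / r := by simp
    rw [← h0]
    unfold UE_cnt
    refine Finset.card_le_card_of_injOn (fun N => N / r) ?_ ?_
    · intro N hN
      rw [Finset.mem_coe, mem_filter] at hN
      obtain ⟨hNS, -, q, hq, hqN⟩ := hN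
      obtain ⟨hNT, hrN⟩ := hS N hNS
      have h2 := hq.pos
      rw [Finset.mem_coe, mem_Icc]
      refine ⟨Nat.div_pos (Nat.le_of_dvd (by omega) hrN) (Nat.pos_of_ne_zero hr), ?_⟩
      exact Nat.div_le_div_right hNT
    · intro N hN N' hN' hNN
      rw [Finset.mem_coe, mem_filter] at hN hN'
      have h3 := (hS N hN.1).2
      have h4 := (hS N' hN'.1).2
      simp only at hNN
      rw [← Nat.div_mul_cancel h3, ← Nat.div_mul_cancel h4, hNN]
  have h2 : (UE_cnt F a h S n : ℝ) ≤ ((T / r : ℕ) : ℝ) := by exact_mod_cast h1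
  exact h2.trans Nat.cast_div_le

/-- the number of the primes `p ≤ X` with `χ(p) = 1` -/
theorem UO_one (r : ℕ) [NeZero r] (χ : DirichletCharacter ℂ r) (X : ℕ) (K₂ : ℝ) (hK20 : 0 ≤ K₂)
    (hK2 : ∀ c : ZMod r, χ c = 1 → (pic X r c : ℝ) ≤ K₂) :
    ((((Icc 1 X).filter fun n : ℕ => n.Prime ∧ χ (n : ZMod r) = 1).card : ℕ) : ℝ) ≤
      (Nat.totient r : ℝ) * K₂ := by
  classical
  set A := (Icc 1 X).filter fun n : ℕ => n.Prime ∧ χ (n : ZMod r) = 1 with hA
  set B : Finset (ZMod r) := Finset.univ.filter fun c => χ c = 1 with hB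
  have h1 : ∀ n ∈ A, (n : ZMod r) ∈ B := by
    intro n hn
    rw [hA, mem_filter] at hn
    rw [hB, mem_filter]
    exact ⟨mem_univ _, hn.2.2⟩
  have h2 : A.card = ∑ c ∈ B, (A.filter fun n : ℕ => (n : ZMod r) = c).card :=
    Finset.card_eq_sum_card_fiberwise h1
  have h3 : ∀ c ∈ B, (((A.filter fun n : ℕ => (n : ZMod r) = c).card : ℕ) : ℝ) ≤ K₂ := by
    intro c hc
    rw [hB, mem_filter] at hc
    refine le_trans ?_ (hK2 c hc.2)
    unfold pic
    have h4 : (A.filter fun n : ℕ => (n : ZMod r) = c) ⊆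
        (Icc 1 X).filter fun q : ℕ => q.Prime ∧ (q : ZMod r) = c := by
      intro n hn
      rw [mem_filter, hA, mem_filter] at hn
      rw [mem_filter]
      exact ⟨hn.1.1, hn.1.2.1, hn.2⟩
    exact_mod_cast Finset.card_le_card h4
  have h5 : B.card ≤ Nat.totient r := by
    rw [← ZMod.card_units_eq_totient r, ← Finset.card_univ]
    have h6 : B ⊆ (Finset.univ : Finset ((ZMod r)ˣ)).image (fun u : (ZMod r)ˣ => (u : ZMod r)) := by
      intro c hc
      rw [hB, mem_filter] at hc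
      rw [Finset.mem_image]
      have h7 : IsUnit c := by
        by_contra hcon
        rw [MulChar.map_nonunit χ hcon] at hc
        exact zero_ne_one hc.2
      obtain ⟨u, hu⟩ := h7
      exact ⟨u, mem_univ _, hu⟩
    exact (Finset.card_le_card h6).trans Finset.card_image_le
  rw [h2]
  push_cast
  refine (Finset.sum_le_sum h3).trans ?_
  rw [Finset.sum_const, nsmul_eq_mul]
  have h8 : ((B.card : ℕ) : ℝ) ≤ (Nat.totient r : ℝ) := by exact_mod_cast h5
  exact mul_le_mul_of_nonneg_right h8 hK20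

/-- As `up_even`: pairs `(n, q)`, `n = p ≤ X` prime, `q ≤ T = a X^h` prime, `r ∣ q + a p^h`.
`p ∣ r`: at most `r` values of `p`, for each at most `T/r + 1` values of `q` (one class modulo `r`).
`p ∤ r`, `χ(p) = -1`: `χ(- a p^h) = χ(-a) χ(p)^h = (-1)(-1) = 1`, at most `K` values of `q`, and
`p ∈ primeArgs`. `p ∤ r`, `χ(p) = 1`: at most `∑_{c, χ(c) = 1} pic X r c ≤ φ(r) K₂` values of `p`,
and for each at most `K₁` values of `q` (the class `- a p^h` is a unit: `a` is coprime to `r` as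
`χ(-a) ≠ 0`). -/
theorem up_odd (a h r : ℕ) [NeZero r] (χ : DirichletCharacter ℂ r)
    (h2 : χ ^ 2 = 1) (hodd : Odd h) (hχa : χ (-(a : ZMod r)) = -1) (ha : 1 ≤ a)
    (X : ℕ) (S : Finset ℕ) (hS : ∀ N ∈ S, N ≤ a * X ^ h ∧ r ∣ N) (K K₁ K₂ : ℝ) (hK0 : 0 ≤ K)
    (hK : ∀ c : ZMod r, χ c = 1 → (pic (a * X ^ h) r c : ℝ) ≤ K) (hK10 : 0 ≤ K₁)
    (hK1 : ∀ c : ZMod r, IsUnit c → (pic (a * X ^ h) r c : ℝ) ≤ K₁) (hK20 : 0 ≤ K₂)
    (hK2 : ∀ c : ZMod r, χ c = 1 → (pic X r c : ℝ) ≤ K₂) :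
    ∑ N ∈ S, (primeCount (fun _ : Fin 1 => (Polynomial.X : ℤ[X])) (GG a h) N : ℝ) ≤
      ((primeArgs (fun _ : Fin 1 => (Polynomial.X : ℤ[X])) r X).card : ℝ) * K +
        (Nat.totient r : ℝ) * K₂ * K₁ + r * ((a * X ^ h : ℕ) / r + 1) := by
  classical
  set F : Fin 1 → ℤ[X] := fun _ : Fin 1 => (Polynomial.X : ℤ[X]) with hFdef
  have hh : 1 ≤ h := by
    obtain ⟨k, rfl⟩ := hodd
    omega
  refine (UE_swap F a h hh X S fun N hN => (hS N hN).1).trans ?_
  set T : ℕ := a * X ^ h with hT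
  have hr0 : r ≠ 0 := NeZero.ne r
  have hTr : (0 : ℝ) ≤ (T : ℝ) / r := by positivity
  have hpa : (0 : ℝ) ≤ K := hK0
  have h1 : ∀ n ∈ Icc 1 X, (UE_cnt F a h S n : ℝ) ≤
      (if n ∈ primeArgs F r X then K else 0) +
      (if n.Prime ∧ χ (n : ZMod r) = 1 then K₁ else 0) +
      (if n.Prime ∧ n ∣ r then (T : ℝ) / r else 0) := by
    intro n hn
    have g1 : (0 : ℝ) ≤ if n ∈ primeArgs F r X then K else 0 := by
      split_ifs
      · exact hK0
      · exact le_rfl
    have g2 : (0 : ℝ) ≤ if n.Prime ∧ χ (n : ZMod r) = 1 then K₁ else 0 := by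
      split_ifs
      · exact hK10
      · exact le_rfl
    have g3 : (0 : ℝ) ≤ if n.Prime ∧ n ∣ r then (T : ℝ) / r else 0 := by
      split_ifs
      · exact hTr
      · exact le_rfl
    by_cases hF : ∀ i, ∃ q : ℕ, q.Prime ∧ (F i).eval (n : ℤ) = q
    · have hnp : n.Prime := UO_X hF
      by_cases hc : n ∣ r
      · have h3 := UO_mult F a h r hr0 T S hS n
        rw [if_pos (⟨hnp, hc⟩ : n.Prime ∧ n ∣ r)]
        linarith
      · have hcop : n.Coprime r := (Nat.Prime.coprime_iff_not_dvd hnp).2 hc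
        have hsq := UE_sq χ h2 hcop
        have hpic : (UE_cnt F a h S n : ℝ) ≤ pic T r (-(a : ZMod r) * (n : ZMod r) ^ h) := by
          exact_mod_cast UE_pic F a h r T S hS n
        rcases (sq_eq_one_iff (a := χ (n : ZMod r))).1 hsq with h3 | h3
        · rw [if_pos (⟨hnp, h3⟩ : n.Prime ∧ χ (n : ZMod r) = 1)]
          have hu : IsUnit (-(a : ZMod r) * (n : ZMod r) ^ h) := by
            have hu1 : IsUnit (-(a : ZMod r)) := by
              by_contra hcon
              rw [MulChar.map_nonunit χ hcon] at hχa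
              norm_num at hχa
            exact hu1.mul (((ZMod.isUnit_iff_coprime n r).2 hcop).pow h)
          have h4 := hK1 _ hu
          linarith
        · have hmem : n ∈ primeArgs F r X := by
            unfold primeArgs
            rw [mem_filter]
            exact ⟨hn, hcop, hF⟩
          rw [if_pos hmem]
          have hchi : χ (-(a : ZMod r) * (n : ZMod r) ^ h) = 1 := by
            rw [map_mul, hχa, map_pow, h3, hodd.neg_one_pow]
            norm_num
          have h4 := hK _ hchi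
          linarith
    · rw [UE_zero F a h S n hF]
      push_cast
      linarith
  refine (Finset.sum_le_sum h1).trans ?_
  rw [Finset.sum_add_distrib, Finset.sum_add_distrib, ← Finset.sum_filter, ← Finset.sum_filter,
    ← Finset.sum_filter, Finset.sum_const, Finset.sum_const, Finset.sum_const,
    nsmul_eq_mul, nsmul_eq_mul, nsmul_eq_mul]
  have b1 : ((((Icc 1 X).filter fun n => n ∈ primeArgs F r X).card : ℕ) : ℝ) * K ≤
      ((primeArgs F r X).card : ℝ) * K := by
    apply mul_le_mul_of_nonneg_right _ hK0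
    have h3 : ((Icc 1 X).filter fun n => n ∈ primeArgs F r X) ⊆ primeArgs F r X := by
      intro n hn
      exact (mem_filter.1 hn).2
    exact_mod_cast Finset.card_le_card h3
  have b2 : ((((Icc 1 X).filter fun n : ℕ => n.Prime ∧ χ (n : ZMod r) = 1).card : ℕ) : ℝ) * K₁ ≤
      (Nat.totient r : ℝ) * K₂ * K₁ :=
    mul_le_mul_of_nonneg_right (UO_one r χ X K₂ hK20 hK2) hK10
  have b3 : ((((Icc 1 X).filter fun n : ℕ => n.Prime ∧ n ∣ r).card : ℕ) : ℝ) * ((T : ℝ) / r) ≤
      r * ((T : ℝ) / r + 1) := by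
    have h3 : ((Icc 1 X).filter fun n : ℕ => n.Prime ∧ n ∣ r) ⊆ Icc 1 r := by
      intro n hn
      rw [mem_filter] at hn
      rw [mem_Icc]
      exact ⟨hn.2.1.one_le, Nat.le_of_dvd (Nat.pos_of_ne_zero hr0) hn.2.2⟩
    have h4 : ((((Icc 1 X).filter fun n : ℕ => n.Prime ∧ n ∣ r).card : ℕ) : ℝ) ≤ r := by
      have h5 := Finset.card_le_card h3
      rw [Nat.card_Icc, Nat.add_sub_cancel] at h5
      exact_mod_cast h5
    have h5 : (0 : ℝ) ≤ r := Nat.cast_nonneg r
    nlinarith [mul_le_mul_of_nonneg_right h4 hTr]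
  linarith

end Pool.Agent.Lib.H68G
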