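import Pool.Agent.Lib.H68G.LB
import Pool.Agent.Lib.H68G.BT
import Pool.Agent.Lib.H68G.MX
import Pool.Agent.Lib.H68G.CH
import Pool.Agent.Lib.H68G.CL
import Pool.Agent.Lib.H68G.AV
import Pool.Agent.Lib.H68G.LQ
import Pool.Agent.Lib.H68G.UO
import Pool.Agent.Lib.H68G.ST

/-!
# Chunk SO (M): the key inequality for `F = (x)`, odd `h`
-/

open Finset Polynomial

namespace Pool.Agent.Lib.H68G

open Pool.Agent.Lib.H59

/-- `F = (x)` satisfies the standing assumptions (`n = 1`), and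
`V'_F = ∏_{p < r} (1 - 1/p)` (`x` and `x · x` have one root), so `(φ(r)/r) W ≤ V'_F`
(`φ(r)/r = ∏_{p ∣ r} (1 - 1/p)`). -/
theorem sys_x : Sys (fun _ : Fin 1 => (Polynomial.X : ℤ[X])) := by
  refine ⟨fun _ => irreducible_X, fun _ => by simp, fun p hp => ⟨1, ?_⟩⟩
  simp only [Finset.univ_unique, Finset.prod_const, Finset.card_singleton, pow_one, eval_mul,
    eval_X, mul_one]
  intro h
  have h1 := Int.natAbs_dvd_natAbs.2 h
  simp at h1
  exact hp.one_lt.ne' h1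

theorem SO_root {p : ℕ} (hp : p.Prime) (r : ℕ) :
    rootCount (mixPoly (fun _ : Fin 1 => (Polynomial.X : ℤ[X])) r p) p = 1 := by
  unfold rootCount
  rw [card_eq_one]
  refine ⟨0, ?_⟩
  ext n
  rw [mem_filter, Finset.mem_range, mem_singleton]
  have hpZ := Nat.prime_iff_prime_int.mp hp
  have key : (p : ℤ) ∣ (mixPoly (fun _ : Fin 1 => (Polynomial.X : ℤ[X])) r p).eval (n : ℤ) ↔
      p ∣ n := by
    unfold mixPoly
    split_ifs
    · simp only [Finset.univ_unique, Finset.prod_const, Finset.card_singleton, pow_one, eval_mul,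
        eval_X]
      rw [hpZ.dvd_mul, or_self, Int.natCast_dvd_natCast]
    · simp only [Finset.univ_unique, Finset.prod_const, Finset.card_singleton, pow_one, eval_X]
      rw [Int.natCast_dvd_natCast]
  rw [key]
  constructor
  · rintro ⟨h1, h2⟩
    exact Nat.eq_zero_of_dvd_of_lt h2 h1
  · rintro rfl
    exact ⟨hp.pos, dvd_zero _⟩

theorem SO_VF (r : ℕ) : VF (fun _ : Fin 1 => (Polynomial.X : ℤ[X])) r =
    ∏ p ∈ Nat.primesBelow r, (1 - 1 / (p : ℝ)) := by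
  unfold VF
  refine prod_congr rfl fun p hp => ?_
  rw [SO_root (Nat.prime_of_mem_primesBelow hp), Nat.cast_one]

theorem totient_WW_le (r : ℕ) (hr : 1 ≤ r) :
    (Nat.totient r : ℝ) / r * WW r ≤ VF (fun _ : Fin 1 => (Polynomial.X : ℤ[X])) r := by
  have hr0 : (0 : ℝ) < r := by exact_mod_cast hr
  rw [SO_VF]
  have h1 : (Nat.totient r : ℝ) / r = ∏ p ∈ r.primeFactors, (1 - 1 / (p : ℝ)) := by
    have h2 := Nat.totient_eq_mul_prod_factors r
    have h3 : (Nat.totient r : ℝ) = r * ∏ p ∈ r.primeFactors, (1 - (p : ℝ)⁻¹) := by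
      have := congrArg (fun q : ℚ => (q : ℝ)) h2
      simpa using this
    rw [h3, mul_div_assoc, mul_comm, div_mul_cancel₀ _ hr0.ne']
    exact prod_congr rfl fun p _ => by rw [one_div]
  have h4 : ∏ p ∈ Nat.primesBelow r, (1 - 1 / (p : ℝ)) =
      (∏ p ∈ (Nat.primesBelow r).filter (fun p => p ∣ r), (1 - 1 / (p : ℝ))) * WW r := by
    unfold WW prN
    rw [prod_filter_mul_prod_filter_not]
  rw [h4, h1]
  refine mul_le_mul_of_nonneg_right ?_ (WW_pos r).le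
  refine Finset.prod_le_prod_of_subset_of_le_one ?_ ?_ ?_
  · intro p hp
    rw [mem_filter, Nat.mem_primesBelow] at hp
    rw [Nat.mem_primeFactors]
    exact ⟨hp.1.2, hp.2, by omega⟩
  · intro p hp
    exact (factor_pos (Nat.prime_of_mem_primeFactors hp)).le
  · intro p hp _
    have : 0 ≤ 1 / (p : ℝ) := by positivity
    linarith

theorem SO_small {c r Z V W : ℝ} (h5 : 12 ≤ r) (h7 : r * r ≤ c / 4 * (Z * V * W)) :
    48 * r ≤ c * Z * V * W := by
  have h8 : 12 * r ≤ r * r := mul_le_mul_of_nonneg_right h5 (by linarith)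
  have e : c * Z * V * W = 4 * (c / 4 * (Z * V * W)) := by ring
  rw [e]
  linarith

theorem SO_arith {c Cm t V W E K K₁ K₂ Z r φ : ℝ} (hK : K = 1 + 16 * t * W * E)
    (hK1 : K₁ = 10 * t * W) (hK2 : K₂ = 1 + 16 * (Z / r) * W * E) (hZ : 0 < Z) (hr : 0 < r)
    (ht : 1 ≤ t) (hV : 0 < V) (hW : 0 < W) (hW1 : W ≤ 1) (hE : 0 ≤ E)
    (hφr : φ ≤ r) (hφ : φ / r * W ≤ V)
    (h1 : c * Z * (t * V * W) ≤ Cm * Z * V * K + φ * K₂ * K₁ + r * (t + 1))
    (h2 : Cm ≤ c / 4 * (t * W)) (h3 : 48 * r ≤ c * Z * V * W) :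
    c / 2 * (t * W * V) ≤ 16 * (Cm + 10) * E * (t * W * V) := by
  have ht0 : 0 < t := by linarith
  have e1 : φ * K₂ * K₁ = 10 * (φ * (t * W)) + 160 * (Z * t * W * E) * (φ / r * W) := by
    rw [hK1, hK2]
    field_simp
    ring
  have e2 : φ * (t * W) ≤ r * t := by
    have : φ * (t * W) ≤ r * (t * W) := mul_le_mul_of_nonneg_right hφr (by positivity)
    have h5 : r * (t * W) ≤ r * (t * 1) := by gcongr
    linarith
  have e3 : 160 * (Z * t * W * E) * (φ / r * W) ≤ 160 * (Z * t * W * E) * V :=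
    mul_le_mul_of_nonneg_left hφ (by positivity)
  have e4 : r * (t + 1) ≤ 2 * (r * t) := by nlinarith
  have e5 : 48 * r * t ≤ c * Z * V * W * t := mul_le_mul_of_nonneg_right h3 ht0.le
  have h6 : Cm * V ≤ c / 4 * (t * W) * V := mul_le_mul_of_nonneg_right h2 hV.le
  have h7 : Z * (c * (t * V * W)) ≤
      Z * (c / 4 * (t * W) * V + 16 * Cm * (t * W * E) * V + 160 * (t * W * E) * V +
        c / 4 * (V * W * t)) := by
    have e6 : Cm * Z * V * K = Z * (Cm * V) + Z * (16 * Cm * (t * W * E) * V) := by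
      rw [hK]; ring
    have e7 : Z * (Cm * V) ≤ Z * (c / 4 * (t * W) * V) := mul_le_mul_of_nonneg_left h6 hZ.le
    have e8 : Z * (c / 4 * (V * W * t)) = 1 / 4 * (c * Z * V * W * t) := by ring
    have e9 : Z * (160 * (t * W * E) * V) = 160 * (Z * t * W * E) * V := by ring
    have e10 : Z * (c * (t * V * W)) = c * Z * (t * V * W) := by ring
    rw [e10]
    rw [mul_add, mul_add, mul_add, e8, e9]
    rw [e6, e1] at h1
    linarith
  have h8 := le_of_mul_le_mul_left h7 hZ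
  have e11 : c * (t * V * W) = c * (t * W * V) := by ring
  have e12 : c / 4 * (t * W) * V = c / 4 * (t * W * V) := by ring
  have e13 : c / 4 * (V * W * t) = c / 4 * (t * W * V) := by ring
  have e14 : 16 * Cm * (t * W * E) * V + 160 * (t * W * E) * V =
      16 * (Cm + 10) * E * (t * W * V) := by ring
  rw [e11, e12, e13] at h8
  linarith

/-- As `star_even`, with `up_odd`: `K = 1 + 16 (T/r) W E`, `K₁ = 10 (T/r) W` (`pic_le`),
`K₂ = 1 + 16 (X/r) W E`. The two new terms are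
`φ(r) K₂ K₁ ≤ 10 T W + 160 X (T/r) (φ(r)/r) W · W E` and `r (T/r + 1) ≤ 2 T`; divided by
`X (T/r) V' W` they are at most `10 r/(X V') + 160 E + 2 r/(X V' W)`. -/
theorem star_odd (a h : ℕ) (ha : 1 ≤ a) (hodd : Odd h)
    (hL : LowerHalf (fun _ : Fin 1 => (Polynomial.X : ℤ[X])) (GG a h)) : ∃ C : ℝ, 0 < C ∧
      ∃ r₀ : ℕ, ∀ (r : ℕ) [NeZero r] (χ : DirichletCharacter ℂ r), r₀ ≤ r → RP χ →
        χ (-(a : ZMod r)) = -1 → Star C χ := by
  set F : Fin 1 → ℤ[X] := fun _ => Polynomial.X with hFdef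
  have hF : Sys F := sys_x
  have hh : 1 ≤ h := hodd.pos
  obtain ⟨M, hM1, hM⟩ := exists_class F hF a h ha hh
  obtain ⟨c₂, hc₂, r₂, h₂⟩ := avg F hF a h M ha hh hM1
  obtain ⟨c₁, hc₁, r₁, h₁⟩ := low_q F hF a h ha hh hL
  obtain ⟨Cm, hCm, r₃, h₃⟩ := mix_sieve F hF h
  obtain ⟨r₄, h₄⟩ := pic_small
  obtain ⟨r₆, h₆⟩ := pic_le
  set c : ℝ := c₁ * c₂ with hc
  have hc0 : 0 < c := mul_pos hc₁ hc₂
  set r₅ : ℕ := ⌈2000 * Cm / c⌉₊ + ⌈4000 / c⌉₊ + 12 with hr₅
  refine ⟨32 * (Cm + 10) / c, by positivity, max (max r₁ r₂) (max (max r₃ r₄) (max r₅ r₆)),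
    fun r _ χ hr hRP hχa => ?_⟩
  have g1 : r₁ ≤ r := ((le_max_left _ _).trans (le_max_left _ _)).trans hr
  have g2 : r₂ ≤ r := ((le_max_right _ _).trans (le_max_left _ _)).trans hr
  have g3 : r₃ ≤ r :=
    (((le_max_left _ _).trans (le_max_left _ _)).trans (le_max_right _ _)).trans hr
  have g4 : r₄ ≤ r :=
    (((le_max_right _ _).trans (le_max_left _ _)).trans (le_max_right _ _)).trans hr
  have g5 : r₅ ≤ r :=
    (((le_max_left _ _).trans (le_max_right _ _)).trans (le_max_right _ _)).trans hr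
  have g6 : r₆ ≤ r :=
    (((le_max_right _ _).trans (le_max_right _ _)).trans (le_max_right _ _)).trans hr
  have hr12 : 12 ≤ r := by omega
  have hr0 : (0 : ℝ) < r := by exact_mod_cast (by omega : 0 < r)
  have hco : Nat.Coprime a r := ST_coprime (χ := χ) (by
    rw [hχa]; exact neg_ne_zero.2 one_ne_zero)
  obtain ⟨q, b, hrq, hqM, hN⟩ := hM r (by omega) hco (fun p hp hp2 => not_sq_dvd hRP hp hp2)
  set B := BB F h with hB
  have hB4 : 4000 ≤ B := by rw [hB]; unfold BB; omega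
  set X : ℕ := r ^ B with hX
  set T : ℕ := a * X ^ h with hT
  have hX1 : 1 ≤ X := Nat.one_le_pow _ _ (by omega)
  have hXT : X ≤ T := by
    calc X = 1 * X ^ 1 := by ring
      _ ≤ a * X ^ h := Nat.mul_le_mul ha (Nat.pow_le_pow_right hX1 hh)
  have hrX' : ∀ m : ℕ, m ≤ 4000 → r ^ m ≤ X := fun m hm =>
    Nat.pow_le_pow_right (by omega) (hm.trans hB4)
  have hrX : ∀ m : ℕ, m ≤ 4000 → r ^ m ≤ T := fun m hm => (hrX' m hm).trans hXT
  set S := NN T q b with hS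
  have hSmem : ∀ N ∈ S, T / 2 < N ∧ N ≤ T ∧ r ∣ N ∧ Admissible F (GG a h) N := by
    intro N hNS
    rw [hS, NN, mem_filter, mem_Ioc] at hNS
    obtain ⟨h5, h6⟩ := hN N hNS.2
    exact ⟨hNS.1.1, hNS.1.2, h5, h6⟩
  have k2 := h₂ r g2 hco q b hrq hqM T (hrX 5 (by omega)) (fun N hNS => (hSmem N hNS).2.2)
  set E : ℝ := L1 χ * UU χ with hE
  have hE0 : 0 ≤ E := mul_nonneg (norm_nonneg _) (UU_pos χ).le
  obtain ⟨k3, k3'⟩ := h₃ r g3
  have hWW := WW_ge r (by omega)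
  have hXr : ((X : ℕ) : ℝ) = (r : ℝ) ^ B := by rw [hX]; push_cast; rfl
  have u1 : 2000 * Cm / c ≤ r :=
    (Nat.le_ceil _).trans (by exact_mod_cast (by omega : ⌈2000 * Cm / c⌉₊ ≤ r))
  have u2 : 4000 / c ≤ r :=
    (Nat.le_ceil _).trans (by exact_mod_cast (by omega : ⌈4000 / c⌉₊ ≤ r))
  obtain ⟨hV0, hW0, hTr0, s1, -⟩ := ST_sizes (r := r) (B := B) (T := T) (V := VF F r)
    (W := WW r) (c := c) (Cm := Cm) (by omega) (by omega) hc0
    (by rw [← hXr]; exact_mod_cast hXT) k3' hWW u1 u2 hCm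
  obtain ⟨-, -, -, -, s3⟩ := ST_sizes (r := r) (B := B) (T := X) (V := VF F r)
    (W := WW r) (c := c) (Cm := Cm) (by omega) (by omega) hc0 hXr.ge k3' hWW u1 u2 hCm
  have hXr0 : 0 < (X : ℝ) := by exact_mod_cast hX1
  have s4 : 48 * (r : ℝ) ≤ c * X * VF F r * WW r := by
    have h5 : (12 : ℝ) ≤ r := by exact_mod_cast hr12
    have h6 : c / 4 * ((X : ℝ) / r * VF F r * WW r) * r = c / 4 * (X * VF F r * WW r) := by
      field_simp
    have h7 := mul_le_mul_of_nonneg_right s3 hr0.le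
    rw [h6] at h7
    exact SO_small h5 h7
  set K : ℝ := 1 + 16 * (T / r) * WW r * E with hK
  set K₁ : ℝ := 10 * (T / r) * WW r with hK₁
  set K₂ : ℝ := 1 + 16 * (X / r) * WW r * E with hK₂
  have hK0 : 0 ≤ K := by positivity
  have hK10 : 0 ≤ K₁ := by positivity
  have hK20 : 0 ≤ K₂ := by positivity
  have hT2 : r ^ 2000 ≤ T := hrX 2000 (by norm_num)
  have hT1 : r ^ 1000 ≤ T := hrX 1000 (by norm_num)
  have hX2 : r ^ 2000 ≤ X := hrX' 2000 (by norm_num)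
  have hpic : ∀ cc : ZMod r, χ cc = 1 → (pic T r cc : ℝ) ≤ K := fun cc hcc =>
    h₄ r χ g4 hRP.2.1 hRP.2.2 cc hcc T hT2
  have hpic2 : ∀ cc : ZMod r, χ cc = 1 → (pic X r cc : ℝ) ≤ K₂ := fun cc hcc =>
    h₄ r χ g4 hRP.2.1 hRP.2.2 cc hcc X hX2
  have hpic1 : ∀ cc : ZMod r, IsUnit cc → (pic T r cc : ℝ) ≤ K₁ := fun cc hcc =>
    h₆ r g6 cc hcc T hT1
  have hup := up_odd a h r χ hRP.2.2 hodd hχa ha X S
    (fun N hNS => ⟨(hSmem N hNS).2.1, (hSmem N hNS).2.2.1⟩) K K₁ K₂ hK0 hpic hK10 hpic1 hK20 hpic2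
  have hlow : c₁ * (r : ℝ) ^ B * (c₂ * (T / r) * VF F r * WW r) ≤
      ∑ N ∈ S, (primeCount F (GG a h) N : ℝ) := by
    refine le_trans (mul_le_mul_of_nonneg_left k2 (by positivity)) ?_
    rw [mul_sum]
    refine sum_le_sum fun N hNS => ?_
    obtain ⟨t1, t2, t3, t4⟩ := hSmem N hNS
    exact h₁ r g1 N t1 t2 t4
  have hall : c * (X : ℝ) * ((T / r) * VF F r * WW r) ≤
      Cm * X * VF F r * K + (Nat.totient r : ℝ) * K₂ * K₁ + r * ((T : ℝ) / r + 1) := by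
    have h5 : c * (X : ℝ) * ((T / r) * VF F r * WW r) =
        c₁ * (r : ℝ) ^ B * (c₂ * (T / r) * VF F r * WW r) := by rw [hc, hXr]; ring
    rw [h5]
    refine hlow.trans (hup.trans ?_)
    rw [← hXr] at k3
    have h6 := mul_le_mul_of_nonneg_right k3 hK0
    have h7 : (r : ℝ) * (((a * X ^ h : ℕ) : ℝ) / r + 1) = r * ((T : ℝ) / r + 1) := by rw [hT]
    rw [h7]
    linarith
  have hTr1 : 1 ≤ (T : ℝ) / r := by
    rw [le_div_iff₀ hr0, one_mul]
    exact_mod_cast (by simpa using hrX 1 (by norm_num))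
  have hφr : (Nat.totient r : ℝ) ≤ r := by exact_mod_cast Nat.totient_le r
  have hfin := SO_arith hK hK₁ hK₂ hXr0 hr0 hTr1 hV0 hW0 (WW_le_one r) hE0 hφr
    (totient_WW_le r (by omega)) hall s1 s4
  have hpos : 0 < (T : ℝ) / r * WW r * VF F r := by positivity
  have hcE : c / 2 ≤ 16 * (Cm + 10) * E := le_of_mul_le_mul_right hfin hpos
  unfold Star
  rw [← hE, div_mul_eq_mul_div, le_div_iff₀ hc0]
  linarith

end Pool.Agent.Lib.H68G
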